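import Mathlib

/-!
Normal subgroups with nonabelian simple quotients.
-/

set_option autoImplicit false

namespace Pool.Agent.H418.FA

variable {G : Type} [Group G]

/-- `N` is a normal subgroup of `G` and `G / N` is a nonabelian simple group. -/
structure NS (N : Subgroup G) : Prop where
  normal : N.Normal
  ncomm : ∃ a b : G, a * b * a⁻¹ * b⁻¹ ∉ N
  max : ∀ M : Subgroup G, M.Normal → N ≤ M → M = N ∨ M = ⊤

theorem NS.sup_eq_top {N : Subgroup G} (h : NS N) {Z : Subgroup G} (hZ : Z.Normal)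
    (hZN : ¬ Z ≤ N) : Z ⊔ N = ⊤ := by
  have := h.normal
  rcases h.max (Z ⊔ N) inferInstance le_sup_right with h1 | h1
  · exact absurd (h1 ▸ le_sup_left) hZN
  · exact h1

/-- If `A N = B N = G` then the commutators of `A` and `B` are not all in `N`. -/
theorem NS.exists_comm {N : Subgroup G} (h : NS N) {A B : Subgroup G} (hA : A ⊔ N = ⊤)
    (hB : B ⊔ N = ⊤) : ∃ a ∈ A, ∃ b ∈ B, a * b * a⁻¹ * b⁻¹ ∉ N := by
  have := h.normal
  by_contra hc
  push Not at hc
  obtain ⟨x, y, hxy⟩ := h.ncomm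
  apply hxy
  have hx : x ∈ A ⊔ N := hA ▸ Subgroup.mem_top x
  have hy : y ∈ B ⊔ N := hB ▸ Subgroup.mem_top y
  obtain ⟨a, ha, n, hn, rfl⟩ := Subgroup.mem_sup_of_normal_right.1 hx
  obtain ⟨b, hb, m, hm, rfl⟩ := Subgroup.mem_sup_of_normal_right.1 hy
  have h1 := hc a ha b hb
  rw [← QuotientGroup.eq_one_iff] at h1 hn hm ⊢
  simp only [QuotientGroup.mk_mul, QuotientGroup.mk_inv] at h1 ⊢
  rw [hn, hm, mul_one, mul_one, h1]

/-- The key step. -/
theorem NS.le_of_inf_le {N : Subgroup G} (h : NS N) {Z R : Subgroup G} (hZ : Z.Normal)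
    (hR : R.Normal) (h1 : R ⊓ N ≤ Z) (h2 : ¬ Z ≤ N) : R ≤ Z := by
  have := h.normal
  by_cases h3 : R ≤ N
  · exact fun x hx => h1 ⟨hx, h3 hx⟩
  have h4 : ¬ Z ⊓ R ≤ N := by
    obtain ⟨a, ha, b, hb, hab⟩ := h.exists_comm (h.sup_eq_top hZ h2) (h.sup_eq_top hR h3)
    intro h4
    apply hab
    apply h4
    refine ⟨?_, ?_⟩
    · have h5 := Z.mul_mem ha (hZ.conj_mem _ (Z.inv_mem ha) b)
      have h6 : a * (b * a⁻¹ * b⁻¹) = a * b * a⁻¹ * b⁻¹ := by group
      rwa [h6] at h5
    · exact R.mul_mem (hR.conj_mem _ hb a) (R.inv_mem hb)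
  have h5 : (Z ⊓ R) ⊔ N = ⊤ := h.sup_eq_top inferInstance h4
  intro r hr
  have h6 : r ∈ (Z ⊓ R) ⊔ N := h5 ▸ Subgroup.mem_top r
  obtain ⟨c, hc, n, hn, rfl⟩ := Subgroup.mem_sup_of_normal_right.1 h6
  refine Z.mul_mem hc.1 (h1 ⟨?_, hn⟩)
  have h7 := R.mul_mem (R.inv_mem hc.2) hr
  rwa [inv_mul_cancel_left] at h7

theorem le_of_finset_inf_le {Z : Subgroup G} (hZ : Z.Normal) (T : Finset (Subgroup G))
    (hT : ∀ N ∈ T, NS N ∧ ¬ Z ≤ N) :
    ∀ R : Subgroup G, R.Normal → R ⊓ T.inf id ≤ Z → R ≤ Z := by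
  classical
  induction T using Finset.induction_on with
  | empty => intro R _ h; simpa using h
  | insert N T hN ih =>
    intro R hR h
    have h0 : ∀ M ∈ T, NS M := fun M hM => (hT M (Finset.mem_insert_of_mem hM)).1
    have h1 : (T.inf id).Normal := by
      clear ih h hT hN
      induction T using Finset.induction_on with
      | empty => exact (inferInstance : (⊤ : Subgroup G).Normal)
      | insert M T _ ih2 =>
        rw [Finset.inf_insert]
        have h2 := (h0 M (Finset.mem_insert_self _ _)).normal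
        have h3 := ih2 (fun L hL => h0 L (Finset.mem_insert_of_mem hL))
        change (M ⊓ T.inf id).Normal
        infer_instance
    refine ih (fun M hM => hT M (Finset.mem_insert_of_mem hM)) R hR ?_
    refine (hT N (Finset.mem_insert_self _ _)).1.le_of_inf_le hZ inferInstance ?_
      (hT N (Finset.mem_insert_self _ _)).2
    refine le_trans ?_ h
    rw [Finset.inf_insert]
    exact le_inf (inf_le_left.trans inf_le_left)
      (le_inf inf_le_right (inf_le_left.trans inf_le_right))

/-- If the normal subgroup `Z` contains a finite intersection of normal subgroups with nonabelian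
simple quotients and `W` is a normal subgroup which is contained in all of these which contain `Z`,
then `W ≤ Z`. -/
theorem le_of_inf {Z W : Subgroup G} (hZ : Z.Normal) (hW : W.Normal) (T : Finset (Subgroup G))
    (hT : ∀ N ∈ T, NS N) (hTZ : T.inf id ≤ Z) (h : ∀ N ∈ T, Z ≤ N → W ≤ N) : W ≤ Z := by
  classical
  refine le_of_finset_inf_le hZ (T.filter fun N => ¬ Z ≤ N)
    (fun N hN => ⟨hT N (Finset.mem_filter.1 hN).1, (Finset.mem_filter.1 hN).2⟩) W hW ?_
  refine le_trans ?_ hTZ
  refine Finset.le_inf fun N hN => ?_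
  by_cases h1 : Z ≤ N
  · exact inf_le_left.trans (h N hN h1)
  · exact inf_le_right.trans (Finset.inf_le (Finset.mem_filter.2 ⟨hN, h1⟩))

/-- The image of such a subgroup. -/
theorem NS.map {E : Type} [Group E] {N : Subgroup G} (h : NS N) (g : G →* E)
    (hg : Function.Surjective g) (hk : g.ker ≤ N) : NS (N.map g) := by
  have := h.normal
  have hc : (N.map g).comap g = N := by
    rw [Subgroup.comap_map_eq, sup_eq_left]
    exact hk
  refine ⟨this.map g hg, ?_, ?_⟩
  · obtain ⟨a, b, hab⟩ := h.ncomm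
    refine ⟨g a, g b, fun h1 => hab ?_⟩
    rw [← hc, Subgroup.mem_comap]
    simpa using h1
  · intro M hM hNM
    have h1 : N ≤ M.comap g := Subgroup.map_le_iff_le_comap.1 hNM
    rcases h.max (M.comap g) (hM.comap g) h1 with h2 | h2
    · left
      rw [← Subgroup.map_comap_eq_self_of_surjective hg M, h2]
    · right
      rw [← Subgroup.map_comap_eq_self_of_surjective hg M, h2]
      exact Subgroup.map_top_of_surjective g hg

/-- Kernel of a surjection onto a nonabelian simple group. -/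
theorem NS.of_ker {S : Type} [Group S] [IsSimpleGroup S] (hS : ∃ a b : S, a * b ≠ b * a)
    (f : G →* S) (hf : Function.Surjective f) : NS f.ker := by
  refine ⟨inferInstance, ?_, ?_⟩
  · obtain ⟨a, b, hab⟩ := hS
    obtain ⟨x, rfl⟩ := hf a
    obtain ⟨y, rfl⟩ := hf b
    refine ⟨x, y, fun h => hab ?_⟩
    rw [MonoidHom.mem_ker, map_mul, map_mul, map_mul, map_inv, map_inv, mul_inv_eq_one,
      mul_inv_eq_iff_eq_mul] at h
    exact h
  · intro M hM hle
    have h1 : (M.map f).Normal := hM.map f hf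
    have hc : (M.map f).comap f = M := by
      rw [Subgroup.comap_map_eq, sup_eq_left]
      exact hle
    rcases h1.eq_bot_or_eq_top with h2 | h2
    · left
      rw [← hc, h2]
      rfl
    · right
      rw [← hc, h2]
      rfl

end Pool.Agent.H418.FA
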