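import Mathlib
import Pool.Agent.H418.FA.NS
import Pool.Graph.R_pool_sql_team_seeded_5cf16337.K3h17.Gg

/-!
Normal subgroups with nonabelian simple quotients of alternating fibre powers contain the kernel.
-/

set_option autoImplicit false

namespace Pool.Agent.H418.FA

open Pool.Agent.H391R2 Pool.Agent.H391R2.T4 Pool.Agent.Y793

variable {Γ B : Type} [Group Γ] [Group B]

theorem mem_AltEP (α : B →* Γ) (n : ℕ) (z : Wr B n × Γ) :
    z ∈ AltEP α n ↔ (∀ i, α (z.1.left i) = z.2) ∧ Equiv.Perm.sign z.1.right = 1 := Iff.rfl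

/-- The embedding of `(ker α)^n`. -/
def inK (α : B →* Γ) (n : ℕ) : (Fin n → α.ker) →* AltEP α n where
  toFun b := ⟨(SemidirectProduct.inl fun i => (b i : B), 1), by
    rw [mem_AltEP]
    exact ⟨fun i => (b i).2, map_one _⟩⟩
  map_one' := by
    apply Subtype.ext
    apply Prod.ext
    · apply SemidirectProduct.ext
      · rfl
      · rfl
    · rfl
  map_mul' b c := by
    apply Subtype.ext
    apply Prod.ext
    · apply SemidirectProduct.ext
      · funext i
        change ((b i * c i : α.ker) : B) = _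
        rfl
      · rfl
    · change (1 : Γ) = 1 * 1
      rw [one_mul]

theorem inK_left (α : B →* Γ) (n : ℕ) (b : Fin n → α.ker) (i : Fin n) :
    (inK α n b).1.1.left i = b i := rfl

theorem inK_right (α : B →* Γ) (n : ℕ) (b : Fin n → α.ker) : (inK α n b).1.1.right = 1 := rfl

theorem inK_snd (α : B →* Γ) (n : ℕ) (b : Fin n → α.ker) : (inK α n b).1.2 = 1 := rfl

/-- The range of `inK`. -/
theorem mem_range_inK (α : B →* Γ) (n : ℕ) (x : AltEP α n) :
    x ∈ (inK α n).range ↔ x.1.1.right = 1 ∧ x.1.2 = 1 := by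
  constructor
  · rintro ⟨b, rfl⟩
    exact ⟨rfl, rfl⟩
  · rintro ⟨h1, h2⟩
    have h3 := ((mem_AltEP α n x.1).1 x.2).1
    refine ⟨fun i => ⟨x.1.1.left i, ?_⟩, ?_⟩
    · rw [MonoidHom.mem_ker, h3 i, h2]
    · apply Subtype.ext
      apply Prod.ext
      · apply SemidirectProduct.ext
        · rfl
        · exact h1.symm
      · exact h2.symm

/-- Conjugation of an element of the kernel: the formula. -/
theorem conj_inK (α : B →* Γ) (n : ℕ) (x : AltEP α n) (b : Fin n → α.ker) (i : Fin n) :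
    (x * inK α n b * x⁻¹).1.1.left i =
      x.1.1.left i * (b (x.1.1.right⁻¹ i) : B) * (x.1.1.left i)⁻¹ := by
  change ((x.1.1 * (inK α n b).1.1 * x.1.1⁻¹).left i) = _
  rw [wr_mul_left, wr_mul_left, wr_inv_left, inK_left]
  congr 3
  rw [wr_mul_right, inK_right, mul_one]
  exact congrArg _ (Equiv.apply_symm_apply x.1.1.right i)

theorem conj_inK_mem (α : B →* Γ) (n : ℕ) (x : AltEP α n) (b : Fin n → α.ker) :
    x * inK α n b * x⁻¹ ∈ (inK α n).range := by
  rw [mem_range_inK]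
  constructor
  · change (x.1.1 * (inK α n b).1.1 * x.1.1⁻¹).right = 1
    rw [wr_mul_right, wr_mul_right, inK_right, mul_one]
    change x.1.1.right * x.1.1.right⁻¹ = 1
    exact mul_inv_cancel _
  · change x.1.2 * 1 * x.1.2⁻¹ = 1
    rw [mul_one, mul_inv_cancel]

theorem range_inK_normal (α : B →* Γ) (n : ℕ) : ((inK α n).range).Normal := by
  refine ⟨?_⟩
  rintro _ ⟨b, rfl⟩ x
  exact conj_inK_mem α n x b

/-- The coordinate subgroups. -/
def coK (α : B →* Γ) (n : ℕ) (i : Fin n) : Subgroup (AltEP α n) where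
  carrier := {x | x.1.1.right = 1 ∧ x.1.2 = 1 ∧ ∀ j, j ≠ i → x.1.1.left j = 1}
  one_mem' := ⟨rfl, rfl, fun _ _ => rfl⟩
  mul_mem' := by
    rintro a b ⟨ha1, ha2, ha3⟩ ⟨hb1, hb2, hb3⟩
    refine ⟨?_, ?_, fun j hj => ?_⟩
    · change a.1.1.right * b.1.1.right = 1
      rw [ha1, hb1, one_mul]
    · change a.1.2 * b.1.2 = 1
      rw [ha2, hb2, one_mul]
    · change (a.1.1 * b.1.1).left j = 1
      rw [wr_mul_left, ha3 j hj, ha1, inv_one, Equiv.Perm.coe_one, id, hb3 j hj, one_mul]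
  inv_mem' := by
    rintro a ⟨ha1, ha2, ha3⟩
    refine ⟨?_, ?_, fun j hj => ?_⟩
    · change a.1.1.right⁻¹ = 1
      rw [ha1, inv_one]
    · change a.1.2⁻¹ = 1
      rw [ha2, inv_one]
    · change (a.1.1⁻¹).left j = 1
      rw [wr_inv_left, ha1, Equiv.Perm.coe_one, id, ha3 j hj, inv_one]

theorem mem_coK (α : B →* Γ) (n : ℕ) (i : Fin n) (x : AltEP α n) : x ∈ coK α n i ↔
    x.1.1.right = 1 ∧ x.1.2 = 1 ∧ ∀ j, j ≠ i → x.1.1.left j = 1 := Iff.rfl

theorem coK_le (α : B →* Γ) (n : ℕ) (i : Fin n) : coK α n i ≤ (inK α n).range := by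
  intro x hx
  rw [mem_coK] at hx
  rw [mem_range_inK]
  exact ⟨hx.1, hx.2.1⟩

theorem conj_coK (α : B →* Γ) (n : ℕ) (i : Fin n) (x y : AltEP α n) (hx : x ∈ coK α n i) :
    y * x * y⁻¹ ∈ coK α n (y.1.1.right i) := by
  obtain ⟨b, rfl⟩ := coK_le α n i hx
  have h1 := conj_inK_mem α n y b
  rw [mem_range_inK] at h1
  rw [mem_coK] at hx ⊢
  refine ⟨h1.1, h1.2, fun j hj => ?_⟩
  rw [conj_inK]
  have h2 : y.1.1.right⁻¹ j ≠ i := by
    intro h
    apply hj
    rw [← h]
    exact (Equiv.apply_symm_apply y.1.1.right j).symm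
  have h3 := hx.2.2 _ h2
  rw [inK_left] at h3
  rw [h3, mul_one, mul_inv_cancel]

theorem comm_coK (α : B →* Γ) (n : ℕ) (i j : Fin n) (hij : i ≠ j) (x y : AltEP α n)
    (hx : x ∈ coK α n i) (hy : y ∈ coK α n j) : x * y * x⁻¹ * y⁻¹ = 1 := by
  obtain ⟨b, rfl⟩ := coK_le α n i hx
  obtain ⟨c, rfl⟩ := coK_le α n j hy
  rw [mem_coK] at hx hy
  rw [mul_inv_eq_one, mul_inv_eq_iff_eq_mul, ← map_mul, ← map_mul]
  congr 1
  funext k
  by_cases hk : k = i
  · have h1 : (c k : B) = 1 := hy.2.2 k (by rw [hk]; exact hij)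
    have h2 : c k = 1 := Subtype.ext h1
    rw [Pi.mul_apply, Pi.mul_apply, h2, mul_one, one_mul]
  · have h1 : (b k : B) = 1 := hx.2.2 k hk
    have h2 : b k = 1 := Subtype.ext h1
    rw [Pi.mul_apply, Pi.mul_apply, h2, mul_one, one_mul]

/-- The kernel is contained in a subgroup which contains all coordinate subgroups. -/
theorem range_inK_le (α : B →* Γ) (n : ℕ) (N : Subgroup (AltEP α n))
    (h : ∀ i, coK α n i ≤ N) : (inK α n).range ≤ N := by
  classical
  rintro _ ⟨b, rfl⟩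
  have h1 : b ∈ N.comap (inK α n) := by
    refine Subgroup.pi_mem_of_mulSingle_mem b fun i => ?_
    rw [Subgroup.mem_comap]
    apply h i
    rw [mem_coK]
    refine ⟨rfl, rfl, fun j hj => ?_⟩
    rw [inK_left, Pi.mulSingle_eq_of_ne hj]
    rfl
  exact h1

/-- There are even permutations which map `i` to `j`. -/
theorem exists_even (n : ℕ) (hn : 3 ≤ n) (i j : Fin n) :
    ∃ σ : Equiv.Perm (Fin n), Equiv.Perm.sign σ = 1 ∧ σ i = j := by
  classical
  by_cases hij : i = j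
  · exact ⟨1, map_one _, hij⟩
  obtain ⟨k, hk⟩ : ∃ k : Fin n, k ∉ ({i, j} : Finset (Fin n)) := by
    by_contra hc
    push Not at hc
    have h1 : (Finset.univ : Finset (Fin n)) ⊆ {i, j} := fun k _ => hc k
    have h2 := Finset.card_le_card h1
    have h3 : ({i, j} : Finset (Fin n)).card ≤ 2 := Finset.card_le_two
    rw [Finset.card_univ, Fintype.card_fin] at h2
    omega
  simp only [Finset.mem_insert, Finset.mem_singleton, not_or] at hk
  refine ⟨Equiv.swap j k * Equiv.swap i k, ?_, ?_⟩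
  · rw [map_mul, Equiv.Perm.sign_swap (fun h => hk.2 h.symm),
      Equiv.Perm.sign_swap (fun h => hk.1 h.symm)]
    rfl
  · rw [Equiv.Perm.mul_apply, Equiv.swap_apply_left, Equiv.swap_apply_right]

/-- `AltEP α n` contains elements with all given data. -/
theorem exists_mem (α : B →* Γ) (n : ℕ) (σ : Equiv.Perm (Fin n))
    (hσ : Equiv.Perm.sign σ = 1) : ∃ x : AltEP α n, x.1.1.right = σ :=
  ⟨⟨(⟨1, σ⟩, 1), by
    rw [mem_AltEP]
    exact ⟨fun i => map_one α, hσ⟩⟩, rfl⟩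

/-- A normal subgroup with nonabelian simple quotient contains the kernel `(ker α)^n`. -/
theorem inK_le_of_NS (α : B →* Γ) (n : ℕ) (hn : 3 ≤ n)
    (N : Subgroup (AltEP α n)) (hN : NS N) : (inK α n).range ≤ N := by
  have hNn := hN.normal
  by_contra hW
  have hWt := hN.sup_eq_top (range_inK_normal α n) hW
  -- no coordinate subgroup is contained in `N`
  have h1 : ∀ i, ¬ coK α n i ≤ N := by
    intro i hi
    apply hW
    apply range_inK_le
    intro j x hx
    obtain ⟨σ, hσ, hσj⟩ := exists_even n hn j i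
    obtain ⟨y, hy⟩ := exists_mem α n σ hσ
    have h2 := conj_coK α n j x y hx
    rw [hy, hσj] at h2
    have h3 := hNn.conj_mem _ (hi h2) y⁻¹
    have h4 : y⁻¹ * (y * x * y⁻¹) * y⁻¹⁻¹ = x := by group
    rwa [h4] at h3
  -- the subgroups `W_i N` are normal
  have h2 : ∀ i, (coK α n i ⊔ N).Normal := by
    intro i
    refine ⟨fun x hx g => ?_⟩
    obtain ⟨w, hw, m, hm, rfl⟩ := Subgroup.mem_sup_of_normal_right.1 hx
    have hg : g ∈ (inK α n).range ⊔ N := hWt ▸ Subgroup.mem_top g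
    obtain ⟨v, hv, l, hl, rfl⟩ := Subgroup.mem_sup_of_normal_right.1 hg
    have h3 : v * w * v⁻¹ ∈ coK α n i := by
      have h4 := conj_coK α n i w v hw
      rw [((mem_range_inK α n v).1 hv).1] at h4
      exact h4
    have h5 : v * l * (w * m) * (v * l)⁻¹ =
        (v * w * v⁻¹) * ((v * (w⁻¹ * l * w⁻¹⁻¹) * v⁻¹) * (v * (m * l⁻¹) * v⁻¹)) := by group
    rw [h5]
    refine Subgroup.mul_mem_sup h3 (N.mul_mem (hNn.conj_mem _ (hNn.conj_mem _ hl _) _)
      (hNn.conj_mem _ (N.mul_mem hm (N.inv_mem hl)) _))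
  have h3 : ∀ i, coK α n i ⊔ N = ⊤ := by
    intro i
    rcases hN.max _ (h2 i) le_sup_right with h4 | h4
    · exact absurd (h4 ▸ le_sup_left) (h1 i)
    · exact h4
  obtain ⟨a, ha, b, hb, hab⟩ := hN.exists_comm (h3 ⟨0, by omega⟩) (h3 ⟨1, by omega⟩)
  apply hab
  rw [comm_coK α n _ _ (by simp) a b ha hb]
  exact N.one_mem

end Pool.Agent.H418.FA
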