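import Mathlib

/-!
Alternating groups of even degree are generated by two elements.
-/

set_option autoImplicit false

namespace Pool.Agent.H418.FA

open Equiv Equiv.Perm

variable (m : ℕ) [NeZero m]

/-- The rotation which fixes `none`. -/
def rot (k : ZMod m) : Perm (Option (ZMod m)) := Equiv.optionCongr (Equiv.addRight k)

omit [NeZero m] in
theorem rot_none (k : ZMod m) : rot m k none = none := rfl

omit [NeZero m] in
theorem rot_some (k x : ZMod m) : rot m k (some x) = some (x + k) := rfl

omit [NeZero m] in
theorem rot_pow (n : ℕ) : (rot m 1) ^ n = rot m (n : ZMod m) := by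
  induction n with
  | zero =>
    ext x
    cases x with
    | none => simp [rot_none]
    | some x => simp [rot_some]
  | succ n ih =>
    rw [pow_succ, ih]
    apply Equiv.ext
    intro x
    cases x with
    | none => rfl
    | some x =>
      rw [Perm.mul_apply, rot_some, rot_some, rot_some]
      congr 1
      push_cast
      ring

theorem rot_mem (H : Subgroup (Perm (Option (ZMod m)))) (h : rot m 1 ∈ H) (k : ZMod m) :
    rot m k ∈ H := by
  have h1 : ((k.val : ℕ) : ZMod m) = k := ZMod.natCast_zmod_val k
  rw [← h1, ← rot_pow]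
  exact H.pow_mem h _

/-- The three-cycle. -/
def tri : Perm (Option (ZMod m)) := swap none (some 0) * swap none (some 1)

theorem gen_aux (hm : 3 ≤ m) (hodd : Odd m) :
    rot m 1 ∈ alternatingGroup (Option (ZMod m)) ∧ tri m ∈ alternatingGroup (Option (ZMod m)) ∧
    ∀ H : Subgroup (Perm (Option (ZMod m))), rot m 1 ∈ H → tri m ∈ H →
      alternatingGroup (Option (ZMod m)) ≤ H := by
  have h01 : (0 : ZMod m) ≠ 1 := by
    have : Fact (1 < m) := ⟨by omega⟩
    exact zero_ne_one
  have htri : IsThreeCycle (tri m) :=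
    isThreeCycle_swap_mul_swap_same (by simp) (by simp) (by simpa using h01)
  have htn : tri m none = some 1 := by
    unfold tri
    rw [Perm.mul_apply, swap_apply_left, swap_apply_of_ne_of_ne (by simp) (by simpa using h01.symm)]
  refine ⟨?_, ?_, ?_⟩
  · rw [mem_alternatingGroup]
    have h1 : (rot m 1) ^ m = 1 := by
      rw [rot_pow, ZMod.natCast_self]
      ext x
      cases x with
      | none => simp [rot_none]
      | some x => simp [rot_some]
    have h2 := congrArg sign h1
    rw [map_pow, map_one, Int.units_pow_eq_pow_mod_two, Nat.odd_iff.1 hodd, pow_one] at h2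
    exact h2
  · rw [mem_alternatingGroup]
    exact htri.sign
  · intro H hH1 hH2
    have key : ∀ a b : Option (ZMod m), a ≠ b → ∃ g ∈ H, g none = a ∧ g (some 0) = b := by
      intro a b hab
      have h1 : ∃ g ∈ H, g none = a := by
        cases a with
        | none => exact ⟨1, H.one_mem, rfl⟩
        | some k =>
          refine ⟨rot m (k - 1) * tri m, H.mul_mem (rot_mem m H hH1 _) hH2, ?_⟩
          rw [Perm.mul_apply, htn, rot_some, add_sub_cancel]
      obtain ⟨g, hg, hga⟩ := h1
      have h2 : g.symm b ≠ none := by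
        intro h
        apply hab
        rw [← hga, ← h, Equiv.apply_symm_apply]
      obtain ⟨j, hj⟩ := Option.ne_none_iff_exists'.1 h2
      refine ⟨g * rot m j, H.mul_mem hg (rot_mem m H hH1 _), ?_, ?_⟩
      · rw [Perm.mul_apply, rot_none, hga]
      · rw [Perm.mul_apply, rot_some, zero_add, ← hj, Equiv.apply_symm_apply]
    have h2t : MulAction.IsMultiplyPretransitive H (Option (ZMod m)) 2 := by
      rw [MulAction.is_two_pretransitive_iff]
      intro a b c d hab hcd
      obtain ⟨g, hg, hg1, hg2⟩ := key a b hab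
      obtain ⟨h, hh, hh1, hh2⟩ := key c d hcd
      refine ⟨⟨h * g⁻¹, H.mul_mem hh (H.inv_mem hg)⟩, ?_, ?_⟩
      · change h (g.symm a) = c
        rw [← hg1, Equiv.symm_apply_apply, hh1]
      · change h (g.symm b) = d
        rw [← hg2, Equiv.symm_apply_apply, hh2]
    exact alternatingGroup_le_of_isPreprimitive_of_isThreeCycle_mem
      (MulAction.isPreprimitive_of_is_two_pretransitive h2t) htri hH2

/-- `A_n` is generated by two elements if `n ≥ 4` is even. -/
theorem alt_two_gen (n : ℕ) (hn : 4 ≤ n) (he : Even n) :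
    ∃ a b : alternatingGroup (Fin n), ∀ H : Subgroup (alternatingGroup (Fin n)),
      a ∈ H → b ∈ H → H = ⊤ := by
  obtain ⟨m, rfl⟩ : ∃ m, n = m + 1 := ⟨n - 1, by omega⟩
  have hm : Odd m := by
    rcases Nat.even_or_odd m with h | h
    · exact absurd he (by simpa [Nat.even_add_one] using h)
    · exact h
  have : NeZero m := ⟨by omega⟩
  obtain ⟨h1, h2, h3⟩ := gen_aux m (by omega) hm
  have hcard : Fintype.card (Option (ZMod m)) = m + 1 := by
    rw [Fintype.card_option, ZMod.card]
  let e : Option (ZMod m) ≃ Fin (m + 1) := Fintype.equivFinOfCardEq hcard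
  have hsign : ∀ σ : Perm (Option (ZMod m)), sign (e.permCongr σ) = sign σ := fun σ =>
    sign_permCongr e σ
  have hs : ∀ σ ∈ alternatingGroup (Option (ZMod m)), e.permCongr σ ∈ alternatingGroup (Fin (m + 1)) := by
    intro σ hσ
    rw [mem_alternatingGroup] at hσ ⊢
    rw [hsign, hσ]
  refine ⟨⟨e.permCongr (rot m 1), hs _ h1⟩, ⟨e.permCongr (tri m), hs _ h2⟩, fun H ha hb => ?_⟩
  let P : Subgroup (Perm (Option (ZMod m))) :=
    (H.map (alternatingGroup (Fin (m + 1))).subtype).comap e.permCongrHom.toMonoidHom
  have hP := h3 P ⟨_, ha, rfl⟩ ⟨_, hb, rfl⟩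
  rw [eq_top_iff]
  intro x _
  have hx : e.permCongr.symm (x : Perm (Fin (m + 1))) ∈ alternatingGroup (Option (ZMod m)) := by
    rw [mem_alternatingGroup, ← hsign, Equiv.apply_symm_apply]
    exact x.2
  obtain ⟨y, hy, hy2⟩ := hP hx
  have h4 : y = x := by
    apply Subtype.ext
    refine Eq.trans hy2 ?_
    exact Equiv.apply_symm_apply _ _
  rw [← h4]
  exact hy

end Pool.Agent.H418.FA
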