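import Mathlib

/-!
Induced embedding problems: from an epimorphism onto a subgroup `Δ` of a finite group `Γ` to an
epimorphism onto `Γ`.
-/

set_option autoImplicit false

namespace Pool.Agent.H418.FA

variable {Γ B : Type} [Group Γ] [Group B] (Δ : Subgroup Γ)

/-- A system of representatives of the cosets, with `1` for the trivial coset. -/
noncomputable def rep (t : Γ ⧸ Δ) : Γ := by
  classical
  exact if t = QuotientGroup.mk 1 then 1 else t.out

theorem mk_rep (t : Γ ⧸ Δ) : (QuotientGroup.mk (rep Δ t) : Γ ⧸ Δ) = t := by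
  classical
  unfold rep
  split_ifs with h
  · exact h.symm
  · exact QuotientGroup.out_eq' t

theorem rep_one : rep Δ (QuotientGroup.mk 1 : Γ ⧸ Δ) = 1 := by
  classical
  unfold rep
  rw [if_pos rfl]

/-- The cocycle. -/
noncomputable def coc (γ : Γ) (t : Γ ⧸ Δ) : Γ := (rep Δ t)⁻¹ * γ * rep Δ (γ⁻¹ • t)

theorem coc_mem (γ : Γ) (t : Γ ⧸ Δ) : coc Δ γ t ∈ Δ := by
  have h1 : (QuotientGroup.mk (rep Δ t) : Γ ⧸ Δ) =
      QuotientGroup.mk (γ * rep Δ (γ⁻¹ • t)) := by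
    rw [mk_rep]
    change t = γ • (QuotientGroup.mk (rep Δ (γ⁻¹ • t)) : Γ ⧸ Δ)
    rw [mk_rep, smul_inv_smul]
  rw [QuotientGroup.eq] at h1
  unfold coc
  rwa [mul_assoc]

theorem coc_one (t : Γ ⧸ Δ) : coc Δ 1 t = 1 := by
  unfold coc
  rw [inv_one, one_smul, mul_one, inv_mul_cancel]

theorem coc_mul (γ γ' : Γ) (t : Γ ⧸ Δ) : coc Δ (γ * γ') t = coc Δ γ t * coc Δ γ' (γ⁻¹ • t) := by
  unfold coc
  rw [mul_inv_rev, mul_smul]
  group

/-- The induced group. -/
noncomputable def Ind (α : B →* Δ) : Subgroup (((Γ ⧸ Δ) → B) ⋊[mulAutArrow] Γ) where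
  carrier := {w | ∀ t, (α (w.left t) : Γ) = coc Δ w.right t}
  one_mem' := by
    intro t
    change (α 1 : Γ) = coc Δ 1 t
    rw [map_one, coc_one]
    rfl
  mul_mem' := by
    intro a b ha hb t
    have h1 : (a * b).left t = a.left t * b.left (a.right⁻¹ • t) := rfl
    have h2 : (a * b).right = a.right * b.right := rfl
    rw [h1, h2, map_mul, coc_mul, ← ha, ← hb]
    rfl
  inv_mem' := by
    intro a ha t
    have h1 : a⁻¹.left t = (a.left (a.right • t))⁻¹ := by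
      rw [SemidirectProduct.inv_left]
      change (a.left⁻¹) ((a.right⁻¹)⁻¹ • t) = _
      rw [inv_inv]
      rfl
    have h2 : a⁻¹.right = a.right⁻¹ := rfl
    have h3 := coc_mul Δ a.right⁻¹ a.right t
    rw [inv_mul_cancel, coc_one, inv_inv] at h3
    rw [h1, h2, map_inv]
    change ((α (a.left (a.right • t)) : Γ))⁻¹ = _
    rw [ha, inv_eq_iff_mul_eq_one]
    have h4 := coc_mul Δ a.right a.right⁻¹ (a.right • t)
    rw [mul_inv_cancel, coc_one, inv_smul_smul] at h4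
    exact h4.symm

theorem mem_Ind (α : B →* Δ) (w : ((Γ ⧸ Δ) → B) ⋊[mulAutArrow] Γ) :
    w ∈ Ind Δ α ↔ ∀ t, (α (w.left t) : Γ) = coc Δ w.right t := Iff.rfl

/-- The projection onto `Γ`. -/
noncomputable def indProj (α : B →* Δ) : Ind Δ α →* Γ :=
  SemidirectProduct.rightHom.comp (Ind Δ α).subtype

theorem indProj_apply (α : B →* Δ) (w : Ind Δ α) : indProj Δ α w = w.1.right := rfl

/-- The evaluation at the trivial coset. -/
def ev (α : B →* Δ) (w : Ind Δ α) : B := w.1.left (QuotientGroup.mk 1)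

theorem ev_mul (α : B →* Δ) (w w' : Ind Δ α) (h : indProj Δ α w ∈ Δ) :
    ev Δ α (w * w') = ev Δ α w * ev Δ α w' := by
  change (w.1 * w'.1).left (QuotientGroup.mk 1) = _
  have h1 : (w.1 * w'.1).left (QuotientGroup.mk 1) =
    w.1.left (QuotientGroup.mk 1) * w'.1.left (w.1.right⁻¹ • (QuotientGroup.mk 1)) := rfl
  have h2 : (w.1.right⁻¹ • (QuotientGroup.mk 1) : Γ ⧸ Δ) = QuotientGroup.mk 1 := by
    change (QuotientGroup.mk (w.1.right⁻¹ * 1) : Γ ⧸ Δ) = QuotientGroup.mk 1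
    rw [QuotientGroup.eq, mul_one, mul_one, inv_inv]
    exact h
  rw [h1, h2]
  rfl

theorem α_ev (α : B →* Δ) (w : Ind Δ α) (h : indProj Δ α w ∈ Δ) :
    (α (ev Δ α w) : Γ) = indProj Δ α w := by
  have h1 := (mem_Ind Δ α w.1).1 w.2 (QuotientGroup.mk 1)
  change (α (w.1.left (QuotientGroup.mk 1)) : Γ) = w.1.right
  rw [h1]
  unfold coc
  have h2 : (w.1.right⁻¹ • (QuotientGroup.mk 1) : Γ ⧸ Δ) = QuotientGroup.mk 1 := by
    change (QuotientGroup.mk (w.1.right⁻¹ * 1) : Γ ⧸ Δ) = QuotientGroup.mk 1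
    rw [QuotientGroup.eq, mul_one, mul_one, inv_inv]
    exact h
  rw [h2, rep_one, inv_one, one_mul, mul_one]

/-- Elements with given data. -/
theorem exists_ind (α : B →* Δ) (hα : Function.Surjective α) (γ : Γ) :
    ∃ w : Ind Δ α, indProj Δ α w = γ := by
  have h1 : ∀ t : Γ ⧸ Δ, ∃ b : B, α b = ⟨coc Δ γ t, coc_mem Δ γ t⟩ := fun t => hα _
  choose b hb using h1
  refine ⟨⟨⟨b, γ⟩, ?_⟩, rfl⟩
  intro t
  change (α (b t) : Γ) = coc Δ γ t
  rw [hb]

theorem exists_ind_ev (α : B →* Δ) (hα : Function.Surjective α) (b₀ : B) :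
    ∃ w : Ind Δ α, indProj Δ α w = α b₀ ∧ ev Δ α w = b₀ := by
  classical
  have h1 : ∀ t : Γ ⧸ Δ, ∃ b : B, α b = ⟨coc Δ (α b₀) t, coc_mem Δ (α b₀) t⟩ := fun t => hα _
  choose b hb using h1
  have h2 : ((α b₀ : Γ)⁻¹ • (QuotientGroup.mk 1) : Γ ⧸ Δ) = QuotientGroup.mk 1 := by
    change (QuotientGroup.mk ((α b₀ : Γ)⁻¹ * 1) : Γ ⧸ Δ) = QuotientGroup.mk 1
    rw [QuotientGroup.eq, mul_one, mul_one, inv_inv]
    exact (α b₀).2
  refine ⟨⟨⟨Function.update b (QuotientGroup.mk 1) b₀, α b₀⟩, ?_⟩, rfl, ?_⟩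
  · intro t
    change (α (Function.update b (QuotientGroup.mk 1) b₀ t) : Γ) = coc Δ (α b₀) t
    by_cases ht : t = QuotientGroup.mk 1
    · rw [ht, Function.update_self]
      unfold coc
      rw [h2, rep_one, inv_one, one_mul, mul_one]
    · rw [Function.update_of_ne ht, hb]
  · change Function.update b (QuotientGroup.mk 1) b₀ (QuotientGroup.mk 1) = b₀
    rw [Function.update_self]

instance finite_Ind [Finite Γ] [Finite B] (α : B →* Δ) : Finite (Ind Δ α) := by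
  have : Finite (((Γ ⧸ Δ) → B) ⋊[mulAutArrow] Γ) := Finite.of_equiv (((Γ ⧸ Δ) → B) × Γ)
    { toFun := fun p => ⟨p.1, p.2⟩
      invFun := fun w => (w.left, w.right)
      left_inv := fun _ => rfl
      right_inv := fun _ => rfl }
  infer_instance

end Pool.Agent.H418.FA
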