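import Mathlib
import Pool.Agent.H418.FA.NS
import Pool.Agent.H418.FA.AltE
import Pool.Agent.H418.FA.Ind

/-!
The core: embedding problems over the intersection of open normal subgroups with nonabelian simple
quotients.
-/

set_option autoImplicit false

namespace Pool.Agent.H418.FA

open Pool.Agent.H391R2 Pool.Agent.H391R2.T4 Pool.Agent.Y793

section top

variable {G : Type} [Group G] [TopologicalSpace G] [IsTopologicalGroup G] [CompactSpace G]

/-- Compactness. -/
theorem exists_finset (S : Set (Subgroup G)) (hS : ∀ N ∈ S, IsOpen (N : Set G)) (Z : Subgroup G)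
    (hZ : IsOpen (Z : Set G)) (h : sInf S ≤ Z) :
    ∃ T : Finset (Subgroup G), (T : Set (Subgroup G)) ⊆ S ∧ T.inf id ≤ Z := by
  classical
  have h1 : IsCompact ((Z : Set G)ᶜ) := hZ.isClosed_compl.isCompact
  have h2 : ((Z : Set G)ᶜ) ⊆ ⋃ N ∈ S, ((N : Set G)ᶜ) := by
    intro x hx
    by_contra hc
    apply hx
    apply h
    rw [Subgroup.mem_sInf]
    intro N hN
    by_contra h3
    apply hc
    simp only [Set.mem_iUnion]
    exact ⟨N, hN, h3⟩
  obtain ⟨b, hb, hbf, hb2⟩ := h1.elim_finite_subcover_image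
    (fun N hN => (N.isClosed_of_isOpen (hS N hN)).isOpen_compl) h2
  refine ⟨hbf.toFinset, by simpa using hb, ?_⟩
  intro x hx
  by_contra hc
  have h3 := hb2 hc
  simp only [Set.mem_iUnion] at h3
  obtain ⟨N, hN, h4⟩ := h3
  apply h4
  have h5 : hbf.toFinset.inf id ≤ N := Finset.inf_le (f := id) (hbf.mem_toFinset.2 hN)
  exact h5 hx

/-- The properness of the solutions. -/
theorem core1 (S : Set (Subgroup G)) (hS : ∀ N ∈ S, NS N ∧ IsOpen (N : Set G))
    {Γ B : Type} [Group Γ] [Group B] (α : B →* Γ) (n : ℕ) (hn : 3 ≤ n) (g : G →* AltEP α n)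
    (hg : IsOpen (g.ker : Set G)) (hgs : Function.Surjective g) (x : AltEP α n)
    (hx1 : x.1.1.right = 1) (h : G) (hh : h ∈ sInf S) (hh1 : (g h).1.1.right = 1)
    (hx2 : x.1.2 = (g h).1.2) : ∃ h' ∈ sInf S, g h' = x := by
  have hHn : (sInf S).Normal := by
    refine ⟨fun y hy z => ?_⟩
    rw [Subgroup.mem_sInf] at hy ⊢
    intro N hN
    exact (hS N hN).1.normal.conj_mem _ (hy N hN) z
  have hZo : IsOpen ((sInf S ⊔ g.ker : Subgroup G) : Set G) :=
    Subgroup.isOpen_mono le_sup_right hg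
  have hZn : (sInf S ⊔ g.ker).Normal := inferInstance
  obtain ⟨T, hT, hTZ⟩ := exists_finset S (fun N hN => (hS N hN).2) _ hZo le_sup_left
  have hWn : ((inK α n).range.comap g).Normal := (range_inK_normal α n).comap g
  have hW : (inK α n).range.comap g ≤ sInf S ⊔ g.ker := by
    refine le_of_inf hZn hWn T (fun N hN => (hS N (hT hN)).1) hTZ ?_
    intro N hN hZN
    have h1 : g.ker ≤ N := le_sup_right.trans hZN
    have h2 := inK_le_of_NS α n hn (N.map g) ((hS N (hT hN)).1.map g hgs h1)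
    have h3 := Subgroup.comap_mono (f := g) h2
    rw [Subgroup.comap_map_eq, sup_eq_left.2 h1] at h3
    exact h3
  have h4 : x * (g h)⁻¹ ∈ (inK α n).range := by
    rw [mem_range_inK]
    constructor
    · change x.1.1.right * ((g h).1.1.right)⁻¹ = 1
      rw [hx1, hh1, inv_one, mul_one]
    · change x.1.2 * ((g h).1.2)⁻¹ = 1
      rw [hx2, mul_inv_cancel]
  obtain ⟨y, hy⟩ := hgs (x * (g h)⁻¹)
  have h5 : y ∈ sInf S ⊔ g.ker := by
    apply hW
    rw [Subgroup.mem_comap, hy]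
    exact h4
  obtain ⟨h', hh', k, hk, rfl⟩ := Subgroup.mem_sup_of_normal_left.1 h5
  refine ⟨h' * h, (sInf S).mul_mem hh' hh, ?_⟩
  rw [MonoidHom.mem_ker] at hk
  rw [map_mul, hk, mul_one] at hy
  rw [map_mul, hy, inv_mul_cancel_right]

end top

/-- The homomorphism over `H`. -/
theorem core2 {G : Type} [Group G] [TopologicalSpace G] [IsTopologicalGroup G] [CompactSpace G]
    (S : Set (Subgroup G)) (hS : ∀ N ∈ S, NS N ∧ IsOpen (N : Set G))
    {Γ B : Type} [Group Γ] [Group B] (q : G →* Γ) (Δ : Subgroup Γ)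
    (hΔ : ∀ γ, γ ∈ Δ ↔ ∃ h ∈ sInf S, q h = γ) (α : B →* Δ) (hα : Function.Surjective α)
    (n : ℕ) (hn : 3 ≤ n) (g : G →* AltEP (indProj Δ α) n) (hg : IsOpen (g.ker : Set G))
    (hgs : Function.Surjective g) (hgq : ∀ x, altProj (indProj Δ α) n (g x) = q x)
    (hH : ∀ h ∈ sInf S, (g h).1.1.right = 1) :
    ∃ ψ : (sInf S : Subgroup G) →* B, IsOpen (ψ.ker : Set (sInf S : Subgroup G)) ∧
      Function.Surjective ψ ∧ ∀ x, (α (ψ x) : Γ) = q x := by
  have hq : ∀ x : G, (g x).1.2 = q x := hgq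
  let i₀ : Fin n := ⟨0, by omega⟩
  have hcond : ∀ x : G, indProj Δ α ((g x).1.1.left i₀) = q x := by
    intro x
    rw [((mem_AltEP _ n _).1 (g x).2).1 i₀, hq]
  have hmem : ∀ x : (sInf S : Subgroup G), indProj Δ α ((g x).1.1.left i₀) ∈ Δ := by
    intro x
    rw [hcond, hΔ]
    exact ⟨x, x.2, rfl⟩
  let ψ : (sInf S : Subgroup G) →* B :=
    { toFun := fun x => ev Δ α ((g x).1.1.left i₀)
      map_one' := by
        change ev Δ α ((g ((1 : (sInf S : Subgroup G)) : G)).1.1.left i₀) = 1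
        rw [Subgroup.coe_one, map_one]
        rfl
      map_mul' := by
        intro x y
        change ev Δ α ((g ((x * y : (sInf S : Subgroup G)) : G)).1.1.left i₀) = _
        rw [Subgroup.coe_mul, map_mul]
        change ev Δ α (((g x).1.1 * (g y).1.1).left i₀) = _
        rw [wr_mul_left, hH x x.2]
        change ev Δ α ((g x).1.1.left i₀ * (g y).1.1.left i₀) = _
        rw [ev_mul Δ α _ _ (hmem x)] }
  refine ⟨ψ, ?_, ?_, ?_⟩
  · refine Subgroup.isOpen_mono (H₁ := g.ker.comap (sInf S : Subgroup G).subtype) ?_ ?_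
    · intro x hx
      rw [Subgroup.mem_comap, MonoidHom.mem_ker] at hx
      rw [MonoidHom.mem_ker]
      change ev Δ α ((g ((sInf S : Subgroup G).subtype x)).1.1.left i₀) = 1
      rw [hx]
      rfl
    · exact hg.preimage continuous_subtype_val
  · intro b
    obtain ⟨w, hw1, hw2⟩ := exists_ind_ev Δ α hα b
    obtain ⟨h, hh, hh2⟩ := (hΔ (α b)).1 (α b).2
    let x : AltEP (indProj Δ α) n := ⟨(⟨fun _ => w, 1⟩, (α b : Γ)), by
      rw [mem_AltEP]
      exact ⟨fun _ => hw1, map_one _⟩⟩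
    obtain ⟨h', hh', h3⟩ := core1 S hS (indProj Δ α) n hn g hg hgs x rfl h hh (hH h hh)
      (by rw [hq, hh2])
    refine ⟨⟨h', hh'⟩, ?_⟩
    change ev Δ α ((g h').1.1.left i₀) = b
    rw [h3]
    exact hw2
  · intro x
    change (α (ev Δ α ((g x).1.1.left i₀)) : Γ) = q x
    rw [α_ev Δ α _ (hmem x), hcond]

/-- `AltSolv G D`: the embedding problems for alternating fibre powers of some degree in `D` are
properly solvable. -/
def AltSolv (G : Type) [Group G] [TopologicalSpace G] (D : Set ℕ) : Prop :=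
  ∀ (Γ B : Type) [Group Γ] [Finite Γ] [Group B] [Finite B] (q : G →* Γ),
    IsOpen (q.ker : Set G) → Function.Surjective q → ∀ α : B →* Γ, Function.Surjective α →
    ∃ n, 5 ≤ n ∧ n ∈ D ∧ ∃ g : G →* AltEP α n, IsOpen (g.ker : Set G) ∧ Function.Surjective g ∧
      ∀ x, altProj α n (g x) = q x

/-- Every finite embedding problem for `G` is properly solvable. -/
def SolvesAll (G : Type) [Group G] [TopologicalSpace G] : Prop :=
  ∀ (Γ B : Type) [Group Γ] [Finite Γ] [Group B] [Finite B] (q : G →* Γ),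
    IsOpen (q.ker : Set G) → Function.Surjective q → ∀ α : B →* Γ, Function.Surjective α →
    ∃ ψ : G →* B, IsOpen (ψ.ker : Set G) ∧ Function.Surjective ψ ∧ ∀ x, α (ψ x) = q x

/-- The set of open normal subgroups `S` has enough members: for every embedding problem for `G`
there is an alternating fibre power which has a proper solution such that the homomorphism to the
alternating group is trivial on `⋂ S`. -/
def Enough {G : Type} [Group G] [TopologicalSpace G] (S : Set (Subgroup G)) : Prop :=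
  ∀ (Γ B : Type) [Group Γ] [Finite Γ] [Group B] [Finite B] (q : G →* Γ),
    IsOpen (q.ker : Set G) → Function.Surjective q → ∀ α : B →* Γ, Function.Surjective α →
    ∃ n, 3 ≤ n ∧ ∃ g : G →* AltEP α n, IsOpen (g.ker : Set G) ∧ Function.Surjective g ∧
      (∀ x, altProj α n (g x) = q x) ∧ ∀ h ∈ sInf S, (g h).1.1.right = 1

theorem core3 {G : Type} [Group G] [TopologicalSpace G] [IsTopologicalGroup G] [CompactSpace G]
    [TotallyDisconnectedSpace G]
    (S : Set (Subgroup G)) (hS : ∀ N ∈ S, NS N ∧ IsOpen (N : Set G)) (hE : Enough S) :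
    SolvesAll (sInf S : Subgroup G) := by
  classical
  intro Γ₁ B₁ _ _ _ _ f hf hfs α₁ hα₁
  -- the open normal subgroup `U`
  obtain ⟨V, hV, hVf⟩ := isOpen_induced_iff.1 hf
  have h1V : (1 : G) ∈ V := by
    have h1 : (1 : (sInf S : Subgroup G)) ∈ (Subtype.val ⁻¹' V : Set (sInf S : Subgroup G)) := by
      rw [hVf]
      exact f.ker.one_mem
    exact h1
  obtain ⟨U, hU⟩ := ProfiniteGrp.exist_openNormalSubgroup_sub_open_nhds_of_one hV h1V
  have hUn : (U : Subgroup G).Normal := U.isNormal'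
  have hUo : IsOpen ((U : Subgroup G) : Set G) := U.isOpen'
  have hUf : ∀ h : (sInf S : Subgroup G), (h : G) ∈ (U : Subgroup G) → f h = 1 := by
    intro h hh
    have h1 : h ∈ (Subtype.val ⁻¹' V : Set (sInf S : Subgroup G)) := hU hh
    rw [hVf] at h1
    exact h1
  let q : G →* G ⧸ (U : Subgroup G) := QuotientGroup.mk' (U : Subgroup G)
  have hqk : q.ker = (U : Subgroup G) := QuotientGroup.ker_mk' _
  have hqs : Function.Surjective q := QuotientGroup.mk'_surjective _
  have hfin : Finite (G ⧸ (U : Subgroup G)) := Subgroup.quotient_finite_of_isOpen _ hUo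
  let Δ : Subgroup (G ⧸ (U : Subgroup G)) := (sInf S : Subgroup G).map q
  let qH : (sInf S : Subgroup G) →* Δ := q.subgroupMap (sInf S)
  have hqHs : Function.Surjective qH := q.subgroupMap_surjective (sInf S)
  have hqHv : ∀ x : (sInf S : Subgroup G), (qH x : G ⧸ (U : Subgroup G)) = q x := fun x => rfl
  have hker : qH.ker ≤ f.ker := by
    intro x hx
    rw [MonoidHom.mem_ker] at hx ⊢
    apply hUf
    rw [← hqk, MonoidHom.mem_ker, ← hqHv, hx]
    rfl
  let φ : Δ →* Γ₁ := qH.liftOfSurjective hqHs ⟨f, hker⟩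
  have hφ : ∀ x, φ (qH x) = f x := fun x =>
    MonoidHom.liftOfRightInverse_comp_apply qH _ (Function.rightInverse_surjInv hqHs) ⟨f, hker⟩ x
  -- the pullback
  let P : Subgroup (B₁ × Δ) := (α₁.comp (MonoidHom.fst B₁ Δ)).eqLocus (φ.comp (MonoidHom.snd B₁ Δ))
  have hP : ∀ p : B₁ × Δ, p ∈ P ↔ α₁ p.1 = φ p.2 := fun p => Iff.rfl
  let α : P →* Δ := (MonoidHom.snd B₁ Δ).comp P.subtype
  have hα : Function.Surjective α := by
    intro δ
    obtain ⟨b, hb⟩ := hα₁ (φ δ)
    exact ⟨⟨(b, δ), hb⟩, rfl⟩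
  have hΔ : ∀ γ, γ ∈ Δ ↔ ∃ h ∈ sInf S, q h = γ := fun γ => Subgroup.mem_map
  obtain ⟨n, hn, g, hgo, hgs, hgq, hgH⟩ := hE (G ⧸ (U : Subgroup G)) (Ind Δ α) q
    (by rw [hqk]; exact hUo) hqs (indProj Δ α) (fun γ => exists_ind Δ α hα γ)
  obtain ⟨ψ, h1, h2, h3⟩ := core2 S hS q Δ hΔ α hα n hn g hgo hgs hgq hgH
  refine ⟨(MonoidHom.fst B₁ Δ).comp (P.subtype.comp ψ), ?_, ?_, ?_⟩
  · refine Subgroup.isOpen_mono (H₁ := ψ.ker) ?_ h1
    intro x hx
    rw [MonoidHom.mem_ker] at hx ⊢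
    rw [MonoidHom.comp_apply, MonoidHom.comp_apply, hx, map_one, map_one]
  · intro b
    obtain ⟨x, hx⟩ := hfs (α₁ b)
    have h4 : α₁ b = φ (qH x) := by rw [hφ, hx]
    obtain ⟨y, hy⟩ := h2 ⟨(b, qH x), h4⟩
    refine ⟨y, ?_⟩
    rw [MonoidHom.comp_apply, MonoidHom.comp_apply, hy]
    rfl
  · intro x
    have h4 : α₁ (ψ x).1.1 = φ (ψ x).1.2 := (ψ x).2
    change α₁ (ψ x).1.1 = f x
    rw [h4]
    have h5 : (ψ x).1.2 = qH x := by
      apply Subtype.ext
      rw [hqHv]
      exact h3 x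
    rw [h5, hφ]

end Pool.Agent.H418.FA
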