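import Mathlib
import Pool.Agent.H418.FA.Core

/-!
The absolute Galois group of a Hilbertian field has proper solutions for alternating fibre powers.
-/

set_option autoImplicit false

namespace Pool.Agent.H418.FA

open Pool.Agent.H391R2 Pool.Agent.H391R2.T4 Pool.Agent.Y793

/-- The set `D` is rich: every `m > 0` has a multiple `a > 0` such that infinitely many odd
multiples of `a` are in `D`. -/
def Rich (D : Set ℕ) : Prop :=
  ∀ m : ℕ, 0 < m → ∃ a : ℕ, 0 < a ∧ m ∣ a ∧ {k : ℕ | a * (2 * k + 1) ∈ D}.Infinite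

theorem Rich.exists {D : Set ℕ} (hD : Rich D) (u : ℕ) (hu : 0 < u) (r₀ : ℕ) (k₀ : ℕ → ℕ) :
    ∃ r ≥ r₀, ∃ k ≥ k₀ r, 4 * u * r * (2 * k + 1) ∈ D ∧ 5 ≤ 4 * u * r * (2 * k + 1) := by
  obtain ⟨a, ha, ⟨c, rfl⟩, h⟩ := hD (4 * u * (r₀ + 2)) (by positivity)
  have hc : 0 < c := by
    rcases Nat.eq_zero_or_pos c with h0 | h0
    · simp [h0] at ha
    · exact h0
  obtain ⟨k, hk, hk2⟩ := h.exists_gt (k₀ ((r₀ + 2) * c))
  have h1 : r₀ + 2 ≤ (r₀ + 2) * c := Nat.le_mul_of_pos_right _ hc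
  have h2 : 4 * u * (r₀ + 2) * c * (2 * k + 1) = 4 * u * ((r₀ + 2) * c) * (2 * k + 1) := by ring
  refine ⟨(r₀ + 2) * c, by omega, k, hk2.le, ?_, ?_⟩
  · rw [← h2]
    exact hk
  · have h3 : 4 * 1 * 2 * 1 ≤ 4 * u * ((r₀ + 2) * c) * (2 * k + 1) := by
      refine Nat.mul_le_mul (Nat.mul_le_mul (Nat.mul_le_mul_left 4 hu) (by omega)) (by omega)
    omega

variable {Γ Γ' B : Type} [Group Γ] [Group Γ'] [Group B]

/-- Change of the base group by an isomorphism. -/
def altTrans (α : B →* Γ) (e : Γ ≃* Γ') (n : ℕ) :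
    AltEP α n →* AltEP ((e : Γ →* Γ').comp α) n where
  toFun x := ⟨(x.1.1, e x.1.2), by
    rw [mem_AltEP]
    refine ⟨fun i => ?_, ((mem_AltEP α n _).1 x.2).2⟩
    change e (α (x.1.1.left i)) = e x.1.2
    rw [((mem_AltEP α n _).1 x.2).1 i]⟩
  map_one' := by
    apply Subtype.ext
    apply Prod.ext
    · rfl
    · exact map_one e
  map_mul' x y := by
    apply Subtype.ext
    apply Prod.ext
    · rfl
    · exact map_mul e _ _

theorem altTrans_surjective (α : B →* Γ) (e : Γ ≃* Γ') (n : ℕ) :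
    Function.Surjective (altTrans α e n) := by
  intro y
  have hy := (mem_AltEP _ n _).1 y.2
  refine ⟨⟨(y.1.1, e.symm y.1.2), ?_⟩, ?_⟩
  · rw [mem_AltEP]
    refine ⟨fun i => ?_, hy.2⟩
    change α (y.1.1.left i) = e.symm y.1.2
    rw [← hy.1 i]
    exact (e.symm_apply_apply _).symm
  · apply Subtype.ext
    apply Prod.ext
    · rfl
    · exact e.apply_symm_apply _

theorem altTrans_proj (α : B →* Γ) (e : Γ ≃* Γ') (n : ℕ) (x : AltEP α n) :
    altProj ((e : Γ →* Γ').comp α) n (altTrans α e n x) = e (altProj α n x) := rfl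

variable (K Ω : Type) [Field K] [Field Ω] [Algebra K Ω] [IsAlgClosed Ω] [IsGalois K Ω]

/-- From a solution field to a homomorphism of the absolute Galois group. -/
theorem hom_of_solOver (L : IntermediateField K Ω) [FiniteDimensional K L] [IsGalois K L]
    {E : Type} [Group E] (α : E →* (L ≃ₐ[K] L)) (h : SolOver K L E α K False) :
    ∃ g : (Ω ≃ₐ[K] Ω) →* E, IsOpen (g.ker : Set (Ω ≃ₐ[K] Ω)) ∧ Function.Surjective g ∧
      ∀ x, α (g x) = AlgEquiv.restrictNormalHom L x := by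
  obtain ⟨M, j1, j2, j3, j4, j5, j6, j7, j8, γ, hγ, -⟩ := h
  have h3 : j4 = j2 := Algebra.algebra_ext j4 j2 (fun x => by
    have h4 := @IsScalarTower.algebraMap_apply K K M _ _ _ _ j2 j4 j5 x
    exact h4)
  subst h3
  have hfdL : FiniteDimensional L M := FiniteDimensional.right K L M
  have halg : Algebra.IsAlgebraic L M := Algebra.IsAlgebraic.of_finite L M
  let j : M →ₐ[L] Ω := IsAlgClosed.lift
  let _ : Algebra M Ω := j.toRingHom.toAlgebra
  have hjv : ∀ x : M, algebraMap M Ω x = j x := fun x => rfl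
  have hT : IsScalarTower L M Ω := IsScalarTower.of_algebraMap_eq fun x => (j.commutes x).symm
  have hT2 : IsScalarTower K M Ω := by
    refine IsScalarTower.of_algebraMap_eq fun x => ?_
    rw [IsScalarTower.algebraMap_apply K L M, ← IsScalarTower.algebraMap_apply L M Ω,
      ← IsScalarTower.algebraMap_apply K L Ω]
  let g : (Ω ≃ₐ[K] Ω) →* E := (γ : (M ≃ₐ[K] M) →* E).comp (AlgEquiv.restrictNormalHom M)
  have hg : ∀ x, g x = γ (AlgEquiv.restrictNormalHom M x) := fun x => rfl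
  refine ⟨g, ?_, ?_, ?_⟩
  · let R : IntermediateField K Ω := (IsScalarTower.toAlgHom K M Ω).fieldRange
    have hR : FiniteDimensional K R := by
      exact LinearMap.finiteDimensional_range (IsScalarTower.toAlgHom K M Ω).toLinearMap
    refine Subgroup.isOpen_mono (H₁ := R.fixingSubgroup) ?_ (IntermediateField.fixingSubgroup_isOpen R)
    intro x hx
    rw [MonoidHom.mem_ker, hg, EmbeddingLike.map_eq_one_iff]
    apply AlgEquiv.ext
    intro y
    apply (algebraMap M Ω).injective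
    rw [IntermediateField.mem_fixingSubgroup_iff] at hx
    have h1 := AlgEquiv.restrictNormal_commutes x M y
    rw [AlgEquiv.one_apply]
    refine h1.trans ?_
    exact hx _ ⟨y, rfl⟩
  · intro e
    obtain ⟨x, hx⟩ := AlgEquiv.restrictNormalHom_surjective (F := K) (K₁ := M) Ω (γ.symm e)
    refine ⟨x, ?_⟩
    rw [hg, hx, MulEquiv.apply_symm_apply]
  · intro x
    apply AlgEquiv.ext
    intro y
    apply (algebraMap L Ω).injective
    have h1 := AlgEquiv.restrictNormal_commutes x L y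
    have h2 := AlgEquiv.restrictNormal_commutes x M (algebraMap L M y)
    have h3 := hγ (AlgEquiv.restrictNormalHom M x) y
    have h4 : algebraMap L Ω ((α (g x)) y) = algebraMap M Ω (algebraMap L M ((α (g x)) y)) :=
      IsScalarTower.algebraMap_apply L M Ω _
    rw [h4, hg, ← h3]
    refine h2.trans ?_
    rw [← IsScalarTower.algebraMap_apply L M Ω]
    exact h1.symm

theorem altSolv [CharZero K] (hK : HilbField K) (D : Set ℕ) (hD : Rich D) :
    AltSolv (Ω ≃ₐ[K] Ω) D := by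
  intro Γ B _ _ _ _ q hq hqs α hα
  let Uc : ClosedSubgroup (Ω ≃ₐ[K] Ω) := ⟨q.ker, Subgroup.isClosed_of_isOpen _ hq⟩
  let L : IntermediateField K Ω := IntermediateField.fixedField q.ker
  have hL : L.fixingSubgroup = q.ker := InfiniteGalois.fixingSubgroup_fixedField Uc
  have hLfd : FiniteDimensional K L := by
    rw [← InfiniteGalois.isOpen_iff_finite]
    change IsOpen (L.fixingSubgroup : Set (Ω ≃ₐ[K] Ω))
    rw [hL]
    exact hq
  have hLg : IsGalois K L := by
    rw [← InfiniteGalois.normal_iff_isGalois, hL]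
    infer_instance
  have hrs : Function.Surjective (AlgEquiv.restrictNormalHom L : (Ω ≃ₐ[K] Ω) →* _) :=
    AlgEquiv.restrictNormalHom_surjective (F := K) (K₁ := L) Ω
  have hrk : (AlgEquiv.restrictNormalHom L : (Ω ≃ₐ[K] Ω) →* (L ≃ₐ[K] L)).ker = q.ker := by
    rw [IntermediateField.restrictNormalHom_ker, hL]
  let e₁ := QuotientGroup.quotientKerEquivOfSurjective
    (AlgEquiv.restrictNormalHom L : (Ω ≃ₐ[K] Ω) →* (L ≃ₐ[K] L)) hrs
  let e₂ := QuotientGroup.quotientKerEquivOfSurjective q hqs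
  let e : (L ≃ₐ[K] L) ≃* Γ :=
    (e₁.symm.trans (QuotientGroup.quotientMulEquivOfEq hrk)).trans e₂
  have he : ∀ x, e (AlgEquiv.restrictNormalHom L x) = q x := by
    intro x
    have h1 : e₁.symm (AlgEquiv.restrictNormalHom L x) = QuotientGroup.mk x := by
      rw [MulEquiv.symm_apply_eq]
      rfl
    change e₂ (QuotientGroup.quotientMulEquivOfEq hrk (e₁.symm (AlgEquiv.restrictNormalHom L x))) = _
    rw [h1]
    rfl
  obtain ⟨r₀, h⟩ := K3h17.hil_alt K L hK B ((e.symm : Γ →* (L ≃ₐ[K] L)).comp α)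
    (e.symm.surjective.comp hα) (Nat.card (L ≃ₐ[K] L)) (Or.inl rfl)
  have h' : ∀ r, ∃ k₀ : ℕ, r₀ ≤ r → ∀ k ≥ k₀,
      SolOver K L (AltEP ((e.symm : Γ →* (L ≃ₐ[K] L)).comp α)
        (4 * Nat.card (L ≃ₐ[K] L) * r * (2 * k + 1)))
        (altProj ((e.symm : Γ →* (L ≃ₐ[K] L)).comp α)
          (4 * Nat.card (L ≃ₐ[K] L) * r * (2 * k + 1))) K False := by
    intro r
    by_cases hr : r₀ ≤ r
    · obtain ⟨k₀, hk₀⟩ := h r hr
      exact ⟨k₀, fun _ => hk₀⟩
    · exact ⟨0, fun h2 => absurd h2 hr⟩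
  choose k₀ hk₀ using h'
  obtain ⟨r, hr, k, hk, hn, hn5⟩ := hD.exists (Nat.card (L ≃ₐ[K] L)) Nat.card_pos r₀ k₀
  obtain ⟨g, hg1, hg2, hg3⟩ := hom_of_solOver K Ω L _ (hk₀ r hr k hk)
  have hα2 : (e : (L ≃ₐ[K] L) →* Γ).comp ((e.symm : Γ →* (L ≃ₐ[K] L)).comp α) = α := by
    ext b
    exact e.apply_symm_apply _
  have key : ∃ g : (Ω ≃ₐ[K] Ω) →* AltEP ((e : (L ≃ₐ[K] L) →* Γ).comp
      ((e.symm : Γ →* (L ≃ₐ[K] L)).comp α)) (4 * Nat.card (L ≃ₐ[K] L) * r * (2 * k + 1)),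
      IsOpen (g.ker : Set (Ω ≃ₐ[K] Ω)) ∧ Function.Surjective g ∧
      ∀ x, altProj ((e : (L ≃ₐ[K] L) →* Γ).comp ((e.symm : Γ →* (L ≃ₐ[K] L)).comp α)) _ (g x)
        = q x := by
    refine ⟨(altTrans _ e _).comp g, ?_, (altTrans_surjective _ e _).comp hg2, ?_⟩
    · refine Subgroup.isOpen_mono (H₁ := g.ker) ?_ hg1
      intro x hx
      rw [MonoidHom.mem_ker] at hx ⊢
      rw [MonoidHom.comp_apply, hx, map_one]
    · intro x
      rw [MonoidHom.comp_apply, altTrans_proj, hg3, he]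
  rw [hα2] at key
  exact ⟨_, hn5, hn, key⟩

end Pool.Agent.H418.FA
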