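import Mathlib
import Pool.Agent.H418.FA.Core

/-!
Iwasawa's theorem: a profinite group with a countable basis of open subgroups for which all finite
embedding problems have proper solutions is a free profinite group of countable rank.
-/

set_option autoImplicit false

namespace Pool.Agent.H418.FA

open Topology Filter

/-- `x` is a basis of the free profinite group `G` which converges to `1`. -/
def IsFreeBasis {G : Type} [Group G] [TopologicalSpace G] (x : ℕ → G) : Prop :=
  Tendsto x cofinite (𝓝 1) ∧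
    ∀ (A : Type) [Group A] [TopologicalSpace A] [IsTopologicalGroup A] [CompactSpace A]
      [T2Space A] [TotallyDisconnectedSpace A] (a : ℕ → A), Tendsto a cofinite (𝓝 1) →
      ∃! φ : G →ₜ* A, ∀ i, φ (x i) = a i

section

variable {G : Type} [Group G] [TopologicalSpace G] [IsTopologicalGroup G]

/-- The states of the construction. -/
structure St (G : Type) [Group G] [TopologicalSpace G] where
  V : Subgroup G
  normal : V.Normal
  isOpen : IsOpen (V : Set G)
  a : ℕ → G
  fin : {i | a i ∉ V}.Finite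
  gen : Subgroup.closure (Set.range a) ⊔ V = ⊤

/-- Refinement of states. -/
def St.Le (s t : St G) : Prop := t.V ≤ s.V ∧ ∀ i, (s.a i)⁻¹ * t.a i ∈ s.V

theorem forth [CompactSpace G] (s : St G) (U : Subgroup G) (hU : U.Normal)
    (hUo : IsOpen (U : Set G)) : ∃ t : St G, s.Le t ∧ t.V ≤ U := by
  classical
  have hVn := s.normal
  let V' : Subgroup G := s.V ⊓ U
  have hV'o : IsOpen (V' : Set G) := s.isOpen.inter hUo
  have hV'f : Finite (G ⧸ V') := Subgroup.quotient_finite_of_isOpen _ hV'o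
  -- representatives of `V / V'`
  have h1 : Finite {z : G ⧸ V' // ∃ v ∈ s.V, (QuotientGroup.mk v : G ⧸ V') = z} := inferInstance
  obtain ⟨m, ⟨e⟩⟩ := Finite.exists_equiv_fin {z : G ⧸ V' // ∃ v ∈ s.V, (QuotientGroup.mk v : G ⧸ V') = z}
  have h2 : ∀ j : Fin m, ∃ v ∈ s.V, (QuotientGroup.mk v : G ⧸ V') = (e.symm j).1 :=
    fun j => (e.symm j).2
  choose c hc hc2 using h2
  have hcov : ∀ v ∈ s.V, ∃ j : Fin m, (c j)⁻¹ * v ∈ V' := by
    intro v hv
    refine ⟨e ⟨QuotientGroup.mk v, v, hv, rfl⟩, ?_⟩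
    rw [← QuotientGroup.eq, hc2, Equiv.symm_apply_apply]
  -- the indices
  have hinf : {i | s.a i ∈ s.V}.Infinite := by
    have h3 : {i | s.a i ∈ s.V} = {i | s.a i ∉ s.V}ᶜ := by
      ext i
      simp
    rw [h3]
    exact s.fin.infinite_compl
  let idx : ℕ ↪ {i | s.a i ∈ s.V} := hinf.natEmbedding _
  have hidx : ∀ j, s.a (idx j) ∈ s.V := fun j => (idx j).2
  let a' : ℕ → G := fun i =>
    if s.a i ∉ s.V then s.a i else if h : ∃ j : Fin m, (idx j : ℕ) = i then c h.choose else 1
  have ha1 : ∀ i, s.a i ∉ s.V → a' i = s.a i := fun i hi => if_pos hi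
  have ha2 : ∀ j : Fin m, a' (idx j) = c j := by
    intro j
    have h3 : ∃ j' : Fin m, (idx j' : ℕ) = idx j := ⟨j, rfl⟩
    have h4 : h3.choose = j := by
      have h5 := h3.choose_spec
      have h6 : idx (h3.choose : ℕ) = idx (j : ℕ) := Subtype.ext h5
      exact Fin.ext (idx.injective h6)
    change (if s.a (idx j) ∉ s.V then s.a (idx j) else if h : ∃ j' : Fin m, (idx j' : ℕ) = idx j
      then c h.choose else 1) = c j
    rw [if_neg (not_not.2 (hidx j)), dif_pos h3, h4]
  have ha3 : ∀ i, s.a i ∈ s.V → a' i ∈ s.V := by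
    intro i hi
    change (if s.a i ∉ s.V then s.a i else if h : ∃ j : Fin m, (idx j : ℕ) = i
      then c h.choose else 1) ∈ s.V
    rw [if_neg (not_not.2 hi)]
    split_ifs with h
    · exact hc _
    · exact s.V.one_mem
  have ha4 : ∀ i, (s.a i)⁻¹ * a' i ∈ s.V := by
    intro i
    by_cases hi : s.a i ∈ s.V
    · exact s.V.mul_mem (s.V.inv_mem hi) (ha3 i hi)
    · rw [ha1 i hi, inv_mul_cancel]
      exact s.V.one_mem
  have hgenV : s.V ≤ Subgroup.closure (Set.range a') ⊔ V' := by
    intro v hv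
    obtain ⟨j, hj⟩ := hcov v hv
    have h3 : c j * ((c j)⁻¹ * v) = v := by group
    rw [← h3]
    refine Subgroup.mul_mem_sup ?_ hj
    rw [← ha2 j]
    exact Subgroup.subset_closure ⟨_, rfl⟩
  refine ⟨⟨V', inferInstance, hV'o, a', ?_, ?_⟩, ⟨inf_le_left, ha4⟩, inf_le_right⟩
  · refine (s.fin.union (Set.finite_range fun j : Fin m => (idx j : ℕ))).subset ?_
    intro i hi
    by_cases h3 : s.a i ∈ s.V
    · right
      by_contra h4
      apply hi
      have h5 : ¬ ∃ j : Fin m, (idx j : ℕ) = i := fun ⟨j, hj⟩ => h4 ⟨j, hj⟩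
      change (if s.a i ∉ s.V then s.a i else if h : ∃ j : Fin m, (idx j : ℕ) = i
        then c h.choose else 1) ∈ V'
      rw [if_neg (not_not.2 h3), dif_neg h5]
      exact V'.one_mem
    · left
      exact h3
  · rw [eq_top_iff, ← s.gen, sup_le_iff]
    refine ⟨?_, hgenV⟩
    rw [Subgroup.closure_le]
    rintro _ ⟨i, rfl⟩
    have h3 : s.a i = a' i * ((s.a i)⁻¹ * a' i)⁻¹ := by group
    rw [h3]
    refine Subgroup.mul_mem _ ?_ (Subgroup.inv_mem _ (hgenV (ha4 i)))
    exact le_sup_left (a := Subgroup.closure (Set.range a')) (Subgroup.subset_closure ⟨i, rfl⟩)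

theorem back [CompactSpace G] (hG : SolvesAll G) (s : St G) (A : Type) [Group A] [Finite A]
    (b : ℕ → A) (hb : {i | b i ≠ 1}.Finite) :
    ∃ t : St G, s.Le t ∧ ∃ φ : G →* A, t.V ≤ φ.ker ∧ ∀ i, φ (t.a i) = b i := by
  classical
  have hVn := s.normal
  have hQ : Finite (G ⧸ s.V) := Subgroup.quotient_finite_of_isOpen _ s.isOpen
  let c : ℕ → (G ⧸ s.V) × A := fun i => (QuotientGroup.mk (s.a i), b i)
  let P : Subgroup ((G ⧸ s.V) × A) := Subgroup.closure (Set.range c)
  have hcP : ∀ i, c i ∈ P := fun i => Subgroup.subset_closure ⟨i, rfl⟩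
  let π : P →* (G ⧸ s.V) := (MonoidHom.fst _ _).comp P.subtype
  have hπ : Function.Surjective π := by
    intro y
    obtain ⟨x, rfl⟩ := QuotientGroup.mk_surjective y
    have hx : x ∈ Subgroup.closure (Set.range s.a) ⊔ s.V := by
      rw [s.gen]
      trivial
    obtain ⟨z, hz, v, hv, rfl⟩ := Subgroup.mem_sup_of_normal_right.1 hx
    have h1 : (QuotientGroup.mk (z * v) : G ⧸ s.V) = QuotientGroup.mk z := by
      rw [QuotientGroup.mk_mul, (QuotientGroup.eq_one_iff v).2 hv, mul_one]
    rw [h1]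
    have h2 : Subgroup.closure (Set.range s.a) ≤ (π.range).comap (QuotientGroup.mk' s.V) := by
      rw [Subgroup.closure_le]
      rintro _ ⟨i, rfl⟩
      exact ⟨⟨c i, hcP i⟩, rfl⟩
    exact h2 hz
  obtain ⟨ψ, h1, h2, h3⟩ := hG (G ⧸ s.V) P (QuotientGroup.mk' s.V)
    (by rw [QuotientGroup.ker_mk']; exact s.isOpen) (QuotientGroup.mk'_surjective _) π hπ
  have h4 : ∀ i, ∃ x, ψ x = ⟨c i, hcP i⟩ := fun i => h2 _
  choose a' ha' using h4
  have hle : ψ.ker ≤ s.V := by
    intro x hx
    rw [MonoidHom.mem_ker] at hx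
    have h5 := h3 x
    rw [hx, map_one] at h5
    rw [← QuotientGroup.eq_one_iff]
    exact h5.symm
  refine ⟨⟨ψ.ker, inferInstance, h1, a', ?_, ?_⟩, ⟨hle, fun i => ?_⟩,
    (MonoidHom.snd _ _).comp (P.subtype.comp ψ), fun x hx => ?_, fun i => ?_⟩
  · refine (s.fin.union hb).subset ?_
    intro i hi
    by_contra hc
    apply hi
    rw [Set.mem_union, not_or] at hc
    have h5 : s.a i ∈ s.V := not_not.1 hc.1
    have h6 : b i = 1 := not_not.1 hc.2
    rw [MonoidHom.mem_ker, ha']
    apply Subtype.ext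
    exact Prod.ext ((QuotientGroup.eq_one_iff _).2 h5) h6
  · rw [eq_top_iff]
    intro x _
    have h5 : Subgroup.map P.subtype ((Subgroup.closure (Set.range a')).map ψ) = P := by
      rw [Subgroup.map_map, MonoidHom.map_closure]
      congr 1
      ext y
      constructor
      · rintro ⟨_, ⟨i, rfl⟩, rfl⟩
        refine ⟨i, ?_⟩
        change c i = (ψ (a' i) : (G ⧸ s.V) × A)
        rw [ha']
      · rintro ⟨i, rfl⟩
        refine ⟨a' i, ⟨i, rfl⟩, ?_⟩
        change (ψ (a' i) : (G ⧸ s.V) × A) = c i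
        rw [ha']
    have h6 : (ψ x : (G ⧸ s.V) × A) ∈ Subgroup.map P.subtype ((Subgroup.closure (Set.range a')).map ψ) := by
      rw [h5]
      exact (ψ x).2
    obtain ⟨_, ⟨z, hz, rfl⟩, h7⟩ := h6
    have h8 : ψ z = ψ x := Subtype.ext h7
    have h9 : z * (z⁻¹ * x) = x := by group
    rw [← h9]
    refine Subgroup.mul_mem_sup hz ?_
    rw [MonoidHom.mem_ker, map_mul, map_inv, h8, inv_mul_cancel]
  · have h5 := h3 (a' i)
    rw [ha'] at h5
    have h6 : (QuotientGroup.mk (s.a i) : G ⧸ s.V) = QuotientGroup.mk (a' i) := h5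
    exact QuotientGroup.eq.1 h6
  · rw [MonoidHom.mem_ker] at hx ⊢
    rw [MonoidHom.comp_apply, MonoidHom.comp_apply, hx, map_one, map_one]
  · rw [MonoidHom.comp_apply, MonoidHom.comp_apply, ha']
    rfl

/-- The tasks. -/
theorem exists_tasks : ∃ T : ℕ → (m : ℕ) × List (Equiv.Perm (Fin m)), Function.Surjective T := by
  have : Nonempty ((m : ℕ) × List (Equiv.Perm (Fin m))) := ⟨⟨0, []⟩⟩
  exact exists_surjective_nat _

/-- The basis for finite groups. -/
theorem exists_basis [CompactSpace G] (hG : SolvesAll G) (U : ℕ → Subgroup G)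
    (hU : ∀ k, (U k).Normal ∧ IsOpen (U k : Set G))
    (hU2 : ∀ V : Subgroup G, IsOpen (V : Set G) → ∃ k, U k ≤ V) :
    ∃ x : ℕ → G, (∀ V : Subgroup G, IsOpen (V : Set G) → {i | x i ∉ V}.Finite) ∧
      (∀ V : Subgroup G, V.Normal → IsOpen (V : Set G) →
        Subgroup.closure (Set.range x) ⊔ V = ⊤) ∧
      ∀ (A : Type) [Group A] [Finite A] (b : ℕ → A), {i | b i ≠ 1}.Finite →
        ∃ φ : G →* A, IsOpen (φ.ker : Set G) ∧ ∀ i, φ (x i) = b i := by
  classical
  obtain ⟨T, hT⟩ := exists_tasks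
  have step : ∀ (k : ℕ) (s : St G), ∃ t : St G, s.Le t ∧ t.V ≤ U k ∧
      ∃ φ : G →* Equiv.Perm (Fin (T k).1), t.V ≤ φ.ker ∧ ∀ i, φ (t.a i) = (T k).2.getD i 1 := by
    intro k s
    obtain ⟨t₁, h1, h2⟩ := forth s (U k) (hU k).1 (hU k).2
    obtain ⟨t₂, h3, φ, h4, h5⟩ := back hG t₁ (Equiv.Perm (Fin (T k).1))
      (fun i => (T k).2.getD i 1) (by
        refine (Set.finite_lt_nat (T k).2.length).subset fun i hi => ?_
        by_contra hc
        apply hi
        exact List.getD_eq_default _ _ (not_lt.1 hc))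
    refine ⟨t₂, ⟨h3.1.trans h1.1, fun i => ?_⟩, h3.1.trans h2, φ, h4, h5⟩
    have h6 : (s.a i)⁻¹ * t₂.a i = ((s.a i)⁻¹ * t₁.a i) * ((t₁.a i)⁻¹ * t₂.a i) := by group
    rw [h6]
    exact s.V.mul_mem (h1.2 i) (h1.1 (h3.2 i))
  choose nxt hn1 hn2 hn3 using step
  let s₀ : St G := ⟨⊤, inferInstance, isOpen_univ, fun _ => 1, by simp, by simp⟩
  let σ : ℕ → St G := fun k => Nat.rec s₀ (fun k s => nxt k s) k
  have hσ : ∀ k, σ (k + 1) = nxt k (σ k) := fun k => rfl
  have hle : ∀ k, (σ k).Le (σ (k + 1)) := fun k => hn1 k _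
  have hmono : ∀ i k, {x : G | ((σ (k + 1)).a i)⁻¹ * x ∈ (σ (k + 1)).V} ⊆
      {x : G | ((σ k).a i)⁻¹ * x ∈ (σ k).V} := by
    intro i k x hx
    have h1 : ((σ k).a i)⁻¹ * x = (((σ k).a i)⁻¹ * (σ (k + 1)).a i) *
        (((σ (k + 1)).a i)⁻¹ * x) := by group
    change ((σ k).a i)⁻¹ * x ∈ (σ k).V
    rw [h1]
    exact (σ k).V.mul_mem ((hle k).2 i) ((hle k).1 hx)
  have hlim : ∀ i, ∃ x : G, ∀ k, ((σ k).a i)⁻¹ * x ∈ (σ k).V := by
    intro i
    have h1 : (⋂ k, {x : G | ((σ k).a i)⁻¹ * x ∈ (σ k).V}).Nonempty := by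
      have hcl : ∀ k, IsClosed {x : G | ((σ k).a i)⁻¹ * x ∈ (σ k).V} := by
        intro k
        exact (Subgroup.isClosed_of_isOpen _ (σ k).isOpen).preimage (continuous_const.mul continuous_id)
      refine IsCompact.nonempty_iInter_of_sequence_nonempty_isCompact_isClosed _ (hmono i)
        (fun k => ⟨(σ k).a i, ?_⟩) (hcl 0).isCompact hcl
      change ((σ k).a i)⁻¹ * (σ k).a i ∈ (σ k).V
      rw [inv_mul_cancel]
      exact (σ k).V.one_mem
    obtain ⟨x, hx⟩ := h1
    exact ⟨x, fun k => Set.mem_iInter.1 hx k⟩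
  choose x hx using hlim
  have hsm : ∀ V : Subgroup G, IsOpen (V : Set G) → ∃ k, (σ k).V ≤ V := by
    intro V hV
    obtain ⟨k, hk⟩ := hU2 V hV
    exact ⟨k + 1, (hn2 k (σ k)).trans hk⟩
  refine ⟨x, ?_, ?_, ?_⟩
  · intro V hV
    obtain ⟨k, hk⟩ := hsm V hV
    refine (σ k).fin.subset fun i hi => ?_
    intro hc
    apply hi
    have h1 : x i = (σ k).a i * (((σ k).a i)⁻¹ * x i) := by group
    rw [h1]
    exact V.mul_mem (hk hc) (hk (hx i k))
  · intro V hVn hV
    obtain ⟨k, hk⟩ := hsm V hV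
    rw [eq_top_iff, ← (σ k).gen, sup_le_iff]
    refine ⟨?_, hk.trans le_sup_right⟩
    rw [Subgroup.closure_le]
    rintro _ ⟨i, rfl⟩
    have h1 : (σ k).a i = x i * (((σ k).a i)⁻¹ * x i)⁻¹ := by group
    rw [h1]
    exact Subgroup.mul_mem_sup (Subgroup.subset_closure ⟨i, rfl⟩) (V.inv_mem (hk (hx i k)))
  · intro A _ _ b hb
    let _ : Fintype A := Fintype.ofFinite A
    let eA : A ≃ Fin (Fintype.card A) := Fintype.equivFin A
    let c : A →* Equiv.Perm (Fin (Fintype.card A)) :=
      (eA.permCongrHom.toMonoidHom).comp (MulAction.toPermHom A A)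
    have hc : Function.Injective c :=
      eA.permCongrHom.injective.comp (MulAction.toPerm_injective)
    obtain ⟨N, hN⟩ : ∃ N : ℕ, ∀ i, N ≤ i → b i = 1 := by
      obtain ⟨N, hN⟩ := hb.bddAbove
      refine ⟨N + 1, fun i hi => ?_⟩
      by_contra h1
      have h2 := hN h1
      omega
    have hall : ∀ p : (m : ℕ) × List (Equiv.Perm (Fin m)), ∃ φ : G →* Equiv.Perm (Fin p.1),
        IsOpen (φ.ker : Set G) ∧ ∀ i, φ (x i) = p.2.getD i 1 := by
      intro p
      obtain ⟨k, rfl⟩ := hT p
      obtain ⟨φ, hφ1, hφ2⟩ := hn3 k (σ k)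
      refine ⟨φ, Subgroup.isOpen_mono hφ1 (σ (k + 1)).isOpen, fun i => ?_⟩
      have h1 : x i = (σ (k + 1)).a i * (((σ (k + 1)).a i)⁻¹ * x i) := by group
      have h2 : φ (((σ (k + 1)).a i)⁻¹ * x i) = 1 := hφ1 (hx i (k + 1))
      rw [h1, map_mul, h2, mul_one]
      exact hφ2 i
    obtain ⟨φ, hφo, hφ3⟩ := hall ⟨Fintype.card A, (List.range N).map fun i => c (b i)⟩
    have hφ : ∀ i, φ (x i) = c (b i) := by
      intro i
      rw [hφ3]
      change ((List.range N).map fun i => c (b i)).getD i 1 = c (b i)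
      by_cases hi : i < N
      · rw [List.getD_eq_getElem _ _ (by simpa using hi)]
        simp
      · rw [List.getD_eq_default _ _ (by simpa using hi), hN i (not_lt.1 hi), map_one]
    -- the image
    have hgen : Subgroup.closure (Set.range x) ⊔ φ.ker = ⊤ := by
      obtain ⟨k, hk⟩ := hsm φ.ker hφo
      rw [eq_top_iff, ← (σ k).gen, sup_le_iff]
      refine ⟨?_, hk.trans le_sup_right⟩
      rw [Subgroup.closure_le]
      rintro _ ⟨i, rfl⟩
      have h1 : (σ k).a i = x i * (((σ k).a i)⁻¹ * x i)⁻¹ := by group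
      rw [h1]
      exact Subgroup.mul_mem_sup (Subgroup.subset_closure ⟨i, rfl⟩)
        (φ.ker.inv_mem (hk (hx i k)))
    have hran : ∀ g, φ g ∈ c.range := by
      intro g
      have h1 : (⊤ : Subgroup G) ≤ c.range.comap φ := by
        rw [← hgen, sup_le_iff, Subgroup.closure_le]
        constructor
        · rintro _ ⟨i, rfl⟩
          exact ⟨b i, (hφ i).symm⟩
        · intro y hy
          rw [MonoidHom.mem_ker] at hy
          rw [Subgroup.mem_comap, hy]
          exact c.range.one_mem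
      exact h1 (Subgroup.mem_top g)
    let ce : A ≃* c.range := MonoidHom.ofInjective hc
    let φ' : G →* A := (ce.symm : c.range →* A).comp (φ.codRestrict c.range hran)
    have hφ' : ∀ g, c (φ' g) = φ g := by
      intro g
      have h1 : ce (φ' g) = φ.codRestrict c.range hran g := ce.apply_symm_apply _
      exact congrArg Subtype.val h1
    refine ⟨φ', ?_, fun i => ?_⟩
    · refine Subgroup.isOpen_mono (H₁ := φ.ker) (fun y hy => ?_) hφo
      rw [MonoidHom.mem_ker] at hy ⊢
      apply hc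
      rw [hφ', hy, map_one]
    · apply hc
      rw [hφ', hφ]

/-- Iwasawa's theorem. -/
theorem iwasawa [CompactSpace G] (hG : SolvesAll G) (U : ℕ → Subgroup G)
    (hU : ∀ k, (U k).Normal ∧ IsOpen (U k : Set G))
    (hU2 : ∀ V : Subgroup G, IsOpen (V : Set G) → ∃ k, U k ≤ V)
    (hG2 : ∀ W : Set G, IsOpen W → (1 : G) ∈ W → ∃ V : Subgroup G, IsOpen (V : Set G) ∧
      (V : Set G) ⊆ W) :
    ∃ x : ℕ → G, IsFreeBasis x := by
  classical
  obtain ⟨x, hx1, hx2, hx3⟩ := exists_basis hG U hU hU2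
  refine ⟨x, ?_, ?_⟩
  · rw [tendsto_def]
    intro W hW
    obtain ⟨W', hW', hW'o, hW'1⟩ := mem_nhds_iff.1 hW
    obtain ⟨V, hVo, hV⟩ := hG2 W' hW'o hW'1
    rw [mem_cofinite]
    refine (hx1 V hVo).subset fun i hi hc => hi (hW' (hV hc))
  · intro A _ _ _ _ _ _ a ha
    -- two continuous homomorphisms into finite groups which agree on the `x i` are equal
    have huniq : ∀ (C : Type) [Group C] (f₁ f₂ : G →* C), IsOpen (f₁.ker : Set G) →
        IsOpen (f₂.ker : Set G) → (∀ i, f₁ (x i) = f₂ (x i)) → f₁ = f₂ := by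
      intro C _ f₁ f₂ h1 h2 h3
      have h4 := hx2 (f₁.ker ⊓ f₂.ker) inferInstance (h1.inter h2)
      have h5 : (⊤ : Subgroup G) ≤ f₁.eqLocus f₂ := by
        rw [← h4, sup_le_iff, Subgroup.closure_le]
        constructor
        · rintro _ ⟨i, rfl⟩
          exact h3 i
        · intro y hy
          have h6 : f₁ y = 1 := hy.1
          have h7 : f₂ y = 1 := hy.2
          change f₁ y = f₂ y
          rw [h6, h7]
      ext g
      exact h5 (Subgroup.mem_top g)
    -- the homomorphisms into the finite quotients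
    have h1 : ∀ N : OpenNormalSubgroup A, ∃ φ : G →* A ⧸ (N : Subgroup A),
        IsOpen (φ.ker : Set G) ∧ ∀ i, φ (x i) = QuotientGroup.mk (a i) := by
      intro N
      have hNo : IsOpen ((N : Subgroup A) : Set A) := N.isOpen'
      have hf : Finite (A ⧸ (N : Subgroup A)) := Subgroup.quotient_finite_of_isOpen _ hNo
      refine hx3 (A ⧸ (N : Subgroup A)) (fun i => QuotientGroup.mk (a i)) ?_
      have h2 : ((N : Subgroup A) : Set A) ∈ 𝓝 (1 : A) := hNo.mem_nhds (N : Subgroup A).one_mem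
      have h3 := ha h2
      rw [mem_map, mem_cofinite] at h3
      refine h3.subset fun i hi hc => hi ?_
      exact (QuotientGroup.eq_one_iff _).2 hc
    choose φ hφo hφx using h1
    -- compatibility
    have hcomp : ∀ (N M : OpenNormalSubgroup A) (h : (N : Subgroup A) ≤ (M : Subgroup A)) (g : G)
        (y : A), (QuotientGroup.mk y : A ⧸ (N : Subgroup A)) = φ N g →
        (QuotientGroup.mk y : A ⧸ (M : Subgroup A)) = φ M g := by
      intro N M h g y hy
      let p : A ⧸ (N : Subgroup A) →* A ⧸ (M : Subgroup A) :=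
        QuotientGroup.map _ _ (MonoidHom.id A) h
      have h2 : p.comp (φ N) = φ M := by
        refine huniq _ _ _ ?_ (hφo M) ?_
        · refine Subgroup.isOpen_mono (H₁ := (φ N).ker) (fun z hz => ?_) (hφo N)
          rw [MonoidHom.mem_ker] at hz ⊢
          rw [MonoidHom.comp_apply, hz, map_one]
        · intro i
          rw [MonoidHom.comp_apply, hφx, hφx]
          rfl
      rw [← h2, MonoidHom.comp_apply, ← hy]
      rfl
    -- separation
    have hsep : ∀ y z : A, (∀ N : OpenNormalSubgroup A, (QuotientGroup.mk y : A ⧸ (N : Subgroup A)) =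
        QuotientGroup.mk z) → y = z := by
      intro y z hyz
      by_contra hc
      have h2 : y⁻¹ * z ≠ 1 := fun h => hc (inv_mul_eq_one.1 h)
      have h3 : IsOpen ({y⁻¹ * z}ᶜ : Set A) := isOpen_compl_singleton
      obtain ⟨N, hN⟩ := ProfiniteGrp.exist_openNormalSubgroup_sub_open_nhds_of_one h3
        (fun h => h2 (Set.mem_singleton_iff.1 h).symm)
      exact hN (QuotientGroup.eq.1 (hyz N)) rfl
    have hex : ∀ g : G, ∃ y : A, ∀ N : OpenNormalSubgroup A,
        (QuotientGroup.mk y : A ⧸ (N : Subgroup A)) = φ N g := by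
      intro g
      have hcl : ∀ N : OpenNormalSubgroup A,
          IsClosed {y : A | (QuotientGroup.mk y : A ⧸ (N : Subgroup A)) = φ N g} := by
        intro N
        obtain ⟨w, hw⟩ := QuotientGroup.mk_surjective (φ N g)
        have h2 : {y : A | (QuotientGroup.mk y : A ⧸ (N : Subgroup A)) = φ N g} =
            (fun y => w⁻¹ * y) ⁻¹' ((N : Subgroup A) : Set A) := by
          ext y
          rw [Set.mem_setOf_eq, ← hw, eq_comm, QuotientGroup.eq]
          rfl
        rw [h2]
        exact (Subgroup.isClosed_of_isOpen _ N.isOpen').preimage (continuous_const.mul continuous_id)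
      have h2 : (⋂ N : OpenNormalSubgroup A,
          {y : A | (QuotientGroup.mk y : A ⧸ (N : Subgroup A)) = φ N g}).Nonempty := by
        have : Nonempty (OpenNormalSubgroup A) := by
          obtain ⟨N, -⟩ := ProfiniteGrp.exist_openNormalSubgroup_sub_open_nhds_of_one
            (isOpen_univ (X := A)) trivial
          exact ⟨N⟩
        refine IsCompact.nonempty_iInter_of_directed_nonempty_isCompact_isClosed _ ?_
          (fun N => ?_) (fun N => (hcl N).isCompact) hcl
        · intro N M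
          refine ⟨N ⊓ M, ?_, ?_⟩
          · intro y hy
            exact hcomp (N ⊓ M) N (fun z hz => hz.1) g y hy
          · intro y hy
            exact hcomp (N ⊓ M) M (fun z hz => hz.2) g y hy
        · obtain ⟨w, hw⟩ := QuotientGroup.mk_surjective (φ N g)
          exact ⟨w, hw⟩
      obtain ⟨y, hy⟩ := h2
      exact ⟨y, fun N => Set.mem_iInter.1 hy N⟩
    choose f hf using hex
    let F : G →* A :=
      { toFun := f
        map_one' := hsep _ _ fun N => by rw [hf, map_one]; rfl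
        map_mul' := fun g h => hsep _ _ fun N => by
          rw [hf, map_mul, QuotientGroup.mk_mul, hf, hf] }
    have hF : ∀ g, F g = f g := fun g => rfl
    have hFc : Continuous F := by
      refine continuous_of_continuousAt_one F ?_
      rw [ContinuousAt, map_one, tendsto_def]
      intro W hW
      obtain ⟨W', hW', hW'o, hW'1⟩ := mem_nhds_iff.1 hW
      obtain ⟨N, hN⟩ := ProfiniteGrp.exist_openNormalSubgroup_sub_open_nhds_of_one hW'o hW'1
      refine mem_of_superset ((hφo N).mem_nhds (φ N).ker.one_mem) fun g hg => ?_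
      apply hW'
      apply hN
      have h2 : φ N g = 1 := hg
      rw [← hf] at h2
      exact (QuotientGroup.eq_one_iff _).1 h2
    refine ⟨⟨F, hFc⟩, fun i => ?_, fun ψ hψ => ?_⟩
    · refine hsep _ _ fun N => ?_
      exact (hf (x i) N).trans (hφx N i)
    · apply ContinuousMonoidHom.ext
      intro g
      refine hsep _ _ fun N => ?_
      have h2 : (QuotientGroup.mk' (N : Subgroup A)).comp (ψ : G →* A) = φ N := by
        refine huniq _ _ _ ?_ (hφo N) ?_
        · have h3 : ((((QuotientGroup.mk' (N : Subgroup A)).comp (ψ : G →* A)).ker : Subgroup G) :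
              Set G) = ψ ⁻¹' ((N : Subgroup A) : Set A) := by
            ext z
            change (QuotientGroup.mk (ψ z) : A ⧸ (N : Subgroup A)) = 1 ↔ _
            exact QuotientGroup.eq_one_iff _
          rw [h3]
          exact N.isOpen'.preimage ψ.continuous_toFun
        · intro i
          rw [hφx]
          change (QuotientGroup.mk (ψ (x i)) : A ⧸ (N : Subgroup A)) = _
          rw [hψ]
      have h3 : (QuotientGroup.mk (ψ g) : A ⧸ (N : Subgroup A)) = φ N g := by
        rw [← h2]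
        rfl
      rw [h3]
      exact (hf g N).symm

end

end Pool.Agent.H418.FA
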