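import Mathlib
import Pool.Agent.H418.FA.Iwa

/-!
Krull topology: the absolute Galois group of an intermediate field as a subgroup, countable bases.
-/

set_option autoImplicit false

namespace Pool.Agent.H418.FA

open Topology Filter

theorem SolvesAll.of_equiv {G G' : Type} [Group G] [TopologicalSpace G] [Group G']
    [TopologicalSpace G'] (e : G ≃* G') (he : Continuous e) (he' : Continuous e.symm)
    (h : SolvesAll G) : SolvesAll G' := by
  intro Γ B _ _ _ _ q hq hqs α hα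
  obtain ⟨ψ, h1, h2, h3⟩ := h Γ B (q.comp (e : G →* G')) (hq.preimage he)
    (hqs.comp e.surjective) α hα
  refine ⟨ψ.comp (e.symm : G' →* G), h1.preimage he', h2.comp e.symm.surjective, fun x => ?_⟩
  have h4 := h3 (e.symm x)
  rw [MonoidHom.comp_apply]
  refine h4.trans ?_
  change q (e (e.symm x)) = q x
  rw [MulEquiv.apply_symm_apply]

section

variable {K Ω : Type} [Field K] [Field Ω] [Algebra K Ω] [IsGalois K Ω]

theorem exists_finset_fix (W : Set (Ω ≃ₐ[K] Ω)) (hW : W ∈ 𝓝 (1 : Ω ≃ₐ[K] Ω)) :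
    ∃ s : Finset Ω, ∀ σ : Ω ≃ₐ[K] Ω, (∀ x ∈ s, σ x = x) → σ ∈ W := by
  obtain ⟨E, hE, hEW⟩ := (krullTopology_mem_nhds_one_iff K Ω W).1 hW
  have hE' : FiniteDimensional K E := hE
  obtain ⟨s, hs⟩ := (IntermediateField.essFiniteType_iff (K := E)).1 inferInstance
  refine ⟨s, fun σ hσ => hEW ?_⟩
  change σ ∈ E.fixingSubgroup
  rw [IntermediateField.mem_fixingSubgroup_iff, ← hs]
  intro x hx
  have h1 : IntermediateField.adjoin K (s : Set Ω) ≤
      IntermediateField.fixedField (Subgroup.zpowers σ) := by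
    rw [IntermediateField.adjoin_le_iff]
    intro y hy
    rw [SetLike.mem_coe, IntermediateField.mem_fixedField_iff]
    intro τ hτ
    have h2 : Subgroup.zpowers σ ≤ MulAction.stabilizer (Ω ≃ₐ[K] Ω) y := by
      rw [Subgroup.zpowers_le, MulAction.mem_stabilizer_iff]
      exact hσ y hy
    exact h2 hτ
  have h3 := h1 hx
  rw [IntermediateField.mem_fixedField_iff] at h3
  exact h3 σ (Subgroup.mem_zpowers σ)

theorem mem_nhds_of_finset (W : Set (Ω ≃ₐ[K] Ω)) (s : Finset Ω)
    (h : ∀ σ : Ω ≃ₐ[K] Ω, (∀ x ∈ s, σ x = x) → σ ∈ W) : W ∈ 𝓝 (1 : Ω ≃ₐ[K] Ω) := by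
  rw [krullTopology_mem_nhds_one_iff]
  refine ⟨IntermediateField.adjoin K (s : Set Ω), ?_, fun σ hσ => h σ fun x hx => ?_⟩
  · exact IntermediateField.finiteDimensional_adjoin
      (fun x _ => (Algebra.IsIntegral.isIntegral (R := K) x))
  · have h1 := (IntermediateField.mem_fixingSubgroup_iff _ σ).1 hσ
    exact h1 x (IntermediateField.subset_adjoin K _ hx)

variable (F : IntermediateField K Ω)

/-- The absolute Galois group of `F` as a subgroup. -/
theorem exists_equiv : ∃ e : F.fixingSubgroup ≃* (Ω ≃ₐ[F] Ω), Continuous e ∧ Continuous e.symm := by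
  let e := IntermediateField.fixingSubgroupEquiv F
  have he : ∀ (σ : Ω ≃ₐ[F] Ω) (x : Ω), ((e.symm σ : F.fixingSubgroup) : Ω ≃ₐ[K] Ω) x = σ x :=
    fun σ x => rfl
  have h1 : Continuous e.symm := by
    have h2 : Continuous ((F.fixingSubgroup.subtype).comp (e.symm : (Ω ≃ₐ[F] Ω) →* _)) := by
      refine continuous_of_continuousAt_one _ ?_
      rw [ContinuousAt, map_one, tendsto_def]
      intro W hW
      obtain ⟨s, hs⟩ := exists_finset_fix W hW
      exact mem_nhds_of_finset _ s fun σ hσ => hs _ hσ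
    exact continuous_induced_rng.2 h2
  have hc : CompactSpace (Ω ≃ₐ[F] Ω) := inferInstance
  have ht : T2Space F.fixingSubgroup := inferInstance
  let eh := Continuous.homeoOfEquivCompactToT2 (f := e.symm.toEquiv) h1
  exact ⟨e, eh.symm.continuous, h1⟩

omit [IsGalois K Ω] in
theorem exists_open (W : Set (Ω ≃ₐ[K] Ω)) (hW : IsOpen W) (h1 : (1 : Ω ≃ₐ[K] Ω) ∈ W) :
    ∃ V : Subgroup (Ω ≃ₐ[K] Ω), IsOpen (V : Set (Ω ≃ₐ[K] Ω)) ∧ (V : Set (Ω ≃ₐ[K] Ω)) ⊆ W := by
  obtain ⟨E, hE, hEW⟩ := (krullTopology_mem_nhds_one_iff K Ω W).1 (hW.mem_nhds h1)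
  exact ⟨E.fixingSubgroup, IntermediateField.fixingSubgroup_isOpen E, hEW⟩

theorem exists_countable_basis [Countable Ω] : ∃ U : ℕ → Subgroup (Ω ≃ₐ[K] Ω),
    (∀ k, (U k).Normal ∧ IsOpen (U k : Set (Ω ≃ₐ[K] Ω))) ∧
    ∀ V : Subgroup (Ω ≃ₐ[K] Ω), IsOpen (V : Set (Ω ≃ₐ[K] Ω)) → ∃ k, U k ≤ V := by
  classical
  obtain ⟨T, hT⟩ := exists_surjective_nat (Finset Ω)
  have hfd : ∀ s : Finset Ω, FiniteDimensional K (IntermediateField.adjoin K (s : Set Ω)) :=
    fun s => IntermediateField.finiteDimensional_adjoin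
      (fun x _ => (Algebra.IsIntegral.isIntegral (R := K) x))
  refine ⟨fun k => (IntermediateField.normalClosure K
    (IntermediateField.adjoin K ((T k : Finset Ω) : Set Ω)) Ω).fixingSubgroup, fun k => ?_,
    fun V hV => ?_⟩
  · have h1 := hfd (T k)
    constructor
    · rw [InfiniteGalois.normal_iff_isGalois]
      exact IsGalois.normalClosure _ _ _
    · have h2 : FiniteDimensional K (IntermediateField.normalClosure K
        (IntermediateField.adjoin K ((T k : Finset Ω) : Set Ω)) Ω) :=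
        normalClosure.is_finiteDimensional _ _ _
      exact IntermediateField.fixingSubgroup_isOpen _
  · obtain ⟨s, hs⟩ := exists_finset_fix (V : Set (Ω ≃ₐ[K] Ω)) (hV.mem_nhds V.one_mem)
    obtain ⟨k, rfl⟩ := hT s
    refine ⟨k, fun σ hσ => hs σ fun x hx => ?_⟩
    have h1 := (IntermediateField.mem_fixingSubgroup_iff _ σ).1 hσ
    apply h1
    apply IntermediateField.le_normalClosure
    exact IntermediateField.subset_adjoin K _ hx

end

end Pool.Agent.H418.FA
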