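import Mathlib
import Pool.Prelude.Def_F_b1b78ff3
import Pool.Agent.H418.FA.Fld
import Pool.Agent.H418.FA.Iwa
import Pool.Agent.H418.FA.Top

/-!
The compositum of a set of finite Galois extensions with nonabelian simple groups.
-/

set_option autoImplicit false

namespace Pool.Agent.H418.FA

open Pool.Agent.H391R2 Pool.Agent.H391R2.T4 Pool.Agent.Y793

/-- From `AltSolv` to `Enough`. -/
theorem enough_of {G : Type} [Group G] [TopologicalSpace G] [IsTopologicalGroup G] {D : Set ℕ} (hG : AltSolv G D)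
    (S : Set (Subgroup G))
    (hS : ∀ (N : Subgroup G), IsOpen (N : Set G) → ∀ n ∈ D, 5 ≤ n →
      (∃ f : G →* alternatingGroup (Fin n), Function.Surjective f ∧ f.ker = N) → N ∈ S) :
    Enough S := by
  intro Γ B _ _ _ _ q hq hqs α hα
  obtain ⟨n, hn5, hnD, g, hg, hgs, hgq⟩ := hG Γ B q hq hqs α hα
  refine ⟨n, by omega, g, hg, hgs, hgq, ?_⟩
  let f₀ : G →* Equiv.Perm (Fin n) :=
    (SemidirectProduct.rightHom.comp (MonoidHom.fst (Wr B n) Γ)).comp
      ((AltEP α n).subtype.comp g)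
  have hf₀ : ∀ x, f₀ x = (g x).1.1.right := fun x => rfl
  have hmem : ∀ x, f₀ x ∈ alternatingGroup (Fin n) := by
    intro x
    rw [Equiv.Perm.mem_alternatingGroup, hf₀]
    exact ((mem_AltEP α n _).1 (g x).2).2
  let f : G →* alternatingGroup (Fin n) := f₀.codRestrict _ hmem
  have hf : ∀ x, (f x : Equiv.Perm (Fin n)) = (g x).1.1.right := fun x => rfl
  have h1 : f.ker ∈ S := by
    refine hS f.ker ?_ n hnD hn5 ⟨f, ?_, rfl⟩
    · refine Subgroup.isOpen_mono (H₁ := g.ker) (fun y hy => ?_) hg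
      rw [MonoidHom.mem_ker] at hy ⊢
      apply Subtype.ext
      rw [hf, hy]
      rfl
    · intro σ
      obtain ⟨x, hx⟩ := exists_mem α n σ.1 (Equiv.Perm.mem_alternatingGroup.1 σ.2)
      obtain ⟨y, hy⟩ := hgs x
      refine ⟨y, Subtype.ext ?_⟩
      rw [hf, hy, hx]
  intro h hh
  have h2 : h ∈ f.ker := (Subgroup.mem_sInf.1 hh) _ h1
  rw [← hf, MonoidHom.mem_ker.1 h2]
  rfl

variable {K Ω : Type} [Field K] [Field Ω] [Algebra K Ω]

/-- `M / K` is a finite Galois extension with nonabelian simple Galois group. -/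
structure SimpleExt (M : IntermediateField K Ω) : Prop where
  fin : FiniteDimensional K M
  gal : IsGalois K M
  simple : IsSimpleGroup (M ≃ₐ[K] M)
  ncomm : ∃ a b : M ≃ₐ[K] M, a * b ≠ b * a

/-- `M / K` is a finite Galois extension with Galois group `A_n`. -/
structure AltExt (n : ℕ) (M : IntermediateField K Ω) : Prop where
  fin : FiniteDimensional K M
  gal : IsGalois K M
  iso : Nonempty ((M ≃ₐ[K] M) ≃* alternatingGroup (Fin n))

theorem fixing_sSup (S : Set (IntermediateField K Ω)) :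
    (sSup S).fixingSubgroup = sInf (IntermediateField.fixingSubgroup '' S) := by
  ext σ
  rw [Subgroup.mem_sInf]
  constructor
  · rintro h _ ⟨M, hM, rfl⟩
    exact IntermediateField.fixingSubgroup_le (le_sSup hM) h
  · intro h
    have h1 : sSup S ≤ IntermediateField.fixedField (Subgroup.zpowers σ) := by
      refine sSup_le fun M hM => ?_
      rw [IntermediateField.le_iff_le, Subgroup.zpowers_le]
      exact h _ ⟨M, hM, rfl⟩
    rw [IntermediateField.le_iff_le, Subgroup.zpowers_le] at h1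
    exact h1

variable [IsGalois K Ω]

theorem SimpleExt.ns {M : IntermediateField K Ω} (h : SimpleExt M) :
    NS M.fixingSubgroup ∧ IsOpen (M.fixingSubgroup : Set (Ω ≃ₐ[K] Ω)) := by
  have h1 := h.fin
  have h2 := h.gal
  have h3 := h.simple
  refine ⟨?_, IntermediateField.fixingSubgroup_isOpen M⟩
  rw [← IntermediateField.restrictNormalHom_ker]
  exact NS.of_ker h.ncomm _ (AlgEquiv.restrictNormalHom_surjective (F := K) (K₁ := M) Ω)

/-- The main theorem, in terms of groups. -/
theorem main_enough (S : Set (IntermediateField K Ω)) (hS : ∀ M ∈ S, SimpleExt M)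
    (hE : Enough (IntermediateField.fixingSubgroup '' S)) :
    SolvesAll (Ω ≃ₐ[(sSup S : IntermediateField K Ω)] Ω) := by
  obtain ⟨e, he, he'⟩ := exists_equiv (sSup S)
  refine SolvesAll.of_equiv e he he' ?_
  rw [fixing_sSup]
  exact core3 _ (by
    rintro _ ⟨M, hM, rfl⟩
    exact (hS M hM).ns) hE

theorem main_rich [CharZero K] [IsAlgClosed Ω] (hK : HilbField K)
    (S : Set (IntermediateField K Ω)) (hS : ∀ M ∈ S, SimpleExt M) (D : Set ℕ) (hD : Rich D)
    (hSD : ∀ (M : IntermediateField K Ω) (n : ℕ), n ∈ D → 5 ≤ n → AltExt n M → M ∈ S) :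
    SolvesAll (Ω ≃ₐ[(sSup S : IntermediateField K Ω)] Ω) := by
  refine main_enough S hS (enough_of (altSolv K Ω hK D hD) _ ?_)
  intro N hN n hn hn5 hf
  obtain ⟨f, hf, hfN⟩ := hf
  have hNn : N.Normal := hfN ▸ (inferInstance : f.ker.Normal)
  let Uc : ClosedSubgroup (Ω ≃ₐ[K] Ω) := ⟨N, Subgroup.isClosed_of_isOpen _ hN⟩
  let M : IntermediateField K Ω := IntermediateField.fixedField N
  have hM : M.fixingSubgroup = N := InfiniteGalois.fixingSubgroup_fixedField Uc
  have hMfd : FiniteDimensional K M := by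
    rw [← InfiniteGalois.isOpen_iff_finite]
    change IsOpen (M.fixingSubgroup : Set (Ω ≃ₐ[K] Ω))
    rw [hM]
    exact hN
  have hMg : IsGalois K M := by
    rw [← InfiniteGalois.normal_iff_isGalois, hM]
    exact hNn
  have hrs : Function.Surjective (AlgEquiv.restrictNormalHom M : (Ω ≃ₐ[K] Ω) →* _) :=
    AlgEquiv.restrictNormalHom_surjective (F := K) (K₁ := M) Ω
  have hrk : (AlgEquiv.restrictNormalHom M : (Ω ≃ₐ[K] Ω) →* (M ≃ₐ[K] M)).ker = f.ker := by
    rw [IntermediateField.restrictNormalHom_ker, hM, hfN]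
  let e₁ := QuotientGroup.quotientKerEquivOfSurjective
    (AlgEquiv.restrictNormalHom M : (Ω ≃ₐ[K] Ω) →* (M ≃ₐ[K] M)) hrs
  let e₂ := QuotientGroup.quotientKerEquivOfSurjective f hf
  have e : (M ≃ₐ[K] M) ≃* alternatingGroup (Fin n) :=
    (e₁.symm.trans (QuotientGroup.quotientMulEquivOfEq hrk)).trans e₂
  exact ⟨M, hSD M n hn hn5 ⟨hMfd, hMg, ⟨e⟩⟩, hM⟩

/-- The absolute Galois group is free. -/
theorem free_of_solvesAll [Countable Ω] (F : IntermediateField K Ω)
    (h : SolvesAll (Ω ≃ₐ[F] Ω)) : ∃ x : ℕ → (Ω ≃ₐ[F] Ω), IsFreeBasis x := by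
  obtain ⟨U, hU, hU2⟩ := exists_countable_basis (K := F) (Ω := Ω)
  exact iwasawa h U hU hU2 exists_open

/-- Every finite embedding problem over `F` has a proper solution. -/
def SolvesAllEP (F : Type) [Field F] : Prop :=
  ∀ (L : Type) [Field L] [Algebra F L] [FiniteDimensional F L] [IsGalois F L]
    (B : Type) [Group B] [Finite B] (α : B →* (L ≃ₐ[F] L)), Function.Surjective α →
    ∃ (M : Type) (_ : Field M) (_ : Algebra F M) (_ : Algebra L M) (_ : IsScalarTower F L M)
      (_ : FiniteDimensional F M) (_ : IsGalois F M) (γ : (M ≃ₐ[F] M) ≃* B),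
      ∀ (σ : M ≃ₐ[F] M) (x : L), σ (algebraMap L M x) = algebraMap L M (α (γ σ) x)

theorem solvesAllEP_of {F Ω : Type} [Field F] [Field Ω] [Algebra F Ω] [IsAlgClosed Ω]
    [IsGalois F Ω] (h : SolvesAll (Ω ≃ₐ[F] Ω)) : SolvesAllEP F := by
  intro L _ _ _ _ B _ _ α hα
  have hLalg : Algebra.IsAlgebraic F L := Algebra.IsAlgebraic.of_finite F L
  let j : L →ₐ[F] Ω := IsAlgClosed.lift
  let _ : Algebra L Ω := j.toRingHom.toAlgebra
  have hT : IsScalarTower F L Ω := IsScalarTower.of_algebraMap_eq fun x => (j.commutes x).symm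
  have hfinG : Finite (L ≃ₐ[F] L) := inferInstance
  obtain ⟨ψ, hψ, hψs, hψα⟩ := h (L ≃ₐ[F] L) B (AlgEquiv.restrictNormalHom L) (by
      let R : IntermediateField F Ω := (IsScalarTower.toAlgHom F L Ω).fieldRange
      have hR : FiniteDimensional F R := by
        exact LinearMap.finiteDimensional_range (IsScalarTower.toAlgHom F L Ω).toLinearMap
      refine Subgroup.isOpen_mono (H₁ := R.fixingSubgroup) ?_
        (IntermediateField.fixingSubgroup_isOpen R)
      intro x hx
      rw [MonoidHom.mem_ker]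
      apply AlgEquiv.ext
      intro y
      apply (algebraMap L Ω).injective
      rw [IntermediateField.mem_fixingSubgroup_iff] at hx
      have h1 := AlgEquiv.restrictNormal_commutes x L y
      rw [AlgEquiv.one_apply]
      refine h1.trans ?_
      exact hx _ ⟨y, rfl⟩)
    (AlgEquiv.restrictNormalHom_surjective (F := F) (K₁ := L) Ω) α hα
  -- the field
  let Uc : ClosedSubgroup (Ω ≃ₐ[F] Ω) := ⟨ψ.ker, Subgroup.isClosed_of_isOpen _ hψ⟩
  let M : IntermediateField F Ω := IntermediateField.fixedField ψ.ker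
  have hM : M.fixingSubgroup = ψ.ker := InfiniteGalois.fixingSubgroup_fixedField Uc
  have hMfd : FiniteDimensional F M := by
    rw [← InfiniteGalois.isOpen_iff_finite]
    change IsOpen (M.fixingSubgroup : Set (Ω ≃ₐ[F] Ω))
    rw [hM]
    exact hψ
  have hMg : IsGalois F M := by
    rw [← InfiniteGalois.normal_iff_isGalois, hM]
    infer_instance
  have hrs : Function.Surjective (AlgEquiv.restrictNormalHom M : (Ω ≃ₐ[F] Ω) →* _) :=
    AlgEquiv.restrictNormalHom_surjective (F := F) (K₁ := M) Ω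
  have hrk : (AlgEquiv.restrictNormalHom M : (Ω ≃ₐ[F] Ω) →* (M ≃ₐ[F] M)).ker = ψ.ker := by
    rw [IntermediateField.restrictNormalHom_ker, hM]
  let e₁ := QuotientGroup.quotientKerEquivOfSurjective
    (AlgEquiv.restrictNormalHom M : (Ω ≃ₐ[F] Ω) →* (M ≃ₐ[F] M)) hrs
  let e₂ := QuotientGroup.quotientKerEquivOfSurjective ψ hψs
  let γ : (M ≃ₐ[F] M) ≃* B := (e₁.symm.trans (QuotientGroup.quotientMulEquivOfEq hrk)).trans e₂
  have hγ : ∀ x, γ (AlgEquiv.restrictNormalHom M x) = ψ x := by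
    intro x
    have h1 : e₁.symm (AlgEquiv.restrictNormalHom M x) = QuotientGroup.mk x := by
      rw [MulEquiv.symm_apply_eq]
      rfl
    change e₂ (QuotientGroup.quotientMulEquivOfEq hrk
      (e₁.symm (AlgEquiv.restrictNormalHom M x))) = _
    rw [h1]
    rfl
  -- `L` is contained in `M`
  have hmem : ∀ x : L, algebraMap L Ω x ∈ M := by
    intro x
    rw [IntermediateField.mem_fixedField_iff]
    intro σ hσ
    rw [MonoidHom.mem_ker] at hσ
    have h1 := hψα σ
    rw [hσ, map_one] at h1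
    have h2 := AlgEquiv.restrictNormal_commutes σ L x
    have h3 : AlgEquiv.restrictNormal σ L = 1 := h1.symm
    rw [h3, AlgEquiv.one_apply] at h2
    exact h2.symm
  let i : L →+* M := (algebraMap L Ω).codRestrict M hmem
  let _ : Algebra L M := i.toAlgebra
  have hi : ∀ x : L, ((algebraMap L M x : M) : Ω) = algebraMap L Ω x := fun x => rfl
  have hT2 : IsScalarTower F L M := by
    refine IsScalarTower.of_algebraMap_eq fun x => ?_
    apply Subtype.ext
    rw [hi, ← IsScalarTower.algebraMap_apply F L Ω]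
    rfl
  refine ⟨M, inferInstance, inferInstance, inferInstance, hT2, hMfd, hMg, γ, fun σ x => ?_⟩
  obtain ⟨τ, rfl⟩ := hrs σ
  rw [hγ, hψα]
  apply Subtype.ext
  rw [hi]
  have h2 := AlgEquiv.restrictNormal_commutes τ L x
  have h3 := AlgEquiv.restrictNormal_commutes τ M (algebraMap L M x)
  refine h3.trans ?_
  refine Eq.trans ?_ h2.symm
  rfl

theorem SolvesAllEP.realizable {F : Type} [Field F] (h : SolvesAllEP F) (G : Type) [Group G]
    [Finite G] : Nfff32c05.IsRealizable F G := by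
  have h0 : ∀ a : F ≃ₐ[F] F, a = 1 := fun a => AlgEquiv.ext fun x => a.commutes x
  obtain ⟨M, i1, i2, i3, i4, i5, i6, γ, -⟩ := h F G (1 : G →* (F ≃ₐ[F] F)) (fun a => ⟨1, by
    rw [h0 a, map_one]⟩)
  exact ⟨⟨⟨M, i1, i2, i6, γ.symm⟩⟩⟩

end Pool.Agent.H418.FA
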