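import Mathlib
import Pool.Agent.H418.FA.NS

/-!
Homomorphisms onto products of nonabelian simple groups.
-/

set_option autoImplicit false

namespace Pool.Agent.H418.FA

open Topology Filter

theorem mem_inf_ker {G ι : Type} [Group G] [DecidableEq ι] (S : ι → Type) [∀ i, Group (S i)]
    (f : ∀ i, G →* S i) (I : Finset ι) (y : G) :
    y ∈ I.inf (fun i => (f i).ker) ↔ ∀ i ∈ I, f i y = 1 := by
  induction I using Finset.induction_on with
  | empty => simp
  | insert k I hk ih2 =>
    rw [Finset.inf_insert, Subgroup.mem_inf, ih2]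
    simp [MonoidHom.mem_ker]

/-- Homomorphisms onto nonabelian simple groups with different kernels are independent. -/
theorem independent {G ι : Type} [Group G] (S : ι → Type) [∀ i, Group (S i)]
    (f : ∀ i, G →* S i) (hf : ∀ i, Function.Surjective (f i)) (hN : ∀ i, NS (f i).ker)
    (hd : ∀ i j, i ≠ j → (f i).ker ≠ (f j).ker) (I : Finset ι) (s : ∀ i, S i) :
    ∃ x : G, ∀ i ∈ I, f i x = s i := by
  classical
  induction I using Finset.induction_on with
  | empty => exact ⟨1, fun i hi => absurd hi (Finset.notMem_empty i)⟩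
  | insert j I hj ih =>
    obtain ⟨x, hx⟩ := ih
    have h1 : ∃ y : G, (∀ i ∈ I, f i y = 1) ∧ f j y = (f j x)⁻¹ * s j := by
      -- the subgroup
      let R : Subgroup G := (I.image fun i => (f i).ker).inf id
      have hR : ∀ y, y ∈ R ↔ ∀ i ∈ I, f i y = 1 := by
        intro y
        change y ∈ (I.image fun i => (f i).ker).inf id ↔ _
        rw [Finset.inf_image]
        exact mem_inf_ker S f I y
      have hRn : R.Normal := by
        refine ⟨fun y hy z => ?_⟩
        rw [hR] at hy ⊢
        intro i hi
        rw [map_mul, map_mul, hy i hi, mul_one, map_inv, mul_inv_cancel]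
      have h2 : ¬ R ≤ (f j).ker := by
        intro h
        have h3 : (⊤ : Subgroup G) ≤ (f j).ker := by
          refine le_of_finset_inf_le (Z := (f j).ker) inferInstance
            (I.image fun i => (f i).ker) ?_ ⊤ inferInstance (inf_le_right.trans h)
          intro N hNm
          obtain ⟨i, hi, rfl⟩ := Finset.mem_image.1 hNm
          refine ⟨hN i, fun hle => ?_⟩
          have hij : i ≠ j := fun h => hj (h ▸ hi)
          rcases (hN j).max _ inferInstance hle with h4 | h4
          · exact hd i j hij h4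
          · obtain ⟨a, b, hab⟩ := (hN i).ncomm
            apply hab
            rw [h4]
            trivial
        obtain ⟨a, b, hab⟩ := (hN j).ncomm
        exact hab (h3 trivial)
      have h3 : R ⊔ (f j).ker = ⊤ := (hN j).sup_eq_top hRn h2
      obtain ⟨z, hz⟩ := hf j ((f j x)⁻¹ * s j)
      have h4 : z ∈ R ⊔ (f j).ker := by
        rw [h3]
        trivial
      obtain ⟨y, hy, k, hk, rfl⟩ := Subgroup.mem_sup_of_normal_right.1 h4
      refine ⟨y, (hR y).1 hy, ?_⟩
      rw [← hz, map_mul, MonoidHom.mem_ker.1 hk, mul_one]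
    obtain ⟨y, hy1, hy2⟩ := h1
    refine ⟨x * y, fun i hi => ?_⟩
    rcases Finset.mem_insert.1 hi with rfl | hi
    · rw [map_mul, hy2, mul_inv_cancel_left]
    · rw [map_mul, hy1 i hi, mul_one, hx i hi]

/-- The infinite version. -/
theorem independent_all {G ι : Type} [Group G] [TopologicalSpace G] [IsTopologicalGroup G]
    [CompactSpace G] (S : ι → Type) [∀ i, Group (S i)]
    (f : ∀ i, G →* S i) (hf : ∀ i, Function.Surjective (f i)) (hN : ∀ i, NS (f i).ker)
    (ho : ∀ i, IsOpen ((f i).ker : Set G))
    (hd : ∀ i j, i ≠ j → (f i).ker ≠ (f j).ker) (s : ∀ i, S i) :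
    ∃ x : G, ∀ i, f i x = s i := by
  classical
  have hcl : ∀ i, IsClosed {x : G | f i x = s i} := by
    intro i
    obtain ⟨y, hy⟩ := hf i (s i)
    have h1 : {x : G | f i x = s i} = (fun x => y⁻¹ * x) ⁻¹' ((f i).ker : Set G) := by
      ext x
      change f i x = s i ↔ f i (y⁻¹ * x) = 1
      rw [map_mul, map_inv, hy, inv_mul_eq_one, eq_comm]
    rw [h1]
    exact (Subgroup.isClosed_of_isOpen _ (ho i)).preimage (continuous_const.mul continuous_id)
  by_contra hc
  have h1 : (Set.univ : Set G) ⊆ ⋃ i, {x : G | f i x = s i}ᶜ := by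
    intro x _
    by_contra h2
    apply hc
    refine ⟨x, fun i => ?_⟩
    by_contra h3
    apply h2
    exact Set.mem_iUnion.2 ⟨i, h3⟩
  obtain ⟨I, hI⟩ := isCompact_univ.elim_finite_subcover _ (fun i => (hcl i).isOpen_compl) h1
  obtain ⟨x, hx⟩ := independent S f hf hN hd I s
  have h2 := hI (Set.mem_univ x)
  simp only [Set.mem_iUnion] at h2
  obtain ⟨i, hi, h3⟩ := h2
  exact h3 (hx i hi)

end Pool.Agent.H418.FA
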