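import Mathlib
import Pool.Agent.H418.FA.Main
import Pool.Agent.H418.FA.Prod

/-!
Sequences of alternating quotients which solve all embedding problems.
-/

set_option autoImplicit false

namespace Pool.Agent.H418.FA

open Pool.Agent.H391R2 Pool.Agent.H391R2.T4 Pool.Agent.Y793

section map

variable {Γ Γ' B B' : Type} [Group Γ] [Group Γ'] [Group B] [Group B']

/-- Functoriality of alternating fibre powers. -/
def altMap (α' : B' →* Γ') (α : B →* Γ) (β : B' →* B) (φ : Γ' →* Γ)
    (h : ∀ b, α (β b) = φ (α' b)) (n : ℕ) : AltEP α' n →* AltEP α n where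
  toFun x := ⟨(⟨fun i => β (x.1.1.left i), x.1.1.right⟩, φ x.1.2), by
    rw [mem_AltEP]
    refine ⟨fun i => ?_, ((mem_AltEP α' n _).1 x.2).2⟩
    change α (β (x.1.1.left i)) = φ x.1.2
    rw [h, ((mem_AltEP α' n _).1 x.2).1 i]⟩
  map_one' := by
    apply Subtype.ext
    apply Prod.ext
    · apply SemidirectProduct.ext
      · funext i
        exact map_one β
      · rfl
    · exact map_one φ
  map_mul' x y := by
    apply Subtype.ext
    apply Prod.ext
    · apply SemidirectProduct.ext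
      · funext i
        exact map_mul β _ _
      · rfl
    · exact map_mul φ _ _

theorem altMap_surjective (α' : B' →* Γ') (α : B →* Γ) (β : B' →* B) (φ : Γ' →* Γ)
    (h : ∀ b, α (β b) = φ (α' b)) (n : ℕ) (hφ : Function.Surjective φ)
    (hpb : ∀ (b : B) (γ : Γ'), α b = φ γ → ∃ b' : B', β b' = b ∧ α' b' = γ) :
    Function.Surjective (altMap α' α β φ h n) := by
  intro y
  have hy := (mem_AltEP α n _).1 y.2
  obtain ⟨γ, hγ⟩ := hφ y.1.2
  have h1 : ∀ i, ∃ b' : B', β b' = y.1.1.left i ∧ α' b' = γ := fun i =>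
    hpb _ _ ((hy.1 i).trans hγ.symm)
  choose b hb1 hb2 using h1
  refine ⟨⟨(⟨b, y.1.1.right⟩, γ), ?_⟩, ?_⟩
  · rw [mem_AltEP]
    exact ⟨hb2, hy.2⟩
  · apply Subtype.ext
    apply Prod.ext
    · apply SemidirectProduct.ext
      · funext i
        exact hb1 i
      · rfl
    · exact hγ

theorem altMap_right (α' : B' →* Γ') (α : B →* Γ) (β : B' →* B) (φ : Γ' →* Γ)
    (h : ∀ b, α (β b) = φ (α' b)) (n : ℕ) (x : AltEP α' n) :
    (altMap α' α β φ h n x).1.1.right = x.1.1.right := rfl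

theorem altMap_proj (α' : B' →* Γ') (α : B →* Γ) (β : B' →* B) (φ : Γ' →* Γ)
    (h : ∀ b, α (β b) = φ (α' b)) (n : ℕ) (x : AltEP α' n) :
    altProj α n (altMap α' α β φ h n x) = φ (altProj α' n x) := rfl

end map

/-- The homomorphism to the alternating group. -/
theorem exists_perm {G Γ B : Type} [Group G] [TopologicalSpace G] [IsTopologicalGroup G]
    [Group Γ] [Group B] (α : B →* Γ) (n : ℕ) (g : G →* AltEP α n) (hg : IsOpen (g.ker : Set G))
    (hgs : Function.Surjective g) : ∃ f : G →* alternatingGroup (Fin n),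
      Function.Surjective f ∧ IsOpen (f.ker : Set G) ∧
      ∀ x, (g x).1.1.right = (f x : Equiv.Perm (Fin n)) := by
  let f₀ : G →* Equiv.Perm (Fin n) :=
    (SemidirectProduct.rightHom.comp (MonoidHom.fst (Wr B n) Γ)).comp
      ((AltEP α n).subtype.comp g)
  have hf₀ : ∀ x, f₀ x = (g x).1.1.right := fun x => rfl
  have hmem : ∀ x, f₀ x ∈ alternatingGroup (Fin n) := by
    intro x
    rw [Equiv.Perm.mem_alternatingGroup, hf₀]
    exact ((mem_AltEP α n _).1 (g x).2).2
  let f : G →* alternatingGroup (Fin n) := f₀.codRestrict _ hmem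
  have hf : ∀ x, (f x : Equiv.Perm (Fin n)) = (g x).1.1.right := fun x => rfl
  refine ⟨f, ?_, ?_, fun x => rfl⟩
  · intro σ
    obtain ⟨x, hx⟩ := exists_mem α n σ.1 (Equiv.Perm.mem_alternatingGroup.1 σ.2)
    obtain ⟨y, hy⟩ := hgs x
    refine ⟨y, Subtype.ext ?_⟩
    rw [hf, hy, hx]
  · refine Subgroup.isOpen_mono (H₁ := g.ker) (fun y hy => ?_) hg
    rw [MonoidHom.mem_ker] at hy ⊢
    apply Subtype.ext
    rw [hf, hy]
    rfl

section seq

variable {G : Type} [Group G] [TopologicalSpace G] [IsTopologicalGroup G] [CompactSpace G]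

/-- Existence of the sequence. -/
theorem exists_alt_seq (D : Set ℕ) (hD : ∀ N : ℕ, AltSolv G (D ∩ {n | N < n}))
    (U : ℕ → Subgroup G) (hU : ∀ k, (U k).Normal ∧ IsOpen (U k : Set G))
    (hU2 : ∀ V : Subgroup G, IsOpen (V : Set G) → ∃ k, U k ≤ V) :
    ∃ (n : ℕ → ℕ) (f : ∀ i, G →* alternatingGroup (Fin (n i))), StrictMono n ∧
      (∀ i, n i ∈ D ∧ 5 ≤ n i) ∧ (∀ i, Function.Surjective (f i)) ∧
      (∀ i, IsOpen ((f i).ker : Set G)) ∧ Enough (Set.range fun i => (f i).ker) := by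
  classical
  have hUn : ∀ k, (U k).Normal := fun k => (hU k).1
  have hUo : ∀ k, IsOpen (U k : Set G) := fun k => (hU k).2
  have hfin : ∀ k, Finite (G ⧸ U k) := fun k => Subgroup.quotient_finite_of_isOpen _ (hUo k)
  let Task : Type := (p : ℕ × ℕ) × Subgroup (Equiv.Perm (Fin p.2) × (G ⧸ U p.1))
  have hct : Countable Task := by
    have h1 : ∀ p : ℕ × ℕ, Finite (Equiv.Perm (Fin p.2) × (G ⧸ U p.1)) := fun p =>
      inferInstance
    have h2 : ∀ p : ℕ × ℕ, Countable (Subgroup (Equiv.Perm (Fin p.2) × (G ⧸ U p.1))) :=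
      fun p => Finite.to_countable
    exact inferInstanceAs (Countable
      ((p : ℕ × ℕ) × Subgroup (Equiv.Perm (Fin p.2) × (G ⧸ U p.1))))
  have hne : Nonempty Task := ⟨⟨(0, 0), ⊤⟩⟩
  obtain ⟨T, hT⟩ := exists_surjective_nat Task
  let prj : ∀ t : Task, t.2 →* (G ⧸ U t.1.1) := fun t => (MonoidHom.snd _ _).comp t.2.subtype
  let State : Type := (n : ℕ) × (G →* alternatingGroup (Fin n))
  have step : ∀ (i N : ℕ), ∃ s : State, N < s.1 ∧ s.1 ∈ D ∧ 5 ≤ s.1 ∧ Function.Surjective s.2 ∧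
      IsOpen (s.2.ker : Set G) ∧ (Function.Surjective (prj (T i)) →
        ∃ g : G →* AltEP (prj (T i)) s.1, IsOpen (g.ker : Set G) ∧ Function.Surjective g ∧
          (∀ x, altProj (prj (T i)) s.1 (g x) = QuotientGroup.mk' (U (T i).1.1) x) ∧
          ∀ x, (g x).1.1.right = (s.2 x : Equiv.Perm (Fin s.1))) := by
    intro i N
    by_cases hs : Function.Surjective (prj (T i))
    · have hB : Finite (T i).2 := inferInstance
      have hΓ : Finite (G ⧸ U (T i).1.1) := inferInstance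
      obtain ⟨n, hn5, hnD, g, hg, hgs, hgq⟩ := hD N (G ⧸ U (T i).1.1) (T i).2
        (QuotientGroup.mk' (U (T i).1.1)) (by rw [QuotientGroup.ker_mk']; exact hUo _)
        (QuotientGroup.mk'_surjective _) (prj (T i)) hs
      obtain ⟨f, hf1, hf2, hf3⟩ := exists_perm (prj (T i)) n g hg hgs
      exact ⟨⟨n, f⟩, hnD.2, hnD.1, hn5, hf1, hf2, fun _ => ⟨g, hg, hgs, hgq, hf3⟩⟩
    · obtain ⟨n, hn5, hnD, g, hg, hgs, hgq⟩ := hD N Unit Unit 1 (by
          have h1 : (1 : G →* Unit).ker = ⊤ := by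
            ext x
            simp
          rw [h1]
          exact isOpen_univ) (fun _ => ⟨1, rfl⟩) (MonoidHom.id Unit) (fun x => ⟨x, rfl⟩)
      obtain ⟨f, hf1, hf2, hf3⟩ := exists_perm (MonoidHom.id Unit) n g hg hgs
      exact ⟨⟨n, f⟩, hnD.2, hnD.1, hn5, hf1, hf2, fun h => absurd h hs⟩
  choose nxt hn1 hn2 hn3 hn4 hn5 hn6 using step
  let s : ℕ → State := fun i => Nat.rec (nxt 0 0) (fun i t => nxt (i + 1) t.1) i
  have hs0 : ∀ i, ∃ N, s i = nxt i N := by
    intro i
    cases i with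
    | zero => exact ⟨0, rfl⟩
    | succ i => exact ⟨(s i).1, rfl⟩
  refine ⟨fun i => (s i).1, fun i => (s i).2, ?_, fun i => ?_, fun i => ?_, fun i => ?_, ?_⟩
  · exact strictMono_nat_of_lt_succ fun i => hn1 (i + 1) (s i).1
  · obtain ⟨N, hN⟩ := hs0 i
    change (s i).1 ∈ D ∧ 5 ≤ (s i).1
    rw [hN]
    exact ⟨hn2 i N, hn3 i N⟩
  · obtain ⟨N, hN⟩ := hs0 i
    change Function.Surjective (s i).2
    rw [hN]
    exact hn4 i N
  · obtain ⟨N, hN⟩ := hs0 i
    change IsOpen ((s i).2.ker : Set G)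
    rw [hN]
    exact hn5 i N
  · intro Γ B _ _ _ _ q hq hqs α hα
    let _ : Fintype B := Fintype.ofFinite B
    obtain ⟨k, hk⟩ := hU2 q.ker hq
    let φ : G ⧸ U k →* Γ := QuotientGroup.lift (U k) q hk
    have hφ : ∀ x, φ (QuotientGroup.mk x) = q x := fun x => rfl
    have hφs : Function.Surjective φ := fun γ => by
      obtain ⟨x, hx⟩ := hqs γ
      exact ⟨QuotientGroup.mk x, hx⟩
    let eA : B ≃ Fin (Fintype.card B) := Fintype.equivFin B
    let c : B →* Equiv.Perm (Fin (Fintype.card B)) :=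
      (eA.permCongrHom.toMonoidHom).comp (MulAction.toPermHom B B)
    have hc : Function.Injective c :=
      eA.permCongrHom.injective.comp (MulAction.toPerm_injective)
    let ce : B ≃* c.range := MonoidHom.ofInjective hc
    have hce : ∀ b, (ce b : Equiv.Perm (Fin (Fintype.card B))) = c b := fun b => rfl
    let P : Subgroup (Equiv.Perm (Fin (Fintype.card B)) × (G ⧸ U k)) :=
      { carrier := {p | ∃ b, c b = p.1 ∧ α b = φ p.2}
        one_mem' := ⟨1, map_one c, by rw [map_one]; exact (map_one φ).symm⟩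
        mul_mem' := by
          rintro x y ⟨b, hb1, hb2⟩ ⟨b', hb1', hb2'⟩
          refine ⟨b * b', ?_, ?_⟩
          · rw [map_mul, hb1, hb1']
            rfl
          · rw [map_mul, hb2, hb2']
            exact (map_mul φ _ _).symm
        inv_mem' := by
          rintro x ⟨b, hb1, hb2⟩
          refine ⟨b⁻¹, ?_, ?_⟩
          · rw [map_inv, hb1]
            rfl
          · rw [map_inv, hb2]
            exact (map_inv φ _).symm }
    have hP : ∀ p, p ∈ P ↔ ∃ b, c b = p.1 ∧ α b = φ p.2 := fun p => Iff.rfl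
    let β₀ : P →* c.range := ((MonoidHom.fst _ _).comp P.subtype).codRestrict c.range (by
      rintro ⟨p, b, hb1, hb2⟩
      exact ⟨b, hb1⟩)
    let β : P →* B := (ce.symm : c.range →* B).comp β₀
    have hβ : ∀ p : P, c (β p) = p.1.1 := by
      intro p
      have h1 : ce (β p) = β₀ p := ce.apply_symm_apply _
      exact congrArg Subtype.val h1
    obtain ⟨i, hi⟩ := hT ⟨(k, Fintype.card B), P⟩
    obtain ⟨N, hN⟩ := hs0 i
    have h6 := hn6 i N
    have h5 := hn3 i N
    rw [← hN] at h6 h5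
    have hker : (s i).2.ker ∈ (Set.range fun i => (s i).2.ker) := ⟨i, rfl⟩
    generalize s i = t at h6 hker h5
    rw [hi] at h6
    have hps : Function.Surjective (prj ⟨(k, Fintype.card B), P⟩) := by
      intro γ
      obtain ⟨b, hb⟩ := hα (φ γ)
      exact ⟨⟨(c b, γ), b, rfl, hb⟩, rfl⟩
    obtain ⟨g, hg, hgs, hgq, hgf⟩ := h6 hps
    have hcomm : ∀ p : P, α (β p) = φ ((prj ⟨(k, Fintype.card B), P⟩) p) := by
      rintro ⟨p, b, hb1, hb2⟩
      have h7 : β ⟨p, b, hb1, hb2⟩ = b := by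
        apply hc
        exact (hβ _).trans hb1.symm
      rw [h7]
      exact hb2
    let am := altMap (prj ⟨(k, Fintype.card B), P⟩) α β φ hcomm t.1
    have ham1 : Function.Surjective am := by
      refine altMap_surjective (prj ⟨(k, Fintype.card B), P⟩) α β φ hcomm t.1 hφs ?_
      intro b γ hbγ
      refine ⟨⟨(c b, γ), b, rfl, hbγ⟩, ?_, rfl⟩
      apply hc
      exact hβ _
    have ham2 : ∀ x, (am x).1.1.right = x.1.1.right := fun x => rfl
    have ham3 : ∀ x, altProj α t.1 (am x) = φ (altProj (prj ⟨(k, Fintype.card B), P⟩) t.1 x) :=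
      fun x => rfl
    clear_value am
    refine ⟨t.1, by omega, am.comp g, ?_, ham1.comp hgs, fun x => ?_, fun h hh => ?_⟩
    · refine Subgroup.isOpen_mono (H₁ := g.ker) (fun y hy => ?_) hg
      rw [MonoidHom.mem_ker] at hy ⊢
      rw [MonoidHom.comp_apply, hy, map_one]
    · rw [MonoidHom.comp_apply, ham3, hgq]
      exact hφ x
    · rw [MonoidHom.comp_apply, ham2, hgf]
      have h8 : h ∈ t.2.ker := (Subgroup.mem_sInf.1 hh) _ hker
      rw [MonoidHom.mem_ker.1 h8]
      rfl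

end seq

end Pool.Agent.H418.FA
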