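import Mathlib
import Pool.Agent.H418.FA.Seq
import Pool.Agent.H418.FA.Gen

/-!
Galois extensions whose group is a product of alternating groups and which have a free absolute
Galois group.
-/

set_option autoImplicit false

namespace Pool.Agent.H418.FA

open Topology Filter
open Pool.Agent.H391R2 Pool.Agent.H391R2.T4 Pool.Agent.Y793

/-- Large multiples of four in a rich set form a rich set. -/
theorem Rich.inter {D : Set ℕ} (hD : Rich D) (N : ℕ) : Rich ((D ∩ {n | 4 ∣ n}) ∩ {n | N < n}) := by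
  intro m hm
  obtain ⟨a, ha, hma, h⟩ := hD (4 * m) (by omega)
  refine ⟨a, ha, (dvd_mul_left m 4).trans hma, ?_⟩
  have h1 : {k : ℕ | a * (2 * k + 1) ∈ D} \ Set.Iic N ⊆
      {k : ℕ | a * (2 * k + 1) ∈ (D ∩ {n | 4 ∣ n}) ∩ {n | N < n}} := by
    rintro k ⟨hk1, hk2⟩
    rw [Set.mem_Iic, not_le] at hk2
    refine ⟨⟨hk1, ?_⟩, ?_⟩
    · exact ((dvd_mul_right 4 m).trans hma).trans (dvd_mul_right _ _)
    · change N < a * (2 * k + 1)
      have h2 : 1 * (2 * k + 1) ≤ a * (2 * k + 1) := Nat.mul_le_mul_right _ ha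
      omega
  exact (h.sdiff (Set.finite_Iic N)).mono h1

theorem altSimple (n : ℕ) (hn : 5 ≤ n) : IsSimpleGroup (alternatingGroup (Fin n)) :=
  alternatingGroup.isSimpleGroup (by simpa using hn)

theorem altNoncomm (n : ℕ) (hn : 5 ≤ n) : ∃ a b : alternatingGroup (Fin n), a * b ≠ b * a := by
  by_contra hc
  push Not at hc
  have h1 : Nontrivial (alternatingGroup (Fin n)) := (altSimple n hn).toNontrivial
  have h2 := alternatingGroup.center_eq_bot (α := Fin n) (by simpa using by omega)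
  obtain ⟨x, hx⟩ := exists_ne (1 : alternatingGroup (Fin n))
  apply hx
  have h3 : x ∈ Subgroup.center (alternatingGroup (Fin n)) := by
    rw [Subgroup.mem_center_iff]
    intro g
    exact hc g x
  rw [h2] at h3
  exact h3

theorem card_alt_lt {m n : ℕ} (hm : 5 ≤ m) (hmn : m < n) :
    Nat.card (alternatingGroup (Fin m)) < Nat.card (alternatingGroup (Fin n)) := by
  have h1 : Nontrivial (Fin m) := Fin.nontrivial_iff_two_le.2 (by omega)
  have h2 : Nontrivial (Fin n) := Fin.nontrivial_iff_two_le.2 (by omega)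
  have h3 := two_mul_nat_card_alternatingGroup (α := Fin m)
  have h4 := two_mul_nat_card_alternatingGroup (α := Fin n)
  rw [Nat.card_perm, Nat.card_eq_fintype_card (α := Fin _), Fintype.card_fin] at h3 h4
  have h5 := (Nat.factorial_lt (by omega : 0 < m)).2 hmn
  omega

/-- Homomorphisms onto alternating groups of different degrees have different kernels. -/
theorem ker_ne {G : Type} [Group G] {m n : ℕ} (hm : 5 ≤ m) (hmn : m < n)
    (f : G →* alternatingGroup (Fin m)) (hf : Function.Surjective f)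
    (g : G →* alternatingGroup (Fin n)) (hg : Function.Surjective g) : f.ker ≠ g.ker := by
  intro h
  have e₁ := QuotientGroup.quotientKerEquivOfSurjective f hf
  have e₂ := QuotientGroup.quotientKerEquivOfSurjective g hg
  have e : alternatingGroup (Fin m) ≃* alternatingGroup (Fin n) :=
    (e₁.symm.trans (QuotientGroup.quotientMulEquivOfEq h)).trans e₂
  have h1 := Nat.card_congr e.toEquiv
  have h2 := card_alt_lt hm hmn
  omega

theorem ker_ne' {G : Type} [Group G] (n : ℕ → ℕ) (hn : StrictMono n) (hn5 : ∀ i, 5 ≤ n i)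
    (f : ∀ i, G →* alternatingGroup (Fin (n i))) (hf : ∀ i, Function.Surjective (f i))
    (i j : ℕ) (hij : i ≠ j) : (f i).ker ≠ (f j).ker := by
  rcases lt_or_gt_of_ne hij with h | h
  · exact ker_ne (hn5 i) (hn h) _ (hf i) _ (hf j)
  · exact (ker_ne (hn5 j) (hn h) _ (hf j) _ (hf i)).symm

/-- Two generators. -/
theorem two_gen {P : Type} [Group P] [TopologicalSpace P] [IsTopologicalGroup P]
    [CompactSpace P] (n : ℕ → ℕ) (hn : StrictMono n) (hn5 : ∀ i, 5 ≤ n i)
    (hev : ∀ i, Even (n i)) (e : P ≃* ∀ i, alternatingGroup (Fin (n i)))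
    (he : ∀ i, IsOpen {σ : P | e σ i = 1})
    (hop : ∀ W : Set P, IsOpen W → (1 : P) ∈ W → ∃ V : Subgroup P, IsOpen (V : Set P) ∧
      (V : Set P) ⊆ W) :
    ∃ a b : P, (Subgroup.closure {a, b}).topologicalClosure = ⊤ := by
  classical
  have h1 := fun i => alt_two_gen (n i) (by have := hn5 i; omega) (hev i)
  choose a₀ b₀ hab using h1
  let a : P := e.symm a₀
  let b : P := e.symm b₀
  let C : Subgroup P := Subgroup.closure {a, b}
  let ev : ∀ i, P →* alternatingGroup (Fin (n i)) := fun i =>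
    (Pi.evalMonoidHom (fun i => alternatingGroup (Fin (n i))) i).comp
      (e : P →* ∀ i, alternatingGroup (Fin (n i)))
  have hev2 : ∀ i σ, ev i σ = e σ i := fun i σ => rfl
  let f : ∀ i, C →* alternatingGroup (Fin (n i)) := fun i => (ev i).comp C.subtype
  have hf : ∀ i, Function.Surjective (f i) := by
    intro i
    rw [← MonoidHom.range_eq_top]
    apply hab i
    · refine ⟨⟨a, Subgroup.subset_closure (by simp)⟩, ?_⟩
      change e a i = a₀ i
      change e (e.symm a₀) i = a₀ i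
      rw [MulEquiv.apply_symm_apply]
    · refine ⟨⟨b, Subgroup.subset_closure (by simp)⟩, ?_⟩
      change e (e.symm b₀) i = b₀ i
      rw [MulEquiv.apply_symm_apply]
  refine ⟨a, b, ?_⟩
  rw [eq_top_iff]
  intro σ _
  change σ ∈ closure (C : Set P)
  rw [mem_closure_iff]
  intro W hW hσW
  -- an open subgroup
  have hW1 : IsOpen ((fun x => σ * x) ⁻¹' W) := hW.preimage (continuous_const.mul continuous_id)
  obtain ⟨V, hVo, hV⟩ := hop _ hW1 (by
    change σ * 1 ∈ W
    rw [mul_one]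
    exact hσW)
  -- finitely many coordinates
  obtain ⟨T, hT, hTV⟩ := exists_finset (Set.range fun i => (ev i).ker) (by
      rintro _ ⟨i, rfl⟩
      exact he i) V hVo (by
      intro x hx
      have h2 : x = 1 := by
        apply e.injective
        rw [map_one]
        funext i
        have h3 := (Subgroup.mem_sInf.1 hx) _ ⟨i, rfl⟩
        exact h3
      rw [h2]
      exact V.one_mem)
  obtain ⟨I, hI⟩ : ∃ I : Finset ℕ, ∀ N ∈ T, ∃ i ∈ I, (ev i).ker = N := by
    have h2 : ∀ N : T, ∃ i, (ev i).ker = N.1 := fun N => hT N.2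
    choose j hj using h2
    exact ⟨Finset.univ.image j, fun N hN => ⟨j ⟨N, hN⟩, Finset.mem_image_of_mem _ (Finset.mem_univ _),
      hj _⟩⟩
  obtain ⟨c, hc⟩ := independent (fun i => alternatingGroup (Fin (n i))) f hf (fun i => by
      have := altSimple (n i) (hn5 i)
      exact NS.of_ker (altNoncomm (n i) (hn5 i)) (f i) (hf i)) (ker_ne' n hn hn5 f hf) I (e σ)
  refine ⟨c.1, ?_, c.2⟩
  have h2 : σ⁻¹ * c.1 ∈ V := by
    apply hTV
    have h3 : ∀ N ∈ T, σ⁻¹ * c.1 ∈ N := by
      intro N hN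
      obtain ⟨i, hi, rfl⟩ := hI N hN
      rw [MonoidHom.mem_ker, map_mul, map_inv]
      have h4 : ev i c.1 = e σ i := hc i hi
      rw [h4, hev2, inv_mul_cancel]
    clear hTV hT hI
    induction T using Finset.induction_on with
    | empty => trivial
    | insert N T _ ih =>
      rw [Finset.inf_insert]
      exact ⟨h3 N (Finset.mem_insert_self _ _),
        ih fun M hM => h3 M (Finset.mem_insert_of_mem hM)⟩
  have h3 := hV h2
  change σ * (σ⁻¹ * c.1) ∈ W at h3
  rwa [mul_inv_cancel_left] at h3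

/-- The field. -/
theorem exists_field (K Ω : Type) [Field K] [CharZero K] [Field Ω] [Algebra K Ω] [IsAlgClosed Ω]
    [IsGalois K Ω] [Countable Ω] (hK : HilbField K) (D : Set ℕ) (hD : Rich D) :
    ∃ (n : ℕ → ℕ) (F : IntermediateField K Ω) (e : (F ≃ₐ[K] F) ≃* ∀ i, alternatingGroup (Fin (n i))),
      StrictMono n ∧ (∀ i, n i ∈ D ∧ 5 ≤ n i) ∧ IsGalois K F ∧
      (∀ i, IsOpen {σ : F ≃ₐ[K] F | e σ i = 1}) ∧
      (∃ a b : F ≃ₐ[K] F, (Subgroup.closure {a, b}).topologicalClosure = ⊤) ∧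
      SolvesAll (Ω ≃ₐ[F] Ω) := by
  classical
  obtain ⟨U, hU, hU2⟩ := exists_countable_basis (K := K) (Ω := Ω)
  obtain ⟨n, f, hn, hnD, hf, hfo, hE⟩ := exists_alt_seq (G := (Ω ≃ₐ[K] Ω)) (D ∩ {n | 4 ∣ n})
    (fun N => altSolv K Ω hK _ (hD.inter N)) U hU hU2
  have hn5 : ∀ i, 5 ≤ n i := fun i => (hnD i).2
  -- the fields `M i`
  let M : ℕ → IntermediateField K Ω := fun i => IntermediateField.fixedField (f i).ker
  have hM : ∀ i, (M i).fixingSubgroup = (f i).ker := fun i =>
    InfiniteGalois.fixingSubgroup_fixedField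
      (⟨(f i).ker, Subgroup.isClosed_of_isOpen _ (hfo i)⟩ : ClosedSubgroup (Ω ≃ₐ[K] Ω))
  have hNS : ∀ i, NS (f i).ker := fun i => by
    have := altSimple (n i) (hn5 i)
    exact NS.of_ker (altNoncomm (n i) (hn5 i)) (f i) (hf i)
  have himg : IntermediateField.fixingSubgroup '' (Set.range M) = Set.range fun i => (f i).ker := by
    ext N
    constructor
    · rintro ⟨_, ⟨i, rfl⟩, rfl⟩
      exact ⟨i, (hM i).symm⟩
    · rintro ⟨i, rfl⟩
      exact ⟨M i, ⟨i, rfl⟩, hM i⟩
  let F : IntermediateField K Ω := sSup (Set.range M)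
  have hFix : F.fixingSubgroup = sInf (Set.range fun i => (f i).ker) := by
    rw [fixing_sSup, himg]
  have hsolv : SolvesAll (Ω ≃ₐ[F] Ω) := by
    obtain ⟨e, he, he'⟩ := exists_equiv F
    refine SolvesAll.of_equiv e he he' ?_
    rw [hFix]
    exact core3 _ (by
      rintro _ ⟨i, rfl⟩
      exact ⟨hNS i, hfo i⟩) hE
  -- the product
  let Φ : (Ω ≃ₐ[K] Ω) →* ∀ i, alternatingGroup (Fin (n i)) := MonoidHom.pi f
  have hΦ : Function.Surjective Φ := by
    intro s
    obtain ⟨x, hx⟩ := independent_all (fun i => alternatingGroup (Fin (n i))) f hf hNS hfo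
      (ker_ne' n hn hn5 f hf) s
    exact ⟨x, funext hx⟩
  have hΦk : Φ.ker = F.fixingSubgroup := by
    rw [hFix]
    ext x
    rw [Subgroup.mem_sInf, MonoidHom.mem_ker]
    constructor
    · rintro h _ ⟨i, rfl⟩
      exact congrFun h i
    · intro h
      funext i
      exact h _ ⟨i, rfl⟩
  have hFg : IsGalois K F := by
    rw [← InfiniteGalois.normal_iff_isGalois, ← hΦk]
    infer_instance
  have hrs : Function.Surjective (AlgEquiv.restrictNormalHom F : (Ω ≃ₐ[K] Ω) →* _) :=
    AlgEquiv.restrictNormalHom_surjective (F := K) (K₁ := F) Ω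
  have hrk : (AlgEquiv.restrictNormalHom F : (Ω ≃ₐ[K] Ω) →* (F ≃ₐ[K] F)).ker = Φ.ker := by
    rw [IntermediateField.restrictNormalHom_ker, hΦk]
  let e₁ := QuotientGroup.quotientKerEquivOfSurjective
    (AlgEquiv.restrictNormalHom F : (Ω ≃ₐ[K] Ω) →* (F ≃ₐ[K] F)) hrs
  let e₂ := QuotientGroup.quotientKerEquivOfSurjective Φ hΦ
  let e : (F ≃ₐ[K] F) ≃* ∀ i, alternatingGroup (Fin (n i)) :=
    (e₁.symm.trans (QuotientGroup.quotientMulEquivOfEq hrk)).trans e₂
  have he : ∀ x, e (AlgEquiv.restrictNormalHom F x) = Φ x := by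
    intro x
    have h1 : e₁.symm (AlgEquiv.restrictNormalHom F x) = QuotientGroup.mk x := by
      rw [MulEquiv.symm_apply_eq]
      rfl
    change e₂ (QuotientGroup.quotientMulEquivOfEq hrk
      (e₁.symm (AlgEquiv.restrictNormalHom F x))) = _
    rw [h1]
    rfl
  have hopen : ∀ i, IsOpen {σ : F ≃ₐ[K] F | e σ i = 1} := by
    intro i
    have hq : IsQuotientMap (AlgEquiv.restrictNormalHom F : (Ω ≃ₐ[K] Ω) → (F ≃ₐ[K] F)) :=
      IsQuotientMap.of_surjective_continuous hrs
        (InfiniteGalois.restrictNormalHom_continuous F)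
    rw [← hq.isOpen_preimage]
    have h1 : (AlgEquiv.restrictNormalHom F : (Ω ≃ₐ[K] Ω) → (F ≃ₐ[K] F)) ⁻¹'
        {σ : F ≃ₐ[K] F | e σ i = 1} = ((f i).ker : Set (Ω ≃ₐ[K] Ω)) := by
      ext x
      change e (AlgEquiv.restrictNormalHom F x) i = 1 ↔ f i x = 1
      rw [he]
      rfl
    rw [h1]
    exact hfo i
  refine ⟨n, F, e, hn, fun i => ⟨(hnD i).1.1, (hnD i).2⟩, hFg, hopen, ?_, hsolv⟩
  refine two_gen n hn hn5 (fun i => ?_) e hopen exists_open
  obtain ⟨c, hc⟩ := (hnD i).1.2
  exact ⟨2 * c, by omega⟩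

end Pool.Agent.H418.FA
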