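import Mathlib
import Pool.Agent.H418.FA.Two

/-!
Topologically finitely generated Galois groups have finitely many open subgroups of each index.
-/

set_option autoImplicit false

namespace Pool.Agent.H418.FA

open Topology Filter

theorem finite_index {P : Type} [Group P] [TopologicalSpace P] [IsTopologicalGroup P] (a b : P)
    (hab : (Subgroup.closure {a, b}).topologicalClosure = ⊤) (d : ℕ) (hd : d ≠ 0) :
    {V : Subgroup P | IsOpen (V : Set P) ∧ V.index = d}.Finite := by
  classical
  let X := {V : Subgroup P | IsOpen (V : Set P) ∧ V.index = d}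
  have hfin : ∀ V : X, Finite (P ⧸ V.1) := fun V => by
    apply Nat.finite_of_card_ne_zero
    change V.1.index ≠ 0
    rw [V.2.2]
    exact hd
  have hcard : ∀ V : X, Nat.card (P ⧸ V.1) = d := fun V => V.2.2
  have heq : ∀ V : X, Nonempty (P ⧸ V.1 ≃ Fin d) := fun V => by
    have := hfin V
    exact ⟨Finite.equivFinOfCardEq (hcard V)⟩
  let ε : ∀ V : X, P ⧸ V.1 ≃ Fin d := fun V => Classical.choice (heq V)
  let ρ : ∀ V : X, P →* Equiv.Perm (Fin d) := fun V =>
    ((ε V).permCongrHom.toMonoidHom).comp (MulAction.toPermHom P (P ⧸ V.1))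
  have hρ : ∀ (V : X) (g : P), ρ V g (ε V (QuotientGroup.mk 1)) = ε V (QuotientGroup.mk g) := by
    intro V g
    change ε V (g • (ε V).symm (ε V (QuotientGroup.mk 1))) = _
    rw [Equiv.symm_apply_apply]
    congr 1
    change (QuotientGroup.mk (g * 1) : P ⧸ V.1) = _
    rw [mul_one]
  have hmem : ∀ (V : X) (g : P), g ∈ V.1 ↔
      ρ V g (ε V (QuotientGroup.mk 1)) = ε V (QuotientGroup.mk 1) := by
    intro V g
    rw [hρ, (ε V).apply_eq_iff_eq, eq_comm, QuotientGroup.eq, inv_one, one_mul]
  have hker : ∀ V : X, IsOpen ((ρ V).ker : Set P) := by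
    intro V
    have h1 : (ρ V).ker = V.1.normalCore := by
      rw [Subgroup.normalCore_eq_ker]
      ext g
      rw [MonoidHom.mem_ker, MonoidHom.mem_ker]
      change (ε V).permCongrHom (MulAction.toPermHom P (P ⧸ V.1) g) = 1 ↔ _
      rw [map_eq_one_iff _ (ε V).permCongrHom.injective]
    rw [h1]
    have h2 : V.1.FiniteIndex := ⟨by rw [V.2.2]; exact hd⟩
    have h3 : IsClosed (V.1 : Set P) := Subgroup.isClosed_of_isOpen _ V.2.1
    exact Subgroup.isOpen_of_isClosed_of_finiteIndex _ (Subgroup.normalCore_isClosed _ h3)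
  let inv : X → Equiv.Perm (Fin d) × Equiv.Perm (Fin d) × Fin d := fun V =>
    (ρ V a, ρ V b, ε V (QuotientGroup.mk 1))
  have hinj : Function.Injective inv := by
    intro V W h
    have h1 : ρ V a = ρ W a := congrArg Prod.fst h
    have h2 : ρ V b = ρ W b := congrArg (fun t => t.2.1) h
    have h3 : ε V (QuotientGroup.mk 1) = ε W (QuotientGroup.mk 1) := congrArg (fun t => t.2.2) h
    have h4 : Subgroup.closure {a, b} ≤ (ρ V).eqLocus (ρ W) := by
      rw [Subgroup.closure_le]
      rintro x (rfl | rfl)
      · exact h1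
      · exact h2
    have h5 : ρ V = ρ W := by
      ext1 g
      have hg : g ∈ closure ((Subgroup.closure {a, b} : Subgroup P) : Set P) := by
        have h6 : g ∈ (Subgroup.closure {a, b}).topologicalClosure := by
          rw [hab]
          trivial
        exact h6
      rw [mem_closure_iff] at hg
      have hW : IsOpen ((fun x => g⁻¹ * x) ⁻¹' (((ρ V).ker ⊓ (ρ W).ker : Subgroup P) : Set P)) :=
        ((hker V).inter (hker W)).preimage (continuous_const.mul continuous_id)
      obtain ⟨c, hc1, hc2⟩ := hg _ hW (by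
        change g⁻¹ * g ∈ ((ρ V).ker ⊓ (ρ W).ker : Subgroup P)
        rw [inv_mul_cancel]
        exact Subgroup.one_mem _)
      have h7 : ρ V (g⁻¹ * c) = 1 := hc1.1
      have h8 : ρ W (g⁻¹ * c) = 1 := hc1.2
      rw [map_mul, map_inv, inv_mul_eq_one] at h7 h8
      rw [h7, h8]
      exact h4 hc2
    apply Subtype.ext
    ext g
    rw [hmem V g, hmem W g, h5, h3]
  have h9 : Finite X := Finite.of_injective inv hinj
  exact Set.toFinite X

theorem finite_subfields {K F : Type} [Field K] [Field F] [Algebra K F] [IsGalois K F]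
    (a b : F ≃ₐ[K] F) (hab : (Subgroup.closure {a, b}).topologicalClosure = ⊤) (d : ℕ) :
    {E : IntermediateField K F | FiniteDimensional K E ∧ Module.finrank K E = d}.Finite := by
  rcases Nat.eq_zero_or_pos d with rfl | hd
  · refine Set.Finite.subset Set.finite_empty ?_
    rintro E ⟨h1, h2⟩
    exact absurd h2 (Module.finrank_pos (R := K) (M := E)).ne'
  · have h1 := finite_index a b hab d hd.ne'
    refine Set.Finite.of_finite_image (f := IntermediateField.fixingSubgroup) (h1.subset ?_) ?_
    · rintro _ ⟨E, ⟨hE1, hE2⟩, rfl⟩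
      exact ⟨IntermediateField.fixingSubgroup_isOpen E, by
        rw [← IntermediateField.finrank_eq_fixingSubgroup_index, hE2]⟩
    · intro E _ E' _ h
      have h2 : IntermediateField.fixedField E.fixingSubgroup =
        IntermediateField.fixedField E'.fixingSubgroup := congrArg _ h
      rwa [InfiniteGalois.fixedField_fixingSubgroup, InfiniteGalois.fixedField_fixingSubgroup] at h2

end Pool.Agent.H418.FA
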