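import Mathlib
import Pool.Agent.H418.FA.Fin

/-!
Embedding problems over composita: a diamond argument.
-/

set_option autoImplicit false

namespace Pool.Agent.H418.FA

open Topology Filter
open Pool.Agent.H391R2 Pool.Agent.H391R2.T4 Pool.Agent.Y793

/-- Commutators have prescribed coordinates. -/
theorem exists_coord {G Γ B : Type} [Group G] [Group Γ] [Group B] (α : B →* Γ) (n : ℕ)
    (hn : 3 ≤ n) (g : G →* AltEP α n) (hgs : Function.Surjective g) (H R : Subgroup G)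
    (hR : R.Normal) (hR1 : ∃ r ∈ R, (g r).1.1.right ≠ 1)
    (hR2 : ∀ r ∈ R, (g r).1.1.right = 1 → r ∈ H) (i₀ : Fin n) (c : α.ker) :
    ∃ h ∈ H, (g h).1.1.left i₀ = c := by
  classical
  obtain ⟨r₀, hr₀, hσ⟩ := hR1
  obtain ⟨j, hj⟩ : ∃ j, (g r₀).1.1.right j ≠ j := by
    by_contra hc
    push Not at hc
    exact hσ (Equiv.ext hc)
  obtain ⟨τ, hτ, hτj⟩ := exists_even n hn j i₀
  obtain ⟨y, hy⟩ := exists_mem α n τ hτ
  obtain ⟨t, ht⟩ := hgs y
  obtain ⟨r, hr⟩ : ∃ r, r = t * r₀ * t⁻¹ := ⟨_, rfl⟩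
  have hrR : r ∈ R := by
    rw [hr]
    exact hR.conj_mem _ hr₀ t
  have hri : (g r).1.1.right⁻¹ i₀ ≠ i₀ := by
    have h1 : (g r).1.1.right = τ * (g r₀).1.1.right * τ⁻¹ := by
      rw [hr, map_mul, map_mul, map_inv, ht]
      change y.1.1.right * (g r₀).1.1.right * y.1.1.right⁻¹ = _
      rw [hy]
    intro h2
    have h3 : i₀ = (g r).1.1.right i₀ := Equiv.Perm.inv_eq_iff_eq.1 h2
    have h4 : τ⁻¹ i₀ = j := by rw [Equiv.Perm.inv_eq_iff_eq, hτj]
    rw [h1] at h3
    change i₀ = τ ((g r₀).1.1.right (τ⁻¹ i₀)) at h3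
    rw [h4] at h3
    exact hj (τ.injective (hτj.trans h3)).symm
  let b : Fin n → α.ker := Pi.mulSingle i₀ c
  obtain ⟨u, hu⟩ := hgs (inK α n b)
  have h6 : g (u * (r * u⁻¹ * r⁻¹)) = inK α n b * (g r * inK α n b⁻¹ * (g r)⁻¹) := by
    rw [map_mul, map_mul, map_mul, map_inv, map_inv, hu, map_inv (inK α n)]
  refine ⟨u * (r * u⁻¹ * r⁻¹), hR2 _ ?_ ?_, ?_⟩
  · have h5 : u * (r * u⁻¹ * r⁻¹) = (u * r * u⁻¹) * r⁻¹ := by group
    rw [h5]
    exact R.mul_mem (hR.conj_mem _ hrR u) (R.inv_mem hrR)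
  · rw [h6]
    have h7 := (mem_range_inK α n _).1 (conj_inK_mem α n (g r) b⁻¹)
    change (inK α n b).1.1.right * (g r * inK α n b⁻¹ * (g r)⁻¹).1.1.right = 1
    rw [h7.1, inK_right, mul_one]
  · rw [h6]
    change ((inK α n b).1.1 * (g r * inK α n b⁻¹ * (g r)⁻¹).1.1).left i₀ = c
    rw [wr_mul_left, inK_right, inv_one, Equiv.Perm.coe_one, id, conj_inK, inK_left]
    have h8 : b⁻¹ ((g r).1.1.right⁻¹ i₀) = 1 := by
      rw [Pi.inv_apply]
      change ((Pi.mulSingle i₀ c : Fin n → α.ker) ((g r).1.1.right⁻¹ i₀))⁻¹ = 1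
      rw [Pi.mulSingle_eq_of_ne hri, inv_one]
    have h9 : b i₀ = c := by
      change (Pi.mulSingle i₀ c : Fin n → α.ker) i₀ = c
      rw [Pi.mulSingle_eq_same]
    rw [h8, h9, Subgroup.coe_one, mul_one, mul_inv_cancel, mul_one]

/-- The homomorphism over `H`. -/
theorem core2H {G : Type} [Group G] [TopologicalSpace G] [IsTopologicalGroup G] [CompactSpace G]
    (H : Subgroup G)
    {Γ B : Type} [Group Γ] [Group B] (q : G →* Γ) (Δ : Subgroup Γ)
    (hΔ : ∀ γ, γ ∈ Δ ↔ ∃ h ∈ H, q h = γ) (α : B →* Δ) (hα : Function.Surjective α)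
    (n : ℕ) (hn : 3 ≤ n) (g : G →* AltEP (indProj Δ α) n) (hg : IsOpen (g.ker : Set G))
    (hgs : Function.Surjective g) (hgq : ∀ x, altProj (indProj Δ α) n (g x) = q x)
    (hH : ∀ h ∈ H, (g h).1.1.right = 1) (R : Subgroup G) (hR : R.Normal)
    (hR1 : ∃ r ∈ R, (g r).1.1.right ≠ 1) (hR2 : ∀ r ∈ R, (g r).1.1.right = 1 → r ∈ H) :
    ∃ ψ : H →* B, IsOpen (ψ.ker : Set H) ∧
      Function.Surjective ψ ∧ ∀ x, (α (ψ x) : Γ) = q x := by
  have hq : ∀ x : G, (g x).1.2 = q x := hgq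
  let i₀ : Fin n := ⟨0, by omega⟩
  have hcond : ∀ x : G, indProj Δ α ((g x).1.1.left i₀) = q x := by
    intro x
    rw [((mem_AltEP _ n _).1 (g x).2).1 i₀, hq]
  have hmem : ∀ x : H, indProj Δ α ((g x).1.1.left i₀) ∈ Δ := by
    intro x
    rw [hcond, hΔ]
    exact ⟨x, x.2, rfl⟩
  let ψ : H →* B :=
    { toFun := fun x => ev Δ α ((g x).1.1.left i₀)
      map_one' := by
        change ev Δ α ((g ((1 : H) : G)).1.1.left i₀) = 1
        rw [Subgroup.coe_one, map_one]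
        rfl
      map_mul' := by
        intro x y
        change ev Δ α ((g ((x * y : H) : G)).1.1.left i₀) = _
        rw [Subgroup.coe_mul, map_mul]
        change ev Δ α (((g x).1.1 * (g y).1.1).left i₀) = _
        rw [wr_mul_left, hH x x.2]
        change ev Δ α ((g x).1.1.left i₀ * (g y).1.1.left i₀) = _
        rw [ev_mul Δ α _ _ (hmem x)] }
  refine ⟨ψ, ?_, ?_, ?_⟩
  · refine Subgroup.isOpen_mono (H₁ := g.ker.comap H.subtype) ?_ ?_
    · intro x hx
      rw [Subgroup.mem_comap, MonoidHom.mem_ker] at hx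
      rw [MonoidHom.mem_ker]
      change ev Δ α ((g (H.subtype x)).1.1.left i₀) = 1
      rw [hx]
      rfl
    · exact hg.preimage continuous_subtype_val
  · intro b
    obtain ⟨w, hw1, hw2⟩ := exists_ind_ev Δ α hα b
    obtain ⟨h, hh, hh2⟩ := (hΔ (α b)).1 (α b).2
    have hc : w * ((g h).1.1.left i₀)⁻¹ ∈ (indProj Δ α).ker := by
      rw [MonoidHom.mem_ker, map_mul, map_inv, hcond, hw1, hh2, mul_inv_cancel]
    obtain ⟨h₁, hh₁, h3⟩ := exists_coord (indProj Δ α) n hn g hgs H R hR hR1 hR2 i₀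
      ⟨w * ((g h).1.1.left i₀)⁻¹, hc⟩
    refine ⟨⟨h₁ * h, H.mul_mem hh₁ hh⟩, ?_⟩
    change ev Δ α ((g (h₁ * h)).1.1.left i₀) = b
    rw [map_mul]
    change ev Δ α (((g h₁).1.1 * (g h).1.1).left i₀) = b
    rw [wr_mul_left, hH h₁ hh₁, h3, inv_one, Equiv.Perm.coe_one, id, inv_mul_cancel_right]
    exact hw2
  · intro x
    change (α (ev Δ α ((g x).1.1.left i₀)) : Γ) = q x
    rw [α_ev Δ α _ (hmem x), hcond]

/-- The subgroup `H` is small enough: for every embedding problem for `G` there is an alternating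
fibre power which has a proper solution, such that the homomorphism `p` to the alternating group is
trivial on `H` and `H` contains `R ∩ ker p` for some normal subgroup `R` not contained in the
kernel of `p`. -/
def EnoughH {G : Type} [Group G] [TopologicalSpace G] (H : Subgroup G) : Prop :=
  ∀ (Γ B : Type) [Group Γ] [Finite Γ] [Group B] [Finite B] (q : G →* Γ),
    IsOpen (q.ker : Set G) → Function.Surjective q → ∀ α : B →* Γ, Function.Surjective α →
    ∃ n, 3 ≤ n ∧ ∃ g : G →* AltEP α n, IsOpen (g.ker : Set G) ∧ Function.Surjective g ∧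
      (∀ x, altProj α n (g x) = q x) ∧ (∀ h ∈ H, (g h).1.1.right = 1) ∧
      ∃ R : Subgroup G, R.Normal ∧ (∃ r ∈ R, (g r).1.1.right ≠ 1) ∧
        ∀ r ∈ R, (g r).1.1.right = 1 → r ∈ H

theorem core3H {G : Type} [Group G] [TopologicalSpace G] [IsTopologicalGroup G] [CompactSpace G]
    [TotallyDisconnectedSpace G]
    (H : Subgroup G) (hE : EnoughH H) :
    SolvesAll H := by
  classical
  intro Γ₁ B₁ _ _ _ _ f hf hfs α₁ hα₁
  -- the open normal subgroup `U`
  obtain ⟨V, hV, hVf⟩ := isOpen_induced_iff.1 hf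
  have h1V : (1 : G) ∈ V := by
    have h1 : (1 : H) ∈ (Subtype.val ⁻¹' V : Set H) := by
      rw [hVf]
      exact f.ker.one_mem
    exact h1
  obtain ⟨U, hU⟩ := ProfiniteGrp.exist_openNormalSubgroup_sub_open_nhds_of_one hV h1V
  have hUn : (U : Subgroup G).Normal := U.isNormal'
  have hUo : IsOpen ((U : Subgroup G) : Set G) := U.isOpen'
  have hUf : ∀ h : H, (h : G) ∈ (U : Subgroup G) → f h = 1 := by
    intro h hh
    have h1 : h ∈ (Subtype.val ⁻¹' V : Set H) := hU hh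
    rw [hVf] at h1
    exact h1
  let q : G →* G ⧸ (U : Subgroup G) := QuotientGroup.mk' (U : Subgroup G)
  have hqk : q.ker = (U : Subgroup G) := QuotientGroup.ker_mk' _
  have hqs : Function.Surjective q := QuotientGroup.mk'_surjective _
  have hfin : Finite (G ⧸ (U : Subgroup G)) := Subgroup.quotient_finite_of_isOpen _ hUo
  let Δ : Subgroup (G ⧸ (U : Subgroup G)) := H.map q
  let qH : H →* Δ := q.subgroupMap H
  have hqHs : Function.Surjective qH := q.subgroupMap_surjective H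
  have hqHv : ∀ x : H, (qH x : G ⧸ (U : Subgroup G)) = q x := fun x => rfl
  have hker : qH.ker ≤ f.ker := by
    intro x hx
    rw [MonoidHom.mem_ker] at hx ⊢
    apply hUf
    rw [← hqk, MonoidHom.mem_ker, ← hqHv, hx]
    rfl
  let φ : Δ →* Γ₁ := qH.liftOfSurjective hqHs ⟨f, hker⟩
  have hφ : ∀ x, φ (qH x) = f x := fun x =>
    MonoidHom.liftOfRightInverse_comp_apply qH _ (Function.rightInverse_surjInv hqHs) ⟨f, hker⟩ x
  -- the pullback
  let P : Subgroup (B₁ × Δ) := (α₁.comp (MonoidHom.fst B₁ Δ)).eqLocus (φ.comp (MonoidHom.snd B₁ Δ))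
  have hP : ∀ p : B₁ × Δ, p ∈ P ↔ α₁ p.1 = φ p.2 := fun p => Iff.rfl
  let α : P →* Δ := (MonoidHom.snd B₁ Δ).comp P.subtype
  have hα : Function.Surjective α := by
    intro δ
    obtain ⟨b, hb⟩ := hα₁ (φ δ)
    exact ⟨⟨(b, δ), hb⟩, rfl⟩
  have hΔ : ∀ γ, γ ∈ Δ ↔ ∃ h ∈ H, q h = γ := fun γ => Subgroup.mem_map
  obtain ⟨n, hn, g, hgo, hgs, hgq, hgH, R, hR, hR1, hR2⟩ := hE (G ⧸ (U : Subgroup G)) (Ind Δ α) q
    (by rw [hqk]; exact hUo) hqs (indProj Δ α) (fun γ => exists_ind Δ α hα γ)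
  obtain ⟨ψ, h1, h2, h3⟩ := core2H H q Δ hΔ α hα n hn g hgo hgs hgq hgH R hR hR1 hR2
  refine ⟨(MonoidHom.fst B₁ Δ).comp (P.subtype.comp ψ), ?_, ?_, ?_⟩
  · refine Subgroup.isOpen_mono (H₁ := ψ.ker) ?_ h1
    intro x hx
    rw [MonoidHom.mem_ker] at hx ⊢
    rw [MonoidHom.comp_apply, MonoidHom.comp_apply, hx, map_one, map_one]
  · intro b
    obtain ⟨x, hx⟩ := hfs (α₁ b)
    have h4 : α₁ b = φ (qH x) := by rw [hφ, hx]
    obtain ⟨y, hy⟩ := h2 ⟨(b, qH x), h4⟩
    refine ⟨y, ?_⟩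
    rw [MonoidHom.comp_apply, MonoidHom.comp_apply, hy]
    rfl
  · intro x
    have h4 : α₁ (ψ x).1.1 = φ (ψ x).1.2 := (ψ x).2
    change α₁ (ψ x).1.1 = f x
    rw [h4]
    have h5 : (ψ x).1.2 = qH x := by
      apply Subtype.ext
      rw [hqHv]
      exact h3 x
    rw [h5, hφ]

/-- The sequence of homomorphisms to alternating groups solves all embedding problems for
alternating fibre powers, infinitely often. -/
def EnoughSeq {G : Type} [Group G] [TopologicalSpace G] (n : ℕ → ℕ)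
    (f : ∀ i, G →* alternatingGroup (Fin (n i))) : Prop :=
  ∀ (Γ B : Type) [Group Γ] [Finite Γ] [Group B] [Finite B] (q : G →* Γ),
    IsOpen (q.ker : Set G) → Function.Surjective q → ∀ α : B →* Γ, Function.Surjective α →
    ∀ m : ℕ, ∃ i, m ≤ i ∧ ∃ g : G →* AltEP α (n i), IsOpen (g.ker : Set G) ∧
      Function.Surjective g ∧ (∀ x, altProj α (n i) (g x) = q x) ∧
      ∀ x, (g x).1.1.right = (f i x : Equiv.Perm (Fin (n i)))

section seq2

variable {G : Type} [Group G] [TopologicalSpace G] [IsTopologicalGroup G] [CompactSpace G]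

/-- Existence of the sequence. -/
theorem exists_alt_seq2 (D : Set ℕ) (hD : ∀ N : ℕ, AltSolv G (D ∩ {n | N < n}))
    (U : ℕ → Subgroup G) (hU : ∀ k, (U k).Normal ∧ IsOpen (U k : Set G))
    (hU2 : ∀ V : Subgroup G, IsOpen (V : Set G) → ∃ k, U k ≤ V) :
    ∃ (n : ℕ → ℕ) (f : ∀ i, G →* alternatingGroup (Fin (n i))), StrictMono n ∧
      (∀ i, n i ∈ D ∧ 5 ≤ n i) ∧ (∀ i, Function.Surjective (f i)) ∧
      (∀ i, IsOpen ((f i).ker : Set G)) ∧ EnoughSeq n f := by
  classical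
  have hUn : ∀ k, (U k).Normal := fun k => (hU k).1
  have hUo : ∀ k, IsOpen (U k : Set G) := fun k => (hU k).2
  have hfin : ∀ k, Finite (G ⧸ U k) := fun k => Subgroup.quotient_finite_of_isOpen _ (hUo k)
  let Task : Type := (p : ℕ × ℕ) × Subgroup (Equiv.Perm (Fin p.2) × (G ⧸ U p.1))
  have hct : Countable Task := by
    have h1 : ∀ p : ℕ × ℕ, Finite (Equiv.Perm (Fin p.2) × (G ⧸ U p.1)) := fun p =>
      inferInstance
    have h2 : ∀ p : ℕ × ℕ, Countable (Subgroup (Equiv.Perm (Fin p.2) × (G ⧸ U p.1))) :=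
      fun p => Finite.to_countable
    exact inferInstanceAs (Countable
      ((p : ℕ × ℕ) × Subgroup (Equiv.Perm (Fin p.2) × (G ⧸ U p.1))))
  have hne : Nonempty Task := ⟨⟨(0, 0), ⊤⟩⟩
  obtain ⟨T₀, hT₀⟩ := exists_surjective_nat Task
  obtain ⟨T, hT⟩ : ∃ T : ℕ → Task, ∀ t m, ∃ i, m ≤ i ∧ T i = t := by
    refine ⟨fun i => T₀ (Nat.unpair i).2, fun t m => ?_⟩
    obtain ⟨k, hk⟩ := hT₀ t
    refine ⟨Nat.pair m k, Nat.left_le_pair m k, ?_⟩
    change T₀ (Nat.unpair (Nat.pair m k)).2 = t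
    rw [Nat.unpair_pair, hk]
  let prj : ∀ t : Task, t.2 →* (G ⧸ U t.1.1) := fun t => (MonoidHom.snd _ _).comp t.2.subtype
  let State : Type := (n : ℕ) × (G →* alternatingGroup (Fin n))
  have step : ∀ (i N : ℕ), ∃ s : State, N < s.1 ∧ s.1 ∈ D ∧ 5 ≤ s.1 ∧ Function.Surjective s.2 ∧
      IsOpen (s.2.ker : Set G) ∧ (Function.Surjective (prj (T i)) →
        ∃ g : G →* AltEP (prj (T i)) s.1, IsOpen (g.ker : Set G) ∧ Function.Surjective g ∧
          (∀ x, altProj (prj (T i)) s.1 (g x) = QuotientGroup.mk' (U (T i).1.1) x) ∧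
          ∀ x, (g x).1.1.right = (s.2 x : Equiv.Perm (Fin s.1))) := by
    intro i N
    by_cases hs : Function.Surjective (prj (T i))
    · have hB : Finite (T i).2 := inferInstance
      have hΓ : Finite (G ⧸ U (T i).1.1) := inferInstance
      obtain ⟨n, hn5, hnD, g, hg, hgs, hgq⟩ := hD N (G ⧸ U (T i).1.1) (T i).2
        (QuotientGroup.mk' (U (T i).1.1)) (by rw [QuotientGroup.ker_mk']; exact hUo _)
        (QuotientGroup.mk'_surjective _) (prj (T i)) hs
      obtain ⟨f, hf1, hf2, hf3⟩ := exists_perm (prj (T i)) n g hg hgs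
      exact ⟨⟨n, f⟩, hnD.2, hnD.1, hn5, hf1, hf2, fun _ => ⟨g, hg, hgs, hgq, hf3⟩⟩
    · obtain ⟨n, hn5, hnD, g, hg, hgs, hgq⟩ := hD N Unit Unit 1 (by
          have h1 : (1 : G →* Unit).ker = ⊤ := by
            ext x
            simp
          rw [h1]
          exact isOpen_univ) (fun _ => ⟨1, rfl⟩) (MonoidHom.id Unit) (fun x => ⟨x, rfl⟩)
      obtain ⟨f, hf1, hf2, hf3⟩ := exists_perm (MonoidHom.id Unit) n g hg hgs
      exact ⟨⟨n, f⟩, hnD.2, hnD.1, hn5, hf1, hf2, fun h => absurd h hs⟩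
  choose nxt hn1 hn2 hn3 hn4 hn5 hn6 using step
  let s : ℕ → State := fun i => Nat.rec (nxt 0 0) (fun i t => nxt (i + 1) t.1) i
  have hs0 : ∀ i, ∃ N, s i = nxt i N := by
    intro i
    cases i with
    | zero => exact ⟨0, rfl⟩
    | succ i => exact ⟨(s i).1, rfl⟩
  refine ⟨fun i => (s i).1, fun i => (s i).2, ?_, fun i => ?_, fun i => ?_, fun i => ?_, ?_⟩
  · exact strictMono_nat_of_lt_succ fun i => hn1 (i + 1) (s i).1
  · obtain ⟨N, hN⟩ := hs0 i
    change (s i).1 ∈ D ∧ 5 ≤ (s i).1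
    rw [hN]
    exact ⟨hn2 i N, hn3 i N⟩
  · obtain ⟨N, hN⟩ := hs0 i
    change Function.Surjective (s i).2
    rw [hN]
    exact hn4 i N
  · obtain ⟨N, hN⟩ := hs0 i
    change IsOpen ((s i).2.ker : Set G)
    rw [hN]
    exact hn5 i N
  · intro Γ B _ _ _ _ q hq hqs α hα m
    let _ : Fintype B := Fintype.ofFinite B
    obtain ⟨k, hk⟩ := hU2 q.ker hq
    let φ : G ⧸ U k →* Γ := QuotientGroup.lift (U k) q hk
    have hφ : ∀ x, φ (QuotientGroup.mk x) = q x := fun x => rfl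
    have hφs : Function.Surjective φ := fun γ => by
      obtain ⟨x, hx⟩ := hqs γ
      exact ⟨QuotientGroup.mk x, hx⟩
    let eA : B ≃ Fin (Fintype.card B) := Fintype.equivFin B
    let c : B →* Equiv.Perm (Fin (Fintype.card B)) :=
      (eA.permCongrHom.toMonoidHom).comp (MulAction.toPermHom B B)
    have hc : Function.Injective c :=
      eA.permCongrHom.injective.comp (MulAction.toPerm_injective)
    let ce : B ≃* c.range := MonoidHom.ofInjective hc
    have hce : ∀ b, (ce b : Equiv.Perm (Fin (Fintype.card B))) = c b := fun b => rfl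
    let P : Subgroup (Equiv.Perm (Fin (Fintype.card B)) × (G ⧸ U k)) :=
      { carrier := {p | ∃ b, c b = p.1 ∧ α b = φ p.2}
        one_mem' := ⟨1, map_one c, by rw [map_one]; exact (map_one φ).symm⟩
        mul_mem' := by
          rintro x y ⟨b, hb1, hb2⟩ ⟨b', hb1', hb2'⟩
          refine ⟨b * b', ?_, ?_⟩
          · rw [map_mul, hb1, hb1']
            rfl
          · rw [map_mul, hb2, hb2']
            exact (map_mul φ _ _).symm
        inv_mem' := by
          rintro x ⟨b, hb1, hb2⟩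
          refine ⟨b⁻¹, ?_, ?_⟩
          · rw [map_inv, hb1]
            rfl
          · rw [map_inv, hb2]
            exact (map_inv φ _).symm }
    have hP : ∀ p, p ∈ P ↔ ∃ b, c b = p.1 ∧ α b = φ p.2 := fun p => Iff.rfl
    let β₀ : P →* c.range := ((MonoidHom.fst _ _).comp P.subtype).codRestrict c.range (by
      rintro ⟨p, b, hb1, hb2⟩
      exact ⟨b, hb1⟩)
    let β : P →* B := (ce.symm : c.range →* B).comp β₀
    have hβ : ∀ p : P, c (β p) = p.1.1 := by
      intro p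
      have h1 : ce (β p) = β₀ p := ce.apply_symm_apply _
      exact congrArg Subtype.val h1
    obtain ⟨i, him, hi⟩ := hT ⟨(k, Fintype.card B), P⟩ m
    refine ⟨i, him, ?_⟩
    obtain ⟨N, hN⟩ := hs0 i
    have h6 := hn6 i N
    rw [← hN] at h6
    change ∃ g : G →* AltEP α (s i).1, IsOpen (g.ker : Set G) ∧ Function.Surjective g ∧
      (∀ x, altProj α (s i).1 (g x) = q x) ∧ ∀ x, (g x).1.1.right =
        ((s i).2 x : Equiv.Perm (Fin (s i).1))
    generalize s i = t at h6 ⊢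
    rw [hi] at h6
    have hps : Function.Surjective (prj ⟨(k, Fintype.card B), P⟩) := by
      intro γ
      obtain ⟨b, hb⟩ := hα (φ γ)
      exact ⟨⟨(c b, γ), b, rfl, hb⟩, rfl⟩
    obtain ⟨g, hg, hgs, hgq, hgf⟩ := h6 hps
    have hcomm : ∀ p : P, α (β p) = φ ((prj ⟨(k, Fintype.card B), P⟩) p) := by
      rintro ⟨p, b, hb1, hb2⟩
      have h7 : β ⟨p, b, hb1, hb2⟩ = b := by
        apply hc
        exact (hβ _).trans hb1.symm
      rw [h7]
      exact hb2
    let am := altMap (prj ⟨(k, Fintype.card B), P⟩) α β φ hcomm t.1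
    have ham1 : Function.Surjective am := by
      refine altMap_surjective (prj ⟨(k, Fintype.card B), P⟩) α β φ hcomm t.1 hφs ?_
      intro b γ hbγ
      refine ⟨⟨(c b, γ), b, rfl, hbγ⟩, ?_, rfl⟩
      apply hc
      exact hβ _
    have ham2 : ∀ x, (am x).1.1.right = x.1.1.right := fun x => rfl
    have ham3 : ∀ x, altProj α t.1 (am x) = φ (altProj (prj ⟨(k, Fintype.card B), P⟩) t.1 x) :=
      fun x => rfl
    clear_value am
    refine ⟨am.comp g, ?_, ham1.comp hgs, fun x => ?_, fun h => ?_⟩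
    · refine Subgroup.isOpen_mono (H₁ := g.ker) (fun y hy => ?_) hg
      rw [MonoidHom.mem_ker] at hy ⊢
      rw [MonoidHom.comp_apply, hy, map_one]
    · rw [MonoidHom.comp_apply, ham3, hgq]
      exact hφ x
    · rw [MonoidHom.comp_apply, ham2, hgf]

end seq2

end Pool.Agent.H418.FA
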