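import Mathlib
import Pool.Agent.H418.FA.Cmp

/-!
Fields between `F` and its composita with Galois extensions with few alternating quotients.
-/

set_option autoImplicit false
set_option linter.unusedSectionVars false

namespace Pool.Agent.H418.FA

open Topology Filter
open Pool.Agent.H391R2 Pool.Agent.H391R2.T4 Pool.Agent.Y793

section grp2

variable {G : Type} [Group G] [TopologicalSpace G] [IsTopologicalGroup G] [CompactSpace G]

/-- Compactness, relative to a closed subgroup. -/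
theorem exists_finset_rel (C : Subgroup G) (hC : IsClosed (C : Set G)) (S : Set (Subgroup G))
    (hS : ∀ N ∈ S, IsOpen (N : Set G)) (Z : Subgroup G)
    (hZ : IsOpen (Z : Set G)) (h : C ⊓ sInf S ≤ Z) :
    ∃ T : Finset (Subgroup G), (T : Set (Subgroup G)) ⊆ S ∧ C ⊓ T.inf id ≤ Z := by
  classical
  have h1 : IsCompact ((C : Set G) ∩ (Z : Set G)ᶜ) := (hC.inter hZ.isClosed_compl).isCompact
  have h2 : ((C : Set G) ∩ (Z : Set G)ᶜ) ⊆ ⋃ N ∈ S, ((N : Set G)ᶜ) := by
    rintro x ⟨hxC, hx⟩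
    by_contra hc
    apply hx
    apply h
    refine ⟨hxC, ?_⟩
    change x ∈ sInf S
    rw [Subgroup.mem_sInf]
    intro N hN
    by_contra h3
    apply hc
    simp only [Set.mem_iUnion]
    exact ⟨N, hN, h3⟩
  obtain ⟨b, hb, hbf, hb2⟩ := h1.elim_finite_subcover_image
    (fun N hN => (N.isClosed_of_isOpen (hS N hN)).isOpen_compl) h2
  refine ⟨hbf.toFinset, by simpa using hb, ?_⟩
  rintro x ⟨hxC, hxT⟩
  by_contra hc
  have h3 := hb2 ⟨hxC, hc⟩
  simp only [Set.mem_iUnion] at h3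
  obtain ⟨N, hN, h4⟩ := h3
  apply h4
  have h5 : hbf.toFinset.inf id ≤ N := Finset.inf_le (f := id) (hbf.mem_toFinset.2 hN)
  exact h5 hxT

/-- An element with only one nontrivial component. -/
theorem exists_one (n : ℕ → ℕ) (hn : StrictMono n) (hn5 : ∀ i, 5 ≤ n i)
    (f : ∀ i, G →* alternatingGroup (Fin (n i))) (hf : ∀ i, Function.Surjective (f i))
    (hfo : ∀ i, IsOpen ((f i).ker : Set G)) (C : Subgroup G) (hC : IsClosed (C : Set G))
    (hCn : C.Normal) (i : ℕ) (hi : ¬ C ≤ (f i).ker) :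
    ∃ r ∈ C, (∀ j, j ≠ i → f j r = 1) ∧ f i r ≠ 1 := by
  by_contra hc
  push Not at hc
  obtain ⟨T, hT, hTC⟩ := exists_finset_rel C hC {N | ∃ j, j ≠ i ∧ (f j).ker = N} (by
    rintro _ ⟨j, -, rfl⟩
    exact hfo j) (f i).ker (hfo i) (by
    rintro x ⟨hx, hx2⟩
    refine hc x hx fun j hj => ?_
    exact (Subgroup.mem_sInf.1 hx2) _ ⟨j, hj, rfl⟩)
  apply hi
  refine le_of_finset_inf_le inferInstance T (fun N hN => ?_) C hCn hTC
  obtain ⟨j, hj, rfl⟩ := hT hN
  have hs := altSimple (n j) (hn5 j)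
  have hNS : NS (f j).ker := NS.of_ker (altNoncomm (n j) (hn5 j)) (f j) (hf j)
  refine ⟨hNS, fun h => ?_⟩
  have hs' := altSimple (n i) (hn5 i)
  have hNS' : NS (f i).ker := NS.of_ker (altNoncomm (n i) (hn5 i)) (f i) (hf i)
  rcases hNS'.max (f j).ker inferInstance h with h1 | h1
  · exact ker_ne' n hn hn5 f hf j i hj h1
  · obtain ⟨a, b, hab⟩ := hNS.ncomm
    exact hab (h1 ▸ Subgroup.mem_top _)

/-- Every finite embedding problem for `G` has a weak solution. -/
def WeakAll (G : Type) [Group G] [TopologicalSpace G] : Prop :=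
  ∀ (Γ B : Type) [Group Γ] [Finite Γ] [Group B] [Finite B] (q : G →* Γ),
    IsOpen (q.ker : Set G) → ∀ α : B →* Γ, Function.Surjective α →
    ∃ ψ : G →* B, IsOpen (ψ.ker : Set G) ∧ ∀ x, α (ψ x) = q x

/-- All embedding problems for alternating fibre powers are solved by members of the sequence which
are not trivial on `C`. -/
def EnoughC (n : ℕ → ℕ) (f : ∀ i, G →* alternatingGroup (Fin (n i))) (C : Subgroup G) : Prop :=
  ∀ (Γ B : Type) [Group Γ] [Finite Γ] [Group B] [Finite B] (q : G →* Γ),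
    IsOpen (q.ker : Set G) → Function.Surjective q → ∀ α : B →* Γ, Function.Surjective α →
    ∃ i, ∃ g : G →* AltEP α (n i), IsOpen (g.ker : Set G) ∧
      Function.Surjective g ∧ (∀ x, altProj α (n i) (g x) = q x) ∧
      (∀ x, (g x).1.1.right = (f i x : Equiv.Perm (Fin (n i)))) ∧ ¬ C ≤ (f i).ker

/-- All embedding problems for alternating fibre powers are solved infinitely often by members of
the sequence with indices which satisfy `p`. -/
def EnoughP (n : ℕ → ℕ) (f : ∀ i, G →* alternatingGroup (Fin (n i))) (p : ℕ → Prop) : Prop :=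
  ∀ (Γ B : Type) [Group Γ] [Finite Γ] [Group B] [Finite B] (q : G →* Γ),
    IsOpen (q.ker : Set G) → Function.Surjective q → ∀ α : B →* Γ, Function.Surjective α →
    ∀ m : ℕ, ∃ i, m ≤ i ∧ p i ∧ ∃ g : G →* AltEP α (n i), IsOpen (g.ker : Set G) ∧
      Function.Surjective g ∧ (∀ x, altProj α (n i) (g x) = q x) ∧
      ∀ x, (g x).1.1.right = (f i x : Equiv.Perm (Fin (n i)))

theorem EnoughP.mono {n : ℕ → ℕ} {f : ∀ i, G →* alternatingGroup (Fin (n i))} {p p' : ℕ → Prop}
    (hE : EnoughP n f p) (h : ∀ i, p i → p' i) : EnoughP n f p' := by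
  intro Γ B _ _ _ _ q hq hqs α hα m
  obtain ⟨i, him, hp, g⟩ := hE Γ B q hq hqs α hα m
  exact ⟨i, him, h i hp, g⟩

/-- The first criterion. -/
theorem EnoughP.few {n : ℕ → ℕ} {f : ∀ i, G →* alternatingGroup (Fin (n i))} {p : ℕ → Prop}
    (hE : EnoughP n f p) (C : Subgroup G) (m₀ : ℕ) (hm : ∀ i, m₀ ≤ i → ¬ C ≤ (f i).ker) :
    EnoughP n f (fun i => p i ∧ ¬ C ≤ (f i).ker) := by
  intro Γ B _ _ _ _ q hq hqs α hα m
  obtain ⟨i, him, hp, g⟩ := hE Γ B q hq hqs α hα (max m m₀)
  exact ⟨i, (le_max_left _ _).trans him, ⟨hp, hm i ((le_max_right _ _).trans him)⟩, g⟩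

/-- The second criterion. -/
theorem EnoughP.ep {n : ℕ → ℕ} (hn5 : ∀ i, 5 ≤ n i)
    {f : ∀ i, G →* alternatingGroup (Fin (n i))} {p : ℕ → Prop}
    (hE : EnoughP n f p) (C : Subgroup G) (Γ₀ B₀ : Type) [Group Γ₀] [Finite Γ₀] [Group B₀]
    [Finite B₀] (q₀ : G →* Γ₀) (hq₀ : IsOpen (q₀.ker : Set G)) (α₀ : B₀ →* Γ₀)
    (hα₀ : Function.Surjective α₀)
    (hno : ¬ ∃ ψ : C →* B₀, IsOpen (ψ.ker : Set C) ∧ ∀ x, α₀ (ψ x) = q₀ x) :
    EnoughP n f (fun i => p i ∧ ¬ C ≤ (f i).ker) := by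
  intro Γ B _ _ _ _ q hq hqs α hα m
  let Γ' : Subgroup (Γ × Γ₀) := (q.prod q₀).range
  let q' : G →* Γ' := (q.prod q₀).rangeRestrict
  have hq'v : ∀ x, ((q' x : Γ') : Γ × Γ₀) = (q x, q₀ x) := fun x => rfl
  have hq's : Function.Surjective q' := (q.prod q₀).rangeRestrict_surjective
  have hq' : IsOpen (q'.ker : Set G) := by
    refine Subgroup.isOpen_mono (H₁ := q.ker ⊓ q₀.ker) ?_ (hq.inter hq₀)
    rintro x ⟨h1, h2⟩
    rw [MonoidHom.mem_ker]
    apply Subtype.ext
    rw [hq'v]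
    exact Prod.ext h1 h2
  let B' : Subgroup (B × B₀) := Γ'.comap (α.prodMap α₀)
  let α' : B' →* Γ' := ((α.prodMap α₀).comp B'.subtype).codRestrict Γ' (fun b => b.2)
  have hα'v : ∀ b : B', ((α' b : Γ') : Γ × Γ₀) = (α b.1.1, α₀ b.1.2) := fun b => rfl
  have hα' : Function.Surjective α' := by
    rintro ⟨⟨γ, γ₀⟩, hγ⟩
    obtain ⟨b, rfl⟩ := hα γ
    obtain ⟨b₀, rfl⟩ := hα₀ γ₀
    exact ⟨⟨(b, b₀), hγ⟩, rfl⟩
  obtain ⟨i, him, hp, g, hg, hgs, hgq, hgf⟩ := hE Γ' B' q' hq' hq's α' hα' m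
  have hgl : ∀ x k, α' ((g x).1.1.left k) = q' x := by
    intro x k
    rw [((mem_AltEP α' (n i) _).1 (g x).2).1 k]
    exact hgq x
  let φ : Γ' →* Γ := (MonoidHom.fst Γ Γ₀).comp Γ'.subtype
  let β : B' →* B := (MonoidHom.fst B B₀).comp B'.subtype
  have hcomm : ∀ b, α (β b) = φ (α' b) := fun b => rfl
  have hφs : Function.Surjective φ := by
    intro γ
    obtain ⟨x, hx⟩ := hqs γ
    exact ⟨q' x, hx⟩
  have hpb : ∀ (b : B) (γ : Γ'), α b = φ γ → ∃ b' : B', β b' = b ∧ α' b' = γ := by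
    rintro b ⟨⟨γ, γ₀⟩, hγ⟩ hb
    obtain ⟨b₀, rfl⟩ := hα₀ γ₀
    have hb' : α b = γ := hb
    subst hb'
    exact ⟨⟨(b, b₀), hγ⟩, rfl, rfl⟩
  refine ⟨i, him, ⟨hp, fun hC => hno ?_⟩, (altMap α' α β φ hcomm (n i)).comp g, ?_,
    (altMap_surjective α' α β φ hcomm (n i) hφs hpb).comp hgs, fun x => ?_, fun x => ?_⟩
  · -- a weak solution over `C`
    let i₀ : Fin (n i) := ⟨0, by have := hn5 i; omega⟩
    have hr : ∀ x : C, (g x).1.1.right = 1 := by
      intro x
      rw [hgf]
      have h1 : f i x = 1 := hC x.2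
      rw [h1]
      rfl
    let ψ : C →* B₀ :=
      { toFun := fun x => ((g x).1.1.left i₀).1.2
        map_one' := by
          change ((g ((1 : C) : G)).1.1.left i₀).1.2 = 1
          rw [Subgroup.coe_one, map_one]
          rfl
        map_mul' := by
          intro x y
          change ((g ((x * y : C) : G)).1.1.left i₀).1.2 = _
          rw [Subgroup.coe_mul, map_mul]
          change (((g x).1.1 * (g y).1.1).left i₀).1.2 = _
          rw [wr_mul_left, hr x]
          rfl }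
    refine ⟨ψ, ?_, fun x => ?_⟩
    · refine Subgroup.isOpen_mono (H₁ := g.ker.comap C.subtype) ?_ ?_
      · intro x hx
        rw [Subgroup.mem_comap, MonoidHom.mem_ker] at hx
        rw [MonoidHom.mem_ker]
        change ((g (C.subtype x)).1.1.left i₀).1.2 = 1
        rw [hx]
        rfl
      · exact hg.preimage continuous_subtype_val
    · have h1 := congrArg (fun z : Γ' => (z : Γ × Γ₀).2) (hgl x i₀)
      exact h1
  · refine Subgroup.isOpen_mono (H₁ := g.ker) (fun y hy => ?_) hg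
    rw [MonoidHom.mem_ker] at hy ⊢
    rw [MonoidHom.comp_apply, hy, map_one]
  · rw [MonoidHom.comp_apply, altMap_proj, hgq]
    rfl
  · rw [MonoidHom.comp_apply, altMap_right, hgf]

/-- If an embedding problem over the closed subgroup `C` has no weak solution, then there is also an
embedding problem for `G` which has no weak solution over `C`. -/
theorem exists_ep [TotallyDisconnectedSpace G] (C : Subgroup G) (hC : ¬ WeakAll C) :
    ∃ (Γ₀ B₀ : Type) (_ : Group Γ₀) (_ : Finite Γ₀) (_ : Group B₀) (_ : Finite B₀)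
      (q₀ : G →* Γ₀) (α₀ : B₀ →* Γ₀), IsOpen (q₀.ker : Set G) ∧ Function.Surjective α₀ ∧
      ¬ ∃ ψ : C →* B₀, IsOpen (ψ.ker : Set C) ∧ ∀ x, α₀ (ψ x) = q₀ x := by
  classical
  by_contra hno
  apply hC
  intro Γ₁ B₁ _ _ _ _ f hf α₁ hα₁
  obtain ⟨V, hV, hVf⟩ := isOpen_induced_iff.1 hf
  have h1V : (1 : G) ∈ V := by
    have h1 : (1 : C) ∈ (Subtype.val ⁻¹' V : Set C) := by
      rw [hVf]
      exact f.ker.one_mem
    exact h1
  obtain ⟨U, hU⟩ := ProfiniteGrp.exist_openNormalSubgroup_sub_open_nhds_of_one hV h1V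
  have hUn : (U : Subgroup G).Normal := U.isNormal'
  have hUo : IsOpen ((U : Subgroup G) : Set G) := U.isOpen'
  have hUf : ∀ h : C, (h : G) ∈ (U : Subgroup G) → f h = 1 := by
    intro h hh
    have h1 : h ∈ (Subtype.val ⁻¹' V : Set C) := hU hh
    rw [hVf] at h1
    exact h1
  let q : G →* G ⧸ (U : Subgroup G) := QuotientGroup.mk' (U : Subgroup G)
  have hqk : q.ker = (U : Subgroup G) := QuotientGroup.ker_mk' _
  have hfin : Finite (G ⧸ (U : Subgroup G)) := Subgroup.quotient_finite_of_isOpen _ hUo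
  let Δ : Subgroup (G ⧸ (U : Subgroup G)) := C.map q
  let qH : C →* Δ := q.subgroupMap C
  have hqHs : Function.Surjective qH := q.subgroupMap_surjective C
  have hqHv : ∀ x : C, (qH x : G ⧸ (U : Subgroup G)) = q x := fun x => rfl
  have hker : qH.ker ≤ f.ker := by
    intro x hx
    rw [MonoidHom.mem_ker] at hx ⊢
    apply hUf
    rw [← hqk, MonoidHom.mem_ker, ← hqHv, hx]
    rfl
  let φ : Δ →* Γ₁ := qH.liftOfSurjective hqHs ⟨f, hker⟩
  have hφ : ∀ x, φ (qH x) = f x := fun x =>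
    MonoidHom.liftOfRightInverse_comp_apply qH _ (Function.rightInverse_surjInv hqHs) ⟨f, hker⟩ x
  -- the pullback
  let P : Subgroup (B₁ × Δ) := (α₁.comp (MonoidHom.fst B₁ Δ)).eqLocus (φ.comp (MonoidHom.snd B₁ Δ))
  let α : P →* Δ := (MonoidHom.snd B₁ Δ).comp P.subtype
  have hα : Function.Surjective α := by
    intro δ
    obtain ⟨b, hb⟩ := hα₁ (φ δ)
    exact ⟨⟨(b, δ), hb⟩, rfl⟩
  obtain ⟨ψ, hψ, hψq⟩ : ∃ ψ : C →* Ind Δ α, IsOpen (ψ.ker : Set C) ∧
      ∀ x, indProj Δ α (ψ x) = q x := by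
    by_contra hc
    exact hno ⟨G ⧸ (U : Subgroup G), Ind Δ α, inferInstance, hfin, inferInstance, inferInstance, q,
      indProj Δ α, by rw [hqk]; exact hUo, fun γ => exists_ind Δ α hα γ, hc⟩
  have hmem : ∀ x : C, indProj Δ α (ψ x) ∈ Δ := by
    intro x
    rw [hψq]
    exact ⟨x, x.2, rfl⟩
  let ψ₁ : C →* P :=
    { toFun := fun x => ev Δ α (ψ x)
      map_one' := by
        change ev Δ α (ψ 1) = 1
        rw [map_one]
        rfl
      map_mul' := by
        intro x y
        change ev Δ α (ψ (x * y)) = _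
        rw [map_mul, ev_mul Δ α _ _ (hmem x)] }
  refine ⟨(MonoidHom.fst B₁ Δ).comp (P.subtype.comp ψ₁), ?_, fun x => ?_⟩
  · refine Subgroup.isOpen_mono (H₁ := ψ.ker) ?_ hψ
    intro x hx
    rw [MonoidHom.mem_ker] at hx ⊢
    change (ev Δ α (ψ x)).1.1 = 1
    rw [hx]
    rfl
  · have h4 : α₁ (ψ₁ x).1.1 = φ (ψ₁ x).1.2 := (ψ₁ x).2
    change α₁ (ψ₁ x).1.1 = f x
    rw [h4]
    have h5 : (ψ₁ x).1.2 = qH x := by
      apply Subtype.ext
      rw [hqHv]
      change (α (ev Δ α (ψ x)) : G ⧸ (U : Subgroup G)) = q x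
      rw [α_ev Δ α _ (hmem x), hψq]
    rw [h5, hφ]

/-- Intersections of normal subgroups which are not contained in `N`. -/
theorem NS.inf_not_le {N : Subgroup G} (h : NS N) {A B : Subgroup G} (hA : A.Normal)
    (hB : B.Normal) (hAN : ¬ A ≤ N) (hBN : ¬ B ≤ N) : ¬ A ⊓ B ≤ N := by
  obtain ⟨a, ha, b, hb, hab⟩ := h.exists_comm (h.sup_eq_top hA hAN) (h.sup_eq_top hB hBN)
  intro h1
  apply hab
  apply h1
  refine ⟨?_, ?_⟩
  · have h5 := A.mul_mem ha (hA.conj_mem _ (A.inv_mem ha) b)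
    have h6 : a * (b * a⁻¹ * b⁻¹) = a * b * a⁻¹ * b⁻¹ := by group
    rwa [h6] at h5
  · exact B.mul_mem (hB.conj_mem _ hb a) (B.inv_mem hb)

/-- Closed subgroups between. -/
theorem enoughH_of (n : ℕ → ℕ) (hn : StrictMono n) (hn5 : ∀ i, 5 ≤ n i)
    (f : ∀ i, G →* alternatingGroup (Fin (n i))) (hf : ∀ i, Function.Surjective (f i))
    (hfo : ∀ i, IsOpen ((f i).ker : Set G)) (C : Subgroup G)
    (hC : IsClosed (C : Set G)) (hCn : C.Normal) (hE : EnoughC n f C)
    (H : Subgroup G) (hH : ∀ i, H ≤ (f i).ker)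
    (hCH : ∀ x ∈ C, (∀ i, f i x = 1) → x ∈ H) : EnoughH H := by
  intro Γ B _ _ _ _ q hq hqs α hα
  obtain ⟨i, g, hg, hgs, hgq, hgf, hi⟩ := hE Γ B q hq hqs α hα
  have hcoe : ∀ x, (g x).1.1.right = 1 ↔ f i x = 1 := by
    intro x
    rw [hgf]
    exact ⟨fun h => Subtype.ext h, fun h => congrArg Subtype.val h⟩
  refine ⟨n i, by have := hn5 i; omega, g, hg, hgs, hgq, fun h hh => (hcoe h).2 (hH i hh), ?_⟩
  have hmem : ∀ x, x ∈ (MonoidHom.pi (fun j : {j // j ≠ i} => f j.1)).ker ↔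
      ∀ j, j ≠ i → f j x = 1 := by
    intro x
    rw [MonoidHom.mem_ker]
    exact ⟨fun h j hj => congrFun h ⟨j, hj⟩, fun h => funext fun j => h j.1 j.2⟩
  refine ⟨C ⊓ (MonoidHom.pi (fun j : {j // j ≠ i} => f j.1)).ker, inferInstance, ?_, ?_⟩
  · obtain ⟨r, hrC, hr1, hr2⟩ := exists_one n hn hn5 f hf hfo C hC hCn i hi
    exact ⟨r, ⟨hrC, (hmem r).2 hr1⟩, fun h => hr2 ((hcoe r).1 h)⟩
  · rintro r ⟨hrC, hr1⟩ hr2
    refine hCH r hrC fun j => ?_
    by_cases hj : j = i
    · rw [hj]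
      exact (hcoe r).1 hr2
    · exact (hmem r).1 hr1 j hj

end grp2

/-- The field. -/
theorem exists_field3 (K Ω : Type) [Field K] [CharZero K] [Field Ω] [Algebra K Ω] [IsAlgClosed Ω]
    [IsGalois K Ω] [Countable Ω] (hK : HilbField K) (D : Set ℕ) (hD : Rich D) :
    ∃ (n : ℕ → ℕ) (F : IntermediateField K Ω) (e : (F ≃ₐ[K] F) ≃* ∀ i, alternatingGroup (Fin (n i))),
      StrictMono n ∧ (∀ i, n i ∈ D ∧ 5 ≤ n i) ∧ IsGalois K F ∧
      (∀ i, IsOpen {σ : F ≃ₐ[K] F | e σ i = 1}) ∧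
      (∃ a b : F ≃ₐ[K] F, (Subgroup.closure {a, b}).topologicalClosure = ⊤) ∧
      (∀ E : IntermediateField K Ω, IsGalois K E →
        (∀ d, 5 ≤ d → ∀ M : IntermediateField K Ω, M ≤ E → ¬ AltExt d M) → F ⊓ E = ⊥) ∧
      ∀ (T : Finset (IntermediateField K Ω)) (L : IntermediateField K Ω),
        (∀ E ∈ T, IsGalois K E ∧
          ({d : ℕ | 5 ≤ d ∧ ∃ M : IntermediateField K Ω, M ≤ E ∧ AltExt d M}.Finite ∨
          ¬ WeakAll (Ω ≃ₐ[E] Ω))) →
        F ≤ L → L ≤ F ⊔ T.sup id → SolvesAll (Ω ≃ₐ[L] Ω) := by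
  classical
  obtain ⟨U, hU, hU2⟩ := exists_countable_basis (K := K) (Ω := Ω)
  obtain ⟨n, f, hn, hnD, hf, hfo, hE⟩ := exists_alt_seq2 (G := (Ω ≃ₐ[K] Ω)) (D ∩ {n | 4 ∣ n})
    (fun N => altSolv K Ω hK _ (hD.inter N)) U hU hU2
  have hn5 : ∀ i, 5 ≤ n i := fun i => (hnD i).2
  -- the fields `M i`
  let M : ℕ → IntermediateField K Ω := fun i => IntermediateField.fixedField (f i).ker
  have hM : ∀ i, (M i).fixingSubgroup = (f i).ker := fun i =>
    InfiniteGalois.fixingSubgroup_fixedField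
      (⟨(f i).ker, Subgroup.isClosed_of_isOpen _ (hfo i)⟩ : ClosedSubgroup (Ω ≃ₐ[K] Ω))
  have hNS : ∀ i, NS (f i).ker := fun i => by
    have := altSimple (n i) (hn5 i)
    exact NS.of_ker (altNoncomm (n i) (hn5 i)) (f i) (hf i)
  have halt : ∀ i, AltExt (n i) (M i) := by
    intro i
    have hMfd : FiniteDimensional K (M i) := by
      rw [← InfiniteGalois.isOpen_iff_finite]
      change IsOpen ((M i).fixingSubgroup : Set (Ω ≃ₐ[K] Ω))
      rw [hM]
      exact hfo i
    have hMg : IsGalois K (M i) := by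
      rw [← InfiniteGalois.normal_iff_isGalois, hM]
      infer_instance
    have hrs : Function.Surjective (AlgEquiv.restrictNormalHom (M i) : (Ω ≃ₐ[K] Ω) →* _) :=
      AlgEquiv.restrictNormalHom_surjective (F := K) (K₁ := (M i)) Ω
    have hrk : (AlgEquiv.restrictNormalHom (M i) : (Ω ≃ₐ[K] Ω) →* ((M i) ≃ₐ[K] (M i))).ker =
        (f i).ker := by
      rw [IntermediateField.restrictNormalHom_ker, hM]
    let e₁ := QuotientGroup.quotientKerEquivOfSurjective
      (AlgEquiv.restrictNormalHom (M i) : (Ω ≃ₐ[K] Ω) →* ((M i) ≃ₐ[K] (M i))) hrs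
    let e₂ := QuotientGroup.quotientKerEquivOfSurjective (f i) (hf i)
    exact ⟨hMfd, hMg, ⟨(e₁.symm.trans (QuotientGroup.quotientMulEquivOfEq hrk)).trans e₂⟩⟩
  have himg : IntermediateField.fixingSubgroup '' (Set.range M) = Set.range fun i => (f i).ker := by
    ext N
    constructor
    · rintro ⟨_, ⟨i, rfl⟩, rfl⟩
      exact ⟨i, (hM i).symm⟩
    · rintro ⟨i, rfl⟩
      exact ⟨M i, ⟨i, rfl⟩, hM i⟩
  let F : IntermediateField K Ω := sSup (Set.range M)
  have hFix : F.fixingSubgroup = sInf (Set.range fun i => (f i).ker) := by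
    rw [fixing_sSup, himg]
  have hmemF : ∀ x, x ∈ F.fixingSubgroup ↔ ∀ i, f i x = 1 := by
    intro x
    rw [hFix, Subgroup.mem_sInf]
    constructor
    · intro h i
      exact h _ ⟨i, rfl⟩
    · rintro h _ ⟨i, rfl⟩
      exact h i
  have hcle : ∀ (E : IntermediateField K Ω) (i : ℕ), E.fixingSubgroup ≤ (f i).ker → M i ≤ E := by
    intro E i h
    rw [← hM i] at h
    rw [← InfiniteGalois.fixedField_fixingSubgroup E, IntermediateField.le_iff_le]
    exact h
  -- the product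
  let Φ : (Ω ≃ₐ[K] Ω) →* ∀ i, alternatingGroup (Fin (n i)) := MonoidHom.pi f
  have hΦ : Function.Surjective Φ := by
    intro s
    obtain ⟨x, hx⟩ := independent_all (fun i => alternatingGroup (Fin (n i))) f hf hNS hfo
      (ker_ne' n hn hn5 f hf) s
    exact ⟨x, funext hx⟩
  have hΦk : Φ.ker = F.fixingSubgroup := by
    ext x
    rw [hmemF, MonoidHom.mem_ker]
    exact ⟨fun h i => congrFun h i, fun h => funext h⟩
  have hFg : IsGalois K F := by
    rw [← InfiniteGalois.normal_iff_isGalois, ← hΦk]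
    infer_instance
  have hrs : Function.Surjective (AlgEquiv.restrictNormalHom F : (Ω ≃ₐ[K] Ω) →* _) :=
    AlgEquiv.restrictNormalHom_surjective (F := K) (K₁ := F) Ω
  have hrk : (AlgEquiv.restrictNormalHom F : (Ω ≃ₐ[K] Ω) →* (F ≃ₐ[K] F)).ker = Φ.ker := by
    rw [IntermediateField.restrictNormalHom_ker, hΦk]
  let e₁ := QuotientGroup.quotientKerEquivOfSurjective
    (AlgEquiv.restrictNormalHom F : (Ω ≃ₐ[K] Ω) →* (F ≃ₐ[K] F)) hrs
  let e₂ := QuotientGroup.quotientKerEquivOfSurjective Φ hΦ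
  let e : (F ≃ₐ[K] F) ≃* ∀ i, alternatingGroup (Fin (n i)) :=
    (e₁.symm.trans (QuotientGroup.quotientMulEquivOfEq hrk)).trans e₂
  have he : ∀ x, e (AlgEquiv.restrictNormalHom F x) = Φ x := by
    intro x
    have h1 : e₁.symm (AlgEquiv.restrictNormalHom F x) = QuotientGroup.mk x := by
      rw [MulEquiv.symm_apply_eq]
      rfl
    change e₂ (QuotientGroup.quotientMulEquivOfEq hrk
      (e₁.symm (AlgEquiv.restrictNormalHom F x))) = _
    rw [h1]
    rfl
  have hopen : ∀ i, IsOpen {σ : F ≃ₐ[K] F | e σ i = 1} := by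
    intro i
    have hq : IsQuotientMap (AlgEquiv.restrictNormalHom F : (Ω ≃ₐ[K] Ω) → (F ≃ₐ[K] F)) :=
      IsQuotientMap.of_surjective_continuous hrs
        (InfiniteGalois.restrictNormalHom_continuous F)
    rw [← hq.isOpen_preimage]
    have h1 : (AlgEquiv.restrictNormalHom F : (Ω ≃ₐ[K] Ω) → (F ≃ₐ[K] F)) ⁻¹'
        {σ : F ≃ₐ[K] F | e σ i = 1} = ((f i).ker : Set (Ω ≃ₐ[K] Ω)) := by
      ext x
      change e (AlgEquiv.restrictNormalHom F x) i = 1 ↔ f i x = 1
      rw [he]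
      rfl
    rw [h1]
    exact hfo i
  refine ⟨n, F, e, hn, fun i => ⟨(hnD i).1.1, (hnD i).2⟩, hFg, hopen, ?_, ?_, ?_⟩
  · refine two_gen n hn hn5 (fun i => ?_) e hopen exists_open
    obtain ⟨c, hc⟩ := (hnD i).1.2
    exact ⟨2 * c, by omega⟩
  · -- linear disjointness
    intro E hEg hno
    have hCn : E.fixingSubgroup.Normal := (InfiniteGalois.normal_iff_isGalois E).2 hEg
    have hCc : IsClosed (E.fixingSubgroup : Set (Ω ≃ₐ[K] Ω)) :=
      InfiniteGalois.fixingSubgroup_isClosed E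
    have hcomp : CompactSpace E.fixingSubgroup := isCompact_iff_compactSpace.1 hCc.isCompact
    let f' : ∀ i, E.fixingSubgroup →* alternatingGroup (Fin (n i)) := fun i =>
      (f i).comp E.fixingSubgroup.subtype
    have hf' : ∀ i, Function.Surjective (f' i) := by
      intro i
      have hs := altSimple (n i) (hn5 i)
      have h1 : (E.fixingSubgroup.map (f i)).Normal := hCn.map (f i) (hf i)
      rcases h1.eq_bot_or_eq_top with h2 | h2
      · exact absurd (halt i) (hno (n i) (hn5 i) (M i) (hcle E i fun x hx => by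
          rw [MonoidHom.mem_ker]
          have h3 : f i x ∈ E.fixingSubgroup.map (f i) := ⟨x, hx, rfl⟩
          rw [h2] at h3
          exact h3))
      · intro s
        have h3 : s ∈ E.fixingSubgroup.map (f i) := h2 ▸ Subgroup.mem_top s
        obtain ⟨x, hx, hxs⟩ := h3
        exact ⟨⟨x, hx⟩, hxs⟩
    have hfix : (F ⊓ E).fixingSubgroup = ⊤ := by
      rw [eq_top_iff]
      intro σ _
      obtain ⟨c, hc⟩ := independent_all (fun i => alternatingGroup (Fin (n i))) f' hf'
        (fun i => by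
          have := altSimple (n i) (hn5 i)
          exact NS.of_ker (altNoncomm (n i) (hn5 i)) (f' i) (hf' i))
        (fun i => (hfo i).preimage continuous_subtype_val)
        (ker_ne' n hn hn5 f' hf') (fun i => f i σ)
      have h1 : (c : Ω ≃ₐ[K] Ω)⁻¹ * σ ∈ F.fixingSubgroup := by
        rw [hmemF]
        intro i
        have h2 : f i c = f i σ := hc i
        rw [map_mul, map_inv, h2, inv_mul_cancel]
      have h2 : σ = c * ((c : Ω ≃ₐ[K] Ω)⁻¹ * σ) := by group
      rw [h2]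
      exact Subgroup.mul_mem _ (IntermediateField.fixingSubgroup_le inf_le_right c.2)
        (IntermediateField.fixingSubgroup_le inf_le_left h1)
    rw [← InfiniteGalois.fixedField_fixingSubgroup (F ⊓ E), hfix]
    exact InfiniteGalois.fixedField_bot
  · intro T L hT hFL hLE
    have key : ∀ S : Finset (IntermediateField K Ω), S ⊆ T →
        EnoughP n f (fun i => ∀ E ∈ S, ¬ E.fixingSubgroup ≤ (f i).ker) := by
      intro S
      induction S using Finset.induction_on with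
      | empty =>
        intro _ Γ B _ _ _ _ q hq hqs α hα m
        obtain ⟨i, him, g⟩ := hE Γ B q hq hqs α hα m
        exact ⟨i, him, fun E hE => absurd hE (Finset.notMem_empty E), g⟩
      | insert E S _ ih =>
        intro hST
        have h0 := ih fun E' hE' => hST (Finset.mem_insert_of_mem hE')
        have h1 : EnoughP n f (fun i => (∀ E' ∈ S, ¬ E'.fixingSubgroup ≤ (f i).ker) ∧
            ¬ E.fixingSubgroup ≤ (f i).ker) := by
          obtain ⟨hEg, hfin | hnp⟩ := hT E (hST (Finset.mem_insert_self E S))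
          · obtain ⟨b, hb⟩ := hfin.bddAbove
            refine h0.few _ (b + 1) fun i hi h => ?_
            have h1 := hb ⟨hn5 i, M i, hcle E i h, halt i⟩
            have h2 := hn.le_apply (x := i)
            omega
          · have hnp' : ¬ WeakAll E.fixingSubgroup := by
              intro hw
              apply hnp
              obtain ⟨e, he, he'⟩ := exists_equiv E
              intro Γ B _ _ _ _ q hq α hα
              obtain ⟨ψ, hψ, hψq⟩ := hw Γ B (q.comp e.toMonoidHom) (hq.preimage he) α hα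
              refine ⟨ψ.comp e.symm.toMonoidHom, hψ.preimage he', fun x => ?_⟩
              have h1 := hψq (e.symm x)
              refine h1.trans ?_
              change q (e (e.symm x)) = q x
              rw [MulEquiv.apply_symm_apply]
            obtain ⟨Γ₀, B₀, i1, i2, i3, i4, q₀, α₀, hq₀, hα₀, hno⟩ := exists_ep _ hnp'
            exact h0.ep hn5 _ Γ₀ B₀ q₀ hq₀ α₀ hα₀ hno
        refine h1.mono fun i hi E' hE' => ?_
        rcases Finset.mem_insert.1 hE' with rfl | hE'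
        · exact hi.2
        · exact hi.1 E' hE'
    have hnorm : ∀ S : Finset (IntermediateField K Ω), S ⊆ T →
        (S.sup id).fixingSubgroup.Normal ∧ ∀ i, (∀ E ∈ S, ¬ E.fixingSubgroup ≤ (f i).ker) →
          ¬ (S.sup id).fixingSubgroup ≤ (f i).ker := by
      intro S
      induction S using Finset.induction_on with
      | empty =>
        intro _
        rw [Finset.sup_empty, IntermediateField.fixingSubgroup_bot]
        refine ⟨inferInstance, fun i _ h => ?_⟩
        obtain ⟨a, b, hab⟩ := (hNS i).ncomm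
        exact hab (h (Subgroup.mem_top _))
      | insert E S _ ih =>
        intro hST
        obtain ⟨h0, h1⟩ := ih fun E' hE' => hST (Finset.mem_insert_of_mem hE')
        have hEn : E.fixingSubgroup.Normal := (InfiniteGalois.normal_iff_isGalois E).2
          (hT E (hST (Finset.mem_insert_self E S))).1
        have h2 : ((insert E S).sup id).fixingSubgroup =
            E.fixingSubgroup ⊓ (S.sup id).fixingSubgroup := by
          rw [Finset.sup_insert, id, IntermediateField.fixingSubgroup_sup]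
        rw [h2]
        refine ⟨inferInstance, fun i hi => ?_⟩
        exact (hNS i).inf_not_le hEn h0 (hi E (Finset.mem_insert_self E S))
          (h1 i fun E' hE' => hi E' (Finset.mem_insert_of_mem hE'))
    obtain ⟨hCn, hCi⟩ := hnorm T (Finset.Subset.refl T)
    have hCc : IsClosed ((T.sup id).fixingSubgroup : Set (Ω ≃ₐ[K] Ω)) :=
      InfiniteGalois.fixingSubgroup_isClosed (T.sup id)
    have hC : EnoughC n f (T.sup id).fixingSubgroup := by
      intro Γ B _ _ _ _ q hq hqs α hα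
      obtain ⟨i, -, hp, g, hg, hgs, hgq, hgf⟩ := key T (Finset.Subset.refl T) Γ B q hq hqs α hα 0
      exact ⟨i, g, hg, hgs, hgq, hgf, hCi i hp⟩
    obtain ⟨e, he, he'⟩ := exists_equiv L
    refine SolvesAll.of_equiv e he he' (core3H _ (enoughH_of n hn hn5 f hf hfo
      (T.sup id).fixingSubgroup hCc hCn hC L.fixingSubgroup (fun i => ?_) ?_))
    · refine (IntermediateField.fixingSubgroup_le hFL).trans ?_
      intro x hx
      exact (hmemF x).1 hx i
    · intro x hx hx2
      apply IntermediateField.fixingSubgroup_le hLE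
      rw [IntermediateField.fixingSubgroup_sup]
      exact ⟨(hmemF x).2 hx2, hx⟩

end Pool.Agent.H418.FA
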