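import Mathlib
import Pool.Agent.H418.FA.Two

/-!
A Boolean lattice of Galois extensions with free absolute Galois groups.
-/

set_option autoImplicit false

namespace Pool.Agent.H418.FA

open Topology Filter
open Pool.Agent.H391R2 Pool.Agent.H391R2.T4 Pool.Agent.Y793

section seq

variable {G : Type} [Group G] [TopologicalSpace G] [IsTopologicalGroup G] [CompactSpace G]

/-- Existence of the sequence, in infinitely many classes. -/
theorem exists_alt_lat (D : Set ℕ) (hD : ∀ N : ℕ, AltSolv G (D ∩ {n | N < n}))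
    (U : ℕ → Subgroup G) (hU : ∀ k, (U k).Normal ∧ IsOpen (U k : Set G))
    (hU2 : ∀ V : Subgroup G, IsOpen (V : Set G) → ∃ k, U k ≤ V) :
    ∃ (n : ℕ → ℕ) (f : ∀ i, G →* alternatingGroup (Fin (n i))), StrictMono n ∧
      (∀ i, n i ∈ D ∧ 5 ≤ n i) ∧ (∀ i, Function.Surjective (f i)) ∧
      (∀ i, IsOpen ((f i).ker : Set G)) ∧
      ∀ j, Enough ((fun i => (f i).ker) '' {i | (Nat.unpair i).2 = j}) := by
  classical
  have hUn : ∀ k, (U k).Normal := fun k => (hU k).1
  have hUo : ∀ k, IsOpen (U k : Set G) := fun k => (hU k).2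
  have hfin : ∀ k, Finite (G ⧸ U k) := fun k => Subgroup.quotient_finite_of_isOpen _ (hUo k)
  let Task : Type := (p : ℕ × ℕ) × Subgroup (Equiv.Perm (Fin p.2) × (G ⧸ U p.1))
  have hct : Countable Task := by
    have h1 : ∀ p : ℕ × ℕ, Finite (Equiv.Perm (Fin p.2) × (G ⧸ U p.1)) := fun p =>
      inferInstance
    have h2 : ∀ p : ℕ × ℕ, Countable (Subgroup (Equiv.Perm (Fin p.2) × (G ⧸ U p.1))) :=
      fun p => Finite.to_countable
    exact inferInstanceAs (Countable
      ((p : ℕ × ℕ) × Subgroup (Equiv.Perm (Fin p.2) × (G ⧸ U p.1))))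
  have hne : Nonempty Task := ⟨⟨(0, 0), ⊤⟩⟩
  obtain ⟨T₀, hT₀⟩ := exists_surjective_nat Task
  let T : ℕ → Task := fun i => T₀ (Nat.unpair i).1
  have hT : ∀ (t : Task) (j : ℕ), ∃ i, (Nat.unpair i).2 = j ∧ T i = t := by
    intro t j
    obtain ⟨a, rfl⟩ := hT₀ t
    refine ⟨Nat.pair a j, by rw [Nat.unpair_pair], ?_⟩
    change T₀ (Nat.unpair (Nat.pair a j)).1 = T₀ a
    rw [Nat.unpair_pair]
  clear_value T
  let prj : ∀ t : Task, t.2 →* (G ⧸ U t.1.1) := fun t => (MonoidHom.snd _ _).comp t.2.subtype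
  let State : Type := (n : ℕ) × (G →* alternatingGroup (Fin n))
  have step : ∀ (i N : ℕ), ∃ s : State, N < s.1 ∧ s.1 ∈ D ∧ 5 ≤ s.1 ∧ Function.Surjective s.2 ∧
      IsOpen (s.2.ker : Set G) ∧ (Function.Surjective (prj (T i)) →
        ∃ g : G →* AltEP (prj (T i)) s.1, IsOpen (g.ker : Set G) ∧ Function.Surjective g ∧
          (∀ x, altProj (prj (T i)) s.1 (g x) = QuotientGroup.mk' (U (T i).1.1) x) ∧
          ∀ x, (g x).1.1.right = (s.2 x : Equiv.Perm (Fin s.1))) := by
    intro i N
    by_cases hs : Function.Surjective (prj (T i))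
    · have hB : Finite (T i).2 := inferInstance
      have hΓ : Finite (G ⧸ U (T i).1.1) := inferInstance
      obtain ⟨n, hn5, hnD, g, hg, hgs, hgq⟩ := hD N (G ⧸ U (T i).1.1) (T i).2
        (QuotientGroup.mk' (U (T i).1.1)) (by rw [QuotientGroup.ker_mk']; exact hUo _)
        (QuotientGroup.mk'_surjective _) (prj (T i)) hs
      obtain ⟨f, hf1, hf2, hf3⟩ := exists_perm (prj (T i)) n g hg hgs
      exact ⟨⟨n, f⟩, hnD.2, hnD.1, hn5, hf1, hf2, fun _ => ⟨g, hg, hgs, hgq, hf3⟩⟩
    · obtain ⟨n, hn5, hnD, g, hg, hgs, hgq⟩ := hD N Unit Unit 1 (by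
          have h1 : (1 : G →* Unit).ker = ⊤ := by
            ext x
            simp
          rw [h1]
          exact isOpen_univ) (fun _ => ⟨1, rfl⟩) (MonoidHom.id Unit) (fun x => ⟨x, rfl⟩)
      obtain ⟨f, hf1, hf2, hf3⟩ := exists_perm (MonoidHom.id Unit) n g hg hgs
      exact ⟨⟨n, f⟩, hnD.2, hnD.1, hn5, hf1, hf2, fun h => absurd h hs⟩
  choose nxt hn1 hn2 hn3 hn4 hn5 hn6 using step
  let s : ℕ → State := fun i => Nat.rec (nxt 0 0) (fun i t => nxt (i + 1) t.1) i
  have hs0 : ∀ i, ∃ N, s i = nxt i N := by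
    intro i
    cases i with
    | zero => exact ⟨0, rfl⟩
    | succ i => exact ⟨(s i).1, rfl⟩
  refine ⟨fun i => (s i).1, fun i => (s i).2, ?_, fun i => ?_, fun i => ?_, fun i => ?_, ?_⟩
  · exact strictMono_nat_of_lt_succ fun i => hn1 (i + 1) (s i).1
  · obtain ⟨N, hN⟩ := hs0 i
    change (s i).1 ∈ D ∧ 5 ≤ (s i).1
    rw [hN]
    exact ⟨hn2 i N, hn3 i N⟩
  · obtain ⟨N, hN⟩ := hs0 i
    change Function.Surjective (s i).2
    rw [hN]
    exact hn4 i N
  · obtain ⟨N, hN⟩ := hs0 i
    change IsOpen ((s i).2.ker : Set G)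
    rw [hN]
    exact hn5 i N
  · intro j Γ B _ _ _ _ q hq hqs α hα
    let _ : Fintype B := Fintype.ofFinite B
    obtain ⟨k, hk⟩ := hU2 q.ker hq
    let φ : G ⧸ U k →* Γ := QuotientGroup.lift (U k) q hk
    have hφ : ∀ x, φ (QuotientGroup.mk x) = q x := fun x => rfl
    have hφs : Function.Surjective φ := fun γ => by
      obtain ⟨x, hx⟩ := hqs γ
      exact ⟨QuotientGroup.mk x, hx⟩
    let eA : B ≃ Fin (Fintype.card B) := Fintype.equivFin B
    let c : B →* Equiv.Perm (Fin (Fintype.card B)) :=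
      (eA.permCongrHom.toMonoidHom).comp (MulAction.toPermHom B B)
    have hc : Function.Injective c :=
      eA.permCongrHom.injective.comp (MulAction.toPerm_injective)
    let ce : B ≃* c.range := MonoidHom.ofInjective hc
    have hce : ∀ b, (ce b : Equiv.Perm (Fin (Fintype.card B))) = c b := fun b => rfl
    let P : Subgroup (Equiv.Perm (Fin (Fintype.card B)) × (G ⧸ U k)) :=
      { carrier := {p | ∃ b, c b = p.1 ∧ α b = φ p.2}
        one_mem' := ⟨1, map_one c, by rw [map_one]; exact (map_one φ).symm⟩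
        mul_mem' := by
          rintro x y ⟨b, hb1, hb2⟩ ⟨b', hb1', hb2'⟩
          refine ⟨b * b', ?_, ?_⟩
          · rw [map_mul, hb1, hb1']
            rfl
          · rw [map_mul, hb2, hb2']
            exact (map_mul φ _ _).symm
        inv_mem' := by
          rintro x ⟨b, hb1, hb2⟩
          refine ⟨b⁻¹, ?_, ?_⟩
          · rw [map_inv, hb1]
            rfl
          · rw [map_inv, hb2]
            exact (map_inv φ _).symm }
    have hP : ∀ p, p ∈ P ↔ ∃ b, c b = p.1 ∧ α b = φ p.2 := fun p => Iff.rfl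
    let β₀ : P →* c.range := ((MonoidHom.fst _ _).comp P.subtype).codRestrict c.range (by
      rintro ⟨p, b, hb1, hb2⟩
      exact ⟨b, hb1⟩)
    let β : P →* B := (ce.symm : c.range →* B).comp β₀
    have hβ : ∀ p : P, c (β p) = p.1.1 := by
      intro p
      have h1 : ce (β p) = β₀ p := ce.apply_symm_apply _
      exact congrArg Subtype.val h1
    obtain ⟨i, hij, hi⟩ := hT ⟨(k, Fintype.card B), P⟩ j
    obtain ⟨N, hN⟩ := hs0 i
    have h6 := hn6 i N
    have h5 := hn3 i N
    rw [← hN] at h6 h5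
    have hker : (s i).2.ker ∈ ((fun i => (s i).2.ker) '' {i | (Nat.unpair i).2 = j}) := ⟨i, hij, rfl⟩
    generalize s i = t at h6 hker h5
    rw [hi] at h6
    have hps : Function.Surjective (prj ⟨(k, Fintype.card B), P⟩) := by
      intro γ
      obtain ⟨b, hb⟩ := hα (φ γ)
      exact ⟨⟨(c b, γ), b, rfl, hb⟩, rfl⟩
    obtain ⟨g, hg, hgs, hgq, hgf⟩ := h6 hps
    have hcomm : ∀ p : P, α (β p) = φ ((prj ⟨(k, Fintype.card B), P⟩) p) := by
      rintro ⟨p, b, hb1, hb2⟩
      have h7 : β ⟨p, b, hb1, hb2⟩ = b := by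
        apply hc
        exact (hβ _).trans hb1.symm
      rw [h7]
      exact hb2
    let am := altMap (prj ⟨(k, Fintype.card B), P⟩) α β φ hcomm t.1
    have ham1 : Function.Surjective am := by
      refine altMap_surjective (prj ⟨(k, Fintype.card B), P⟩) α β φ hcomm t.1 hφs ?_
      intro b γ hbγ
      refine ⟨⟨(c b, γ), b, rfl, hbγ⟩, ?_, rfl⟩
      apply hc
      exact hβ _
    have ham2 : ∀ x, (am x).1.1.right = x.1.1.right := fun x => rfl
    have ham3 : ∀ x, altProj α t.1 (am x) = φ (altProj (prj ⟨(k, Fintype.card B), P⟩) t.1 x) :=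
      fun x => rfl
    clear_value am
    refine ⟨t.1, by omega, am.comp g, ?_, ham1.comp hgs, fun x => ?_, fun h hh => ?_⟩
    · refine Subgroup.isOpen_mono (H₁ := g.ker) (fun y hy => ?_) hg
      rw [MonoidHom.mem_ker] at hy ⊢
      rw [MonoidHom.comp_apply, hy, map_one]
    · rw [MonoidHom.comp_apply, ham3, hgq]
      exact hφ x
    · rw [MonoidHom.comp_apply, ham2, hgf]
      have h8 : h ∈ t.2.ker := (Subgroup.mem_sInf.1 hh) _ hker
      rw [MonoidHom.mem_ker.1 h8]
      rfl

omit [IsTopologicalGroup G] [CompactSpace G] in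
theorem Enough.mono {S S' : Set (Subgroup G)} (h : Enough S) (hS : S ⊆ S') : Enough S' := by
  intro Γ B _ _ _ _ q hq hqs α hα
  obtain ⟨n, hn, g, h1, h2, h3, h4⟩ := h Γ B q hq hqs α hα
  exact ⟨n, hn, g, h1, h2, h3, fun x hx => h4 x (sInf_le_sInf hS hx)⟩

variable (n : ℕ → ℕ) (hn : StrictMono n) (hn5 : ∀ i, 5 ≤ n i)
  (f : ∀ i, G →* alternatingGroup (Fin (n i))) (hf : ∀ i, Function.Surjective (f i))
  (hfo : ∀ i, IsOpen ((f i).ker : Set G)) (c : ℕ → ℕ)

/-- The subgroup of a set of classes. -/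
def latH (J : Set ℕ) : Subgroup G := sInf ((fun i => (f i).ker) '' {i | c i ∈ J})

omit [TopologicalSpace G] [IsTopologicalGroup G] [CompactSpace G] in
theorem mem_latH (J : Set ℕ) (x : G) : x ∈ latH n f c J ↔ ∀ i, c i ∈ J → f i x = 1 := by
  unfold latH
  rw [Subgroup.mem_sInf]
  constructor
  · intro h i hi
    exact h _ ⟨i, hi, rfl⟩
  · rintro h _ ⟨i, hi, rfl⟩
    exact h i hi

omit [TopologicalSpace G] [IsTopologicalGroup G] [CompactSpace G] in
theorem latH_normal (J : Set ℕ) : (latH n f c J).Normal := by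
  refine ⟨fun x hx z => ?_⟩
  rw [mem_latH] at hx ⊢
  intro i hi
  rw [map_mul, map_mul, hx i hi, mul_one, map_inv, mul_inv_cancel]

include hn hn5 hf hfo in
theorem latH_sup (J J' : Set ℕ) : latH n f c J ⊔ latH n f c J' = latH n f c (J ∩ J') := by
  classical
  apply le_antisymm
  · refine sup_le ?_ ?_
    · intro x hx
      rw [mem_latH] at hx ⊢
      exact fun i hi => hx i hi.1
    · intro x hx
      rw [mem_latH] at hx ⊢
      exact fun i hi => hx i hi.2
  · intro x hx
    rw [mem_latH] at hx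
    obtain ⟨a, ha⟩ := independent_all (fun i => alternatingGroup (Fin (n i))) f hf (fun i => by
      have := altSimple (n i) (hn5 i)
      exact NS.of_ker (altNoncomm (n i) (hn5 i)) (f i) (hf i)) hfo (ker_ne' n hn hn5 f hf)
      (fun i => if c i ∈ J then 1 else f i x)
    have h1 : a ∈ latH n f c J := by
      rw [mem_latH]
      intro i hi
      rw [ha, if_pos hi]
    have h2 : a⁻¹ * x ∈ latH n f c J' := by
      rw [mem_latH]
      intro i hi
      rw [map_mul, map_inv, ha]
      by_cases h3 : c i ∈ J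
      · rw [if_pos h3, inv_one, one_mul]
        exact hx i ⟨h3, hi⟩
      · rw [if_neg h3, inv_mul_cancel]
    have h3 := Subgroup.mul_mem_sup h1 h2
    rwa [mul_inv_cancel_left] at h3

include hn hn5 hf hfo in
/-- Two generators. -/
theorem lat_gen (hev : ∀ i, Even (n i)) : ∃ a b : G, ∀ C : Subgroup G, IsClosed (C : Set G) →
    (∀ x, (∀ i, f i x = 1) → x ∈ C) → a ∈ C → b ∈ C → C = ⊤ := by
  classical
  have h1 := fun i => alt_two_gen (n i) (by have := hn5 i; omega) (hev i)
  choose a₀ b₀ hab using h1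
  have hNS : ∀ i, NS (f i).ker := fun i => by
    have := altSimple (n i) (hn5 i)
    exact NS.of_ker (altNoncomm (n i) (hn5 i)) (f i) (hf i)
  obtain ⟨a, ha⟩ := independent_all (fun i => alternatingGroup (Fin (n i))) f hf hNS hfo
    (ker_ne' n hn hn5 f hf) a₀
  obtain ⟨b, hb⟩ := independent_all (fun i => alternatingGroup (Fin (n i))) f hf hNS hfo
    (ker_ne' n hn hn5 f hf) b₀
  refine ⟨a, b, fun C hC hH haC hbC => ?_⟩
  have hcomp : CompactSpace C := isCompact_iff_compactSpace.1 hC.isCompact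
  let g : ∀ i, C →* alternatingGroup (Fin (n i)) := fun i => (f i).comp C.subtype
  have hg : ∀ i, Function.Surjective (g i) := by
    intro i
    rw [← MonoidHom.range_eq_top]
    apply hab i
    · exact ⟨⟨a, haC⟩, ha i⟩
    · exact ⟨⟨b, hbC⟩, hb i⟩
  have hgo : ∀ i, IsOpen ((g i).ker : Set C) := fun i => (hfo i).preimage continuous_subtype_val
  rw [eq_top_iff]
  intro x _
  obtain ⟨y, hy⟩ := independent_all (fun i => alternatingGroup (Fin (n i))) g hg (fun i => by
      have := altSimple (n i) (hn5 i)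
      exact NS.of_ker (altNoncomm (n i) (hn5 i)) (g i) (hg i)) hgo (ker_ne' n hn hn5 g hg)
    (fun i => f i x)
  have h2 : (y : G)⁻¹ * x ∈ C := by
    apply hH
    intro i
    have h3 : f i y = f i x := hy i
    rw [map_mul, map_inv, h3, inv_mul_cancel]
  have h3 := C.mul_mem y.2 h2
  rwa [mul_inv_cancel_left] at h3

end seq

/-- The lattice of fields. -/
theorem exists_lattice (K Ω : Type) [Field K] [CharZero K] [Field Ω] [Algebra K Ω] [IsAlgClosed Ω]
    [IsGalois K Ω] [Countable Ω] (hK : HilbField K) (D : Set ℕ) (hD : Rich D) :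
    ∃ (n c : ℕ → ℕ) (F : Set ℕ → IntermediateField K Ω),
      StrictMono n ∧ (∀ i, n i ∈ D ∧ 5 ≤ n i) ∧ (∀ j, {i | c i = j}.Infinite) ∧ F ∅ = ⊥ ∧
      (∀ J J', F (J ∪ J') = F J ⊔ F J') ∧ (∀ J J', F (J ∩ J') = F J ⊓ F J') ∧
      (∀ J J', (F J).fixingSubgroup ⊔ (F J').fixingSubgroup = (F (J ∩ J')).fixingSubgroup) ∧
      (∀ J, IsGalois K (F J) ∧
        (∃ a b : F J ≃ₐ[K] F J, (Subgroup.closure {a, b}).topologicalClosure = ⊤) ∧
        ∃ e : (F J ≃ₐ[K] F J) ≃* ∀ i : {i // c i ∈ J}, alternatingGroup (Fin (n i)),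
          ∀ i, IsOpen {σ : F J ≃ₐ[K] F J | e σ i = 1}) ∧
      ∀ J, J.Nonempty → SolvesAll (F J).fixingSubgroup := by
  classical
  obtain ⟨U, hU, hU2⟩ := exists_countable_basis (K := K) (Ω := Ω)
  obtain ⟨n, f, hn, hnD, hf, hfo, hE⟩ := exists_alt_lat (G := (Ω ≃ₐ[K] Ω)) (D ∩ {n | 4 ∣ n})
    (fun N => altSolv K Ω hK _ (hD.inter N)) U hU hU2
  have hn5 : ∀ i, 5 ≤ n i := fun i => (hnD i).2
  let c : ℕ → ℕ := fun i => (Nat.unpair i).2
  have hev : ∀ i, Even (n i) := by
    intro i
    obtain ⟨c, hc⟩ := (hnD i).1.2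
    exact ⟨2 * c, by omega⟩
  have hNS : ∀ i, NS (f i).ker := fun i => by
    have := altSimple (n i) (hn5 i)
    exact NS.of_ker (altNoncomm (n i) (hn5 i)) (f i) (hf i)
  have hHc : ∀ J, IsClosed (latH n f c J : Set (Ω ≃ₐ[K] Ω)) := by
    intro J
    have h1 : (latH n f c J : Set (Ω ≃ₐ[K] Ω)) =
        ⋂ i : {i // c i ∈ J}, ((f i).ker : Set (Ω ≃ₐ[K] Ω)) := by
      ext x
      rw [Set.mem_iInter, SetLike.mem_coe, mem_latH]
      exact ⟨fun h i => h i i.2, fun h i hi => h ⟨i, hi⟩⟩
    rw [h1]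
    exact isClosed_iInter fun i => Subgroup.isClosed_of_isOpen _ (hfo i)
  let F : Set ℕ → IntermediateField K Ω := fun J => IntermediateField.fixedField (latH n f c J)
  have hF : ∀ J, (F J).fixingSubgroup = latH n f c J := fun J =>
    InfiniteGalois.fixingSubgroup_fixedField
      (⟨latH n f c J, hHc J⟩ : ClosedSubgroup (Ω ≃ₐ[K] Ω))
  have heq : ∀ E E' : IntermediateField K Ω, E.fixingSubgroup = E'.fixingSubgroup → E = E' := by
    intro E E' h
    rw [← InfiniteGalois.fixedField_fixingSubgroup E, h,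
      InfiniteGalois.fixedField_fixingSubgroup E']
  have hle : ∀ E E' : IntermediateField K Ω, E'.fixingSubgroup ≤ E.fixingSubgroup → E ≤ E' := by
    intro E E' h
    rw [← InfiniteGalois.fixedField_fixingSubgroup E', IntermediateField.le_iff_le]
    exact h
  have hmono : ∀ J J' : Set ℕ, J ⊆ J' → F J ≤ F J' := by
    intro J J' h
    apply hle
    rw [hF, hF]
    intro x hx
    rw [mem_latH] at hx ⊢
    exact fun i hi => hx i (h hi)
  have hn' : ∀ J, (latH n f c J).Normal := latH_normal n f c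
  have hFg : ∀ J, IsGalois K (F J) := by
    intro J
    rw [← InfiniteGalois.normal_iff_isGalois, hF]
    exact hn' J
  refine ⟨n, c, F, hn, fun i => ⟨(hnD i).1.1, (hnD i).2⟩, ?_, ?_, ?_, ?_, ?_, ?_, ?_⟩
  · intro j
    refine Set.infinite_of_injective_forall_mem (f := fun a => Nat.pair a j) ?_ ?_
    · intro a b hab
      have h1 := congrArg (fun z => (Nat.unpair z).1) hab
      simpa using h1
    · intro a
      change (Nat.unpair (Nat.pair a j)).2 = j
      rw [Nat.unpair_pair]
  · apply heq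
    rw [hF, IntermediateField.fixingSubgroup_bot, eq_top_iff]
    intro x _
    rw [mem_latH]
    exact fun i hi => absurd hi (Set.notMem_empty _)
  · intro J J'
    apply le_antisymm
    · apply hle
      intro x hx
      have h1 : x ∈ (F J).fixingSubgroup := IntermediateField.fixingSubgroup_le le_sup_left hx
      have h2 : x ∈ (F J').fixingSubgroup := IntermediateField.fixingSubgroup_le le_sup_right hx
      rw [hF, mem_latH] at h1 h2 ⊢
      rintro i (hi | hi)
      · exact h1 i hi
      · exact h2 i hi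
    · exact sup_le (hmono _ _ Set.subset_union_left) (hmono _ _ Set.subset_union_right)
  · intro J J'
    apply le_antisymm
    · exact le_inf (hmono _ _ Set.inter_subset_left) (hmono _ _ Set.inter_subset_right)
    · apply hle
      rw [hF, ← latH_sup n hn hn5 f hf hfo c, ← hF, ← hF]
      exact sup_le (IntermediateField.fixingSubgroup_le inf_le_left)
        (IntermediateField.fixingSubgroup_le inf_le_right)
  · intro J J'
    rw [hF, hF, hF]
    exact latH_sup n hn hn5 f hf hfo c J J'
  · intro J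
    have hg := hFg J
    let r : (Ω ≃ₐ[K] Ω) →* (F J ≃ₐ[K] F J) := AlgEquiv.restrictNormalHom (F J)
    have hrs : Function.Surjective r :=
      AlgEquiv.restrictNormalHom_surjective (F := K) (K₁ := F J) Ω
    have hrc : Continuous r := InfiniteGalois.restrictNormalHom_continuous (F J)
    have hrk : r.ker = latH n f c J := by
      rw [← hF]
      exact IntermediateField.restrictNormalHom_ker (F J)
    refine ⟨hg, ?_, ?_⟩
    · obtain ⟨a, b, hab⟩ := lat_gen n hn hn5 f hf hfo hev
      refine ⟨r a, r b, ?_⟩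
      let Z : Subgroup (F J ≃ₐ[K] F J) := (Subgroup.closure {r a, r b}).topologicalClosure
      have hZ : IsClosed (Z : Set (F J ≃ₐ[K] F J)) := Subgroup.isClosed_topologicalClosure _
      have hsub : Subgroup.closure {r a, r b} ≤ Z := Subgroup.le_topologicalClosure _
      have h1 : Z.comap r = ⊤ := by
        apply hab
        · exact hZ.preimage hrc
        · intro x hx
          have h2 : x ∈ r.ker := by
            rw [hrk, mem_latH]
            exact fun i _ => hx i
          change r x ∈ Z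
          rw [MonoidHom.mem_ker.1 h2]
          exact Z.one_mem
        · exact hsub (Subgroup.subset_closure (by simp))
        · exact hsub (Subgroup.subset_closure (by simp))
      rw [eq_top_iff]
      intro z _
      obtain ⟨x, rfl⟩ := hrs z
      have h2 : x ∈ Z.comap r := h1 ▸ Subgroup.mem_top x
      exact h2
    · let Φ : (Ω ≃ₐ[K] Ω) →* ∀ i : {i // c i ∈ J}, alternatingGroup (Fin (n i)) :=
        MonoidHom.pi fun i => f i
      have hΦ : Function.Surjective Φ := by
        intro s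
        obtain ⟨x, hx⟩ := independent_all (fun i => alternatingGroup (Fin (n i))) f hf hNS hfo
          (ker_ne' n hn hn5 f hf) (fun i => if h : c i ∈ J then s ⟨i, h⟩ else 1)
        refine ⟨x, funext fun i => ?_⟩
        change f i x = s i
        rw [hx, dif_pos i.2]
      have hΦk : Φ.ker = latH n f c J := by
        ext x
        rw [MonoidHom.mem_ker, mem_latH]
        constructor
        · intro h i hi
          exact congrFun h ⟨i, hi⟩
        · intro h
          funext i
          exact h i i.2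
      let e₁ := QuotientGroup.quotientKerEquivOfSurjective r hrs
      let e₂ := QuotientGroup.quotientKerEquivOfSurjective Φ hΦ
      let e : (F J ≃ₐ[K] F J) ≃* ∀ i : {i // c i ∈ J}, alternatingGroup (Fin (n i)) :=
        (e₁.symm.trans (QuotientGroup.quotientMulEquivOfEq (hrk.trans hΦk.symm))).trans e₂
      have he : ∀ x, e (r x) = Φ x := by
        intro x
        have h1 : e₁.symm (r x) = QuotientGroup.mk x := by
          rw [MulEquiv.symm_apply_eq]
          rfl
        change e₂ (QuotientGroup.quotientMulEquivOfEq (hrk.trans hΦk.symm)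
          (e₁.symm (r x))) = _
        rw [h1]
        rfl
      refine ⟨e, fun i => ?_⟩
      have hq : IsQuotientMap r := IsQuotientMap.of_surjective_continuous hrs hrc
      rw [← hq.isOpen_preimage]
      have h1 : r ⁻¹' {σ : F J ≃ₐ[K] F J | e σ i = 1} = ((f i).ker : Set (Ω ≃ₐ[K] Ω)) := by
        ext x
        change e (r x) i = 1 ↔ f i x = 1
        rw [he]
        rfl
      rw [h1]
      exact hfo i
  · rintro J ⟨j, hj⟩
    rw [hF]
    unfold latH
    refine core3 _ (by
      rintro _ ⟨i, -, rfl⟩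
      exact ⟨hNS i, hfo i⟩) ((hE j).mono ?_)
    refine Set.image_mono ?_
    intro i hi
    change c i ∈ J
    have h1 : c i = j := hi
    rw [h1]
    exact hj

end Pool.Agent.H418.FA
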