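import Mathlib
import Pool.Agent.H418.FA.Lat

/-!
Free closed subgroups.
-/

set_option autoImplicit false

namespace Pool.Agent.H418.FA

open Topology Filter

theorem free_subgroup {G : Type} [Group G] [TopologicalSpace G] [IsTopologicalGroup G]
    [CompactSpace G] (U : ℕ → Subgroup G) (hU : ∀ k, (U k).Normal ∧ IsOpen (U k : Set G))
    (hU2 : ∀ V : Subgroup G, IsOpen (V : Set G) → ∃ k, U k ≤ V)
    (hG2 : ∀ W : Set G, IsOpen W → (1 : G) ∈ W → ∃ V : Subgroup G, IsOpen (V : Set G) ∧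
      (V : Set G) ⊆ W) (N : Subgroup G) (hN : IsClosed (N : Set G)) (h : SolvesAll N) :
    ∃ x : ℕ → N, IsFreeBasis x := by
  have hcomp : CompactSpace N := isCompact_iff_compactSpace.1 hN.isCompact
  have hop : ∀ W : Set N, IsOpen W → (1 : N) ∈ W → ∃ k, ((U k).subgroupOf N : Set N) ⊆ W := by
    intro W hW h1
    obtain ⟨W', hW', rfl⟩ := isOpen_induced_iff.1 hW
    obtain ⟨V, hV, hVW⟩ := hG2 W' hW' h1
    obtain ⟨k, hk⟩ := hU2 V hV
    exact ⟨k, fun x hx => hVW (hk hx)⟩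
  refine iwasawa h (fun k => (U k).subgroupOf N) (fun k => ?_) (fun V hV => ?_)
    (fun W hW h1 => ?_)
  · have := (hU k).1
    exact ⟨inferInstance, (hU k).2.preimage continuous_subtype_val⟩
  · obtain ⟨k, hk⟩ := hop V hV V.one_mem
    exact ⟨k, hk⟩
  · obtain ⟨k, hk⟩ := hop W hW h1
    exact ⟨(U k).subgroupOf N, (hU k).2.preimage continuous_subtype_val, hk⟩

end Pool.Agent.H418.FA
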