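import Mathlib
import Pool.Agent.H418.FA.Cmp2
import Pool.Agent.H418.FA.Lat2

/-!
Absolute Galois groups which are products of two free normal subgroups.
-/

set_option autoImplicit false
set_option linter.unusedSectionVars false

namespace Pool.Agent.H418.FA

open Topology Filter
open Pool.Agent.H391R2 Pool.Agent.H391R2.T4 Pool.Agent.Y793

section grp3

variable {G : Type} [Group G] [TopologicalSpace G] [IsTopologicalGroup G] [CompactSpace G]

/-- Existence of the sequence. -/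
theorem exists_alt_seq3 (D : Set ℕ) (hD : ∀ N : ℕ, AltSolv G (D ∩ {n | N < n}))
    (U : ℕ → Subgroup G) (hU : ∀ k, (U k).Normal ∧ IsOpen (U k : Set G))
    (hU2 : ∀ V : Subgroup G, IsOpen (V : Set G) → ∃ k, U k ≤ V) :
    ∃ (n : ℕ → ℕ) (f : ∀ i, G →* alternatingGroup (Fin (n i))) (c : ℕ → ℕ), StrictMono n ∧
      (∀ i, n i ∈ D ∧ 5 ≤ n i) ∧ (∀ i, Function.Surjective (f i)) ∧
      (∀ i, IsOpen ((f i).ker : Set G)) ∧ ∀ j, EnoughP n f (fun i => c i = j) := by
  classical
  have hUn : ∀ k, (U k).Normal := fun k => (hU k).1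
  have hUo : ∀ k, IsOpen (U k : Set G) := fun k => (hU k).2
  have hfin : ∀ k, Finite (G ⧸ U k) := fun k => Subgroup.quotient_finite_of_isOpen _ (hUo k)
  let Task : Type := (p : ℕ × ℕ) × Subgroup (Equiv.Perm (Fin p.2) × (G ⧸ U p.1))
  have hct : Countable Task := by
    have h1 : ∀ p : ℕ × ℕ, Finite (Equiv.Perm (Fin p.2) × (G ⧸ U p.1)) := fun p =>
      inferInstance
    have h2 : ∀ p : ℕ × ℕ, Countable (Subgroup (Equiv.Perm (Fin p.2) × (G ⧸ U p.1))) :=
      fun p => Finite.to_countable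
    exact inferInstanceAs (Countable
      ((p : ℕ × ℕ) × Subgroup (Equiv.Perm (Fin p.2) × (G ⧸ U p.1))))
  have hne : Nonempty Task := ⟨⟨(0, 0), ⊤⟩⟩
  obtain ⟨T₀, hT₀⟩ := exists_surjective_nat Task
  obtain ⟨T, c, hT⟩ : ∃ (T : ℕ → Task) (c : ℕ → ℕ), ∀ t j m, ∃ i, m ≤ i ∧ T i = t ∧ c i = j := by
    refine ⟨fun i => T₀ (Nat.unpair i).2, fun i => (Nat.unpair (Nat.unpair i).1).1,
      fun t j m => ?_⟩
    obtain ⟨k, hk⟩ := hT₀ t
    refine ⟨Nat.pair (Nat.pair j m) k, (Nat.right_le_pair j m).trans (Nat.left_le_pair _ k),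
      ?_, ?_⟩
    · change T₀ (Nat.unpair (Nat.pair (Nat.pair j m) k)).2 = t
      rw [Nat.unpair_pair, hk]
    · change (Nat.unpair (Nat.unpair (Nat.pair (Nat.pair j m) k)).1).1 = j
      rw [Nat.unpair_pair]
      change (Nat.unpair (Nat.pair j m)).1 = j
      rw [Nat.unpair_pair]
  let prj : ∀ t : Task, t.2 →* (G ⧸ U t.1.1) := fun t => (MonoidHom.snd _ _).comp t.2.subtype
  let State : Type := (n : ℕ) × (G →* alternatingGroup (Fin n))
  have step : ∀ (i N : ℕ), ∃ s : State, N < s.1 ∧ s.1 ∈ D ∧ 5 ≤ s.1 ∧ Function.Surjective s.2 ∧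
      IsOpen (s.2.ker : Set G) ∧ (Function.Surjective (prj (T i)) →
        ∃ g : G →* AltEP (prj (T i)) s.1, IsOpen (g.ker : Set G) ∧ Function.Surjective g ∧
          (∀ x, altProj (prj (T i)) s.1 (g x) = QuotientGroup.mk' (U (T i).1.1) x) ∧
          ∀ x, (g x).1.1.right = (s.2 x : Equiv.Perm (Fin s.1))) := by
    intro i N
    by_cases hs : Function.Surjective (prj (T i))
    · have hB : Finite (T i).2 := inferInstance
      have hΓ : Finite (G ⧸ U (T i).1.1) := inferInstance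
      obtain ⟨n, hn5, hnD, g, hg, hgs, hgq⟩ := hD N (G ⧸ U (T i).1.1) (T i).2
        (QuotientGroup.mk' (U (T i).1.1)) (by rw [QuotientGroup.ker_mk']; exact hUo _)
        (QuotientGroup.mk'_surjective _) (prj (T i)) hs
      obtain ⟨f, hf1, hf2, hf3⟩ := exists_perm (prj (T i)) n g hg hgs
      exact ⟨⟨n, f⟩, hnD.2, hnD.1, hn5, hf1, hf2, fun _ => ⟨g, hg, hgs, hgq, hf3⟩⟩
    · obtain ⟨n, hn5, hnD, g, hg, hgs, hgq⟩ := hD N Unit Unit 1 (by
          have h1 : (1 : G →* Unit).ker = ⊤ := by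
            ext x
            simp
          rw [h1]
          exact isOpen_univ) (fun _ => ⟨1, rfl⟩) (MonoidHom.id Unit) (fun x => ⟨x, rfl⟩)
      obtain ⟨f, hf1, hf2, hf3⟩ := exists_perm (MonoidHom.id Unit) n g hg hgs
      exact ⟨⟨n, f⟩, hnD.2, hnD.1, hn5, hf1, hf2, fun h => absurd h hs⟩
  choose nxt hn1 hn2 hn3 hn4 hn5 hn6 using step
  let s : ℕ → State := fun i => Nat.rec (nxt 0 0) (fun i t => nxt (i + 1) t.1) i
  have hs0 : ∀ i, ∃ N, s i = nxt i N := by
    intro i
    cases i with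
    | zero => exact ⟨0, rfl⟩
    | succ i => exact ⟨(s i).1, rfl⟩
  refine ⟨fun i => (s i).1, fun i => (s i).2, c, ?_, fun i => ?_, fun i => ?_, fun i => ?_, ?_⟩
  · exact strictMono_nat_of_lt_succ fun i => hn1 (i + 1) (s i).1
  · obtain ⟨N, hN⟩ := hs0 i
    change (s i).1 ∈ D ∧ 5 ≤ (s i).1
    rw [hN]
    exact ⟨hn2 i N, hn3 i N⟩
  · obtain ⟨N, hN⟩ := hs0 i
    change Function.Surjective (s i).2
    rw [hN]
    exact hn4 i N
  · obtain ⟨N, hN⟩ := hs0 i
    change IsOpen ((s i).2.ker : Set G)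
    rw [hN]
    exact hn5 i N
  · intro cl Γ B _ _ _ _ q hq hqs α hα m
    let _ : Fintype B := Fintype.ofFinite B
    obtain ⟨k, hk⟩ := hU2 q.ker hq
    let φ : G ⧸ U k →* Γ := QuotientGroup.lift (U k) q hk
    have hφ : ∀ x, φ (QuotientGroup.mk x) = q x := fun x => rfl
    have hφs : Function.Surjective φ := fun γ => by
      obtain ⟨x, hx⟩ := hqs γ
      exact ⟨QuotientGroup.mk x, hx⟩
    let eA : B ≃ Fin (Fintype.card B) := Fintype.equivFin B
    let c : B →* Equiv.Perm (Fin (Fintype.card B)) :=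
      (eA.permCongrHom.toMonoidHom).comp (MulAction.toPermHom B B)
    have hc : Function.Injective c :=
      eA.permCongrHom.injective.comp (MulAction.toPerm_injective)
    let ce : B ≃* c.range := MonoidHom.ofInjective hc
    have hce : ∀ b, (ce b : Equiv.Perm (Fin (Fintype.card B))) = c b := fun b => rfl
    let P : Subgroup (Equiv.Perm (Fin (Fintype.card B)) × (G ⧸ U k)) :=
      { carrier := {p | ∃ b, c b = p.1 ∧ α b = φ p.2}
        one_mem' := ⟨1, map_one c, by rw [map_one]; exact (map_one φ).symm⟩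
        mul_mem' := by
          rintro x y ⟨b, hb1, hb2⟩ ⟨b', hb1', hb2'⟩
          refine ⟨b * b', ?_, ?_⟩
          · rw [map_mul, hb1, hb1']
            rfl
          · rw [map_mul, hb2, hb2']
            exact (map_mul φ _ _).symm
        inv_mem' := by
          rintro x ⟨b, hb1, hb2⟩
          refine ⟨b⁻¹, ?_, ?_⟩
          · rw [map_inv, hb1]
            rfl
          · rw [map_inv, hb2]
            exact (map_inv φ _).symm }
    have hP : ∀ p, p ∈ P ↔ ∃ b, c b = p.1 ∧ α b = φ p.2 := fun p => Iff.rfl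
    let β₀ : P →* c.range := ((MonoidHom.fst _ _).comp P.subtype).codRestrict c.range (by
      rintro ⟨p, b, hb1, hb2⟩
      exact ⟨b, hb1⟩)
    let β : P →* B := (ce.symm : c.range →* B).comp β₀
    have hβ : ∀ p : P, c (β p) = p.1.1 := by
      intro p
      have h1 : ce (β p) = β₀ p := ce.apply_symm_apply _
      exact congrArg Subtype.val h1
    obtain ⟨i, him, hi, hic⟩ := hT ⟨(k, Fintype.card B), P⟩ cl m
    refine ⟨i, him, hic, ?_⟩
    obtain ⟨N, hN⟩ := hs0 i
    have h6 := hn6 i N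
    rw [← hN] at h6
    change ∃ g : G →* AltEP α (s i).1, IsOpen (g.ker : Set G) ∧ Function.Surjective g ∧
      (∀ x, altProj α (s i).1 (g x) = q x) ∧ ∀ x, (g x).1.1.right =
        ((s i).2 x : Equiv.Perm (Fin (s i).1))
    generalize s i = t at h6 ⊢
    rw [hi] at h6
    have hps : Function.Surjective (prj ⟨(k, Fintype.card B), P⟩) := by
      intro γ
      obtain ⟨b, hb⟩ := hα (φ γ)
      exact ⟨⟨(c b, γ), b, rfl, hb⟩, rfl⟩
    obtain ⟨g, hg, hgs, hgq, hgf⟩ := h6 hps
    have hcomm : ∀ p : P, α (β p) = φ ((prj ⟨(k, Fintype.card B), P⟩) p) := by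
      rintro ⟨p, b, hb1, hb2⟩
      have h7 : β ⟨p, b, hb1, hb2⟩ = b := by
        apply hc
        exact (hβ _).trans hb1.symm
      rw [h7]
      exact hb2
    let am := altMap (prj ⟨(k, Fintype.card B), P⟩) α β φ hcomm t.1
    have ham1 : Function.Surjective am := by
      refine altMap_surjective (prj ⟨(k, Fintype.card B), P⟩) α β φ hcomm t.1 hφs ?_
      intro b γ hbγ
      refine ⟨⟨(c b, γ), b, rfl, hbγ⟩, ?_, rfl⟩
      apply hc
      exact hβ _
    have ham2 : ∀ x, (am x).1.1.right = x.1.1.right := fun x => rfl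
    have ham3 : ∀ x, altProj α t.1 (am x) = φ (altProj (prj ⟨(k, Fintype.card B), P⟩) t.1 x) :=
      fun x => rfl
    clear_value am
    refine ⟨am.comp g, ?_, ham1.comp hgs, fun x => ?_, fun h => ?_⟩
    · refine Subgroup.isOpen_mono (H₁ := g.ker) (fun y hy => ?_) hg
      rw [MonoidHom.mem_ker] at hy ⊢
      rw [MonoidHom.comp_apply, hy, map_one]
    · rw [MonoidHom.comp_apply, ham3, hgq]
      exact hφ x
    · rw [MonoidHom.comp_apply, ham2, hgf]

/-- Closed subgroups with prescribed small kernels. -/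
theorem enoughH_of_p (n : ℕ → ℕ) (hn : StrictMono n) (hn5 : ∀ i, 5 ≤ n i)
    (f : ∀ i, G →* alternatingGroup (Fin (n i))) (hf : ∀ i, Function.Surjective (f i))
    (hfo : ∀ i, IsOpen ((f i).ker : Set G)) (C : Subgroup G)
    (hC : IsClosed (C : Set G)) (hCn : C.Normal) (p : ℕ → Prop)
    (hE : EnoughP n f (fun i => p i ∧ ¬ C ≤ (f i).ker))
    (H : Subgroup G) (hH : ∀ i, p i → H ≤ (f i).ker)
    (hCH : ∀ x ∈ C, (∀ i, f i x = 1) → x ∈ H) : EnoughH H := by
  intro Γ B _ _ _ _ q hq hqs α hα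
  obtain ⟨i, -, ⟨hp, hi⟩, g, hg, hgs, hgq, hgf⟩ := hE Γ B q hq hqs α hα 0
  have hcoe : ∀ x, (g x).1.1.right = 1 ↔ f i x = 1 := by
    intro x
    rw [hgf]
    exact ⟨fun h => Subtype.ext h, fun h => congrArg Subtype.val h⟩
  refine ⟨n i, by have := hn5 i; omega, g, hg, hgs, hgq, fun h hh => (hcoe h).2 (hH i hp hh), ?_⟩
  have hmem : ∀ x, x ∈ (MonoidHom.pi (fun j : {j // j ≠ i} => f j.1)).ker ↔
      ∀ j, j ≠ i → f j x = 1 := by
    intro x
    rw [MonoidHom.mem_ker]
    exact ⟨fun h j hj => congrFun h ⟨j, hj⟩, fun h => funext fun j => h j.1 j.2⟩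
  refine ⟨C ⊓ (MonoidHom.pi (fun j : {j // j ≠ i} => f j.1)).ker, inferInstance, ?_, ?_⟩
  · obtain ⟨r, hrC, hr1, hr2⟩ := exists_one n hn hn5 f hf hfo C hC hCn i hi
    exact ⟨r, ⟨hrC, (hmem r).2 hr1⟩, fun h => hr2 ((hcoe r).1 h)⟩
  · rintro r ⟨hrC, hr1⟩ hr2
    refine hCH r hrC fun j => ?_
    by_cases hj : j = i
    · rw [hj]
      exact (hcoe r).1 hr2
    · exact (hmem r).1 hr1 j hj

/-- Good subgroups. -/
def GoodC (n : ℕ → ℕ) (f : ∀ i, G →* alternatingGroup (Fin (n i))) (C : Subgroup G) : Prop :=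
  (∃ m₀, ∀ i, m₀ ≤ i → ¬ C ≤ (f i).ker) ∨ ¬ WeakAll C

theorem EnoughP.finset [TotallyDisconnectedSpace G] {n : ℕ → ℕ} (hn5 : ∀ i, 5 ≤ n i)
    {f : ∀ i, G →* alternatingGroup (Fin (n i))} {p : ℕ → Prop} (hE : EnoughP n f p)
    (S : Finset (Subgroup G)) (hS : ∀ C ∈ S, GoodC n f C) :
    EnoughP n f (fun i => p i ∧ ∀ C ∈ S, ¬ C ≤ (f i).ker) := by
  classical
  induction S using Finset.induction_on with
  | empty => exact hE.mono fun i hi => ⟨hi, fun C hC => absurd hC (Finset.notMem_empty C)⟩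
  | insert C S _ ih =>
    have h0 := ih fun C' hC' => hS C' (Finset.mem_insert_of_mem hC')
    have h1 : EnoughP n f (fun i => (p i ∧ ∀ C' ∈ S, ¬ C' ≤ (f i).ker) ∧ ¬ C ≤ (f i).ker) := by
      rcases hS C (Finset.mem_insert_self C S) with ⟨m₀, hm₀⟩ | hnp
      · exact h0.few C m₀ hm₀
      · obtain ⟨Γ₀, B₀, i1, i2, i3, i4, q₀, α₀, hq₀, hα₀, hno⟩ := exists_ep _ hnp
        exact h0.ep hn5 _ Γ₀ B₀ q₀ hq₀ α₀ hα₀ hno
    refine h1.mono fun i hi => ⟨hi.1.1, fun C' hC' => ?_⟩
    rcases Finset.mem_insert.1 hC' with rfl | hC'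
    · exact hi.2
    · exact hi.1.2 C' hC'

theorem normal_finset (S : Finset (Subgroup G)) (hS : ∀ C ∈ S, C.Normal) :
    (S.inf id).Normal := by
  classical
  induction S using Finset.induction_on with
  | empty => exact (inferInstance : (⊤ : Subgroup G).Normal)
  | insert C S _ ih =>
    have h0 := ih fun C' hC' => hS C' (Finset.mem_insert_of_mem hC')
    have h1 := hS C (Finset.mem_insert_self C S)
    rw [Finset.inf_insert]
    change (C ⊓ S.inf id).Normal
    infer_instance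

theorem closed_finset (S : Finset (Subgroup G)) (hS : ∀ C ∈ S, IsClosed (C : Set G)) :
    IsClosed ((S.inf id : Subgroup G) : Set G) := by
  classical
  induction S using Finset.induction_on with
  | empty => exact isClosed_univ
  | insert C S _ ih =>
    have h0 := ih fun C' hC' => hS C' (Finset.mem_insert_of_mem hC')
    have h1 := hS C (Finset.mem_insert_self C S)
    rw [Finset.inf_insert]
    exact h1.inter h0

theorem NS.finset {N : Subgroup G} (hN : NS N) (S : Finset (Subgroup G))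
    (hS : ∀ C ∈ S, C.Normal ∧ ¬ C ≤ N) : ¬ S.inf id ≤ N := by
  classical
  induction S using Finset.induction_on with
  | empty =>
    intro h
    obtain ⟨a, b, hab⟩ := hN.ncomm
    exact hab (h (Subgroup.mem_top _))
  | insert C S _ ih =>
    have h0 := ih fun C' hC' => hS C' (Finset.mem_insert_of_mem hC')
    have h1 := hS C (Finset.mem_insert_self C S)
    have h2 := normal_finset S fun C' hC' => (hS C' (Finset.mem_insert_of_mem hC')).1
    rw [Finset.inf_insert]
    exact hN.inf_not_le h1.1 h2 h1.2 h0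

/-- The group theoretic form. -/
theorem grp_main [TotallyDisconnectedSpace G] (n : ℕ → ℕ) (hn : StrictMono n)
    (hn5 : ∀ i, 5 ≤ n i)
    (f : ∀ i, G →* alternatingGroup (Fin (n i))) (hf : ∀ i, Function.Surjective (f i))
    (hfo : ∀ i, IsOpen ((f i).ker : Set G)) (c : ℕ → ℕ)
    (hc : ∀ j, EnoughP n f (fun i => c i = j)) (S : Finset (Subgroup G))
    (hS : ∀ C ∈ S, C.Normal ∧ IsClosed (C : Set G) ∧ GoodC n f C) :
    ∃ H : ℕ → Subgroup G, (∀ j, (H j).Normal ∧ IsClosed (H j : Set G) ∧ H j ≤ S.inf id ∧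
        SolvesAll (H j)) ∧
      (∀ j k, j ≠ k → (∀ g ∈ S.inf id, ∃ x ∈ H j, ∃ y ∈ H k, g = x * y) ∧
        SolvesAll (H j ⊓ H k : Subgroup G)) := by
  classical
  have hNS : ∀ i, NS (f i).ker := fun i => by
    have := altSimple (n i) (hn5 i)
    exact NS.of_ker (altNoncomm (n i) (hn5 i)) (f i) (hf i)
  set C := S.inf id with hCdef
  have hCn : C.Normal := normal_finset S fun C' hC' => (hS C' hC').1
  have hCc : IsClosed (C : Set G) := closed_finset S fun C' hC' => (hS C' hC').2.1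
  have hEC : ∀ j, EnoughP n f (fun i => c i = j ∧ ¬ C ≤ (f i).ker) := fun j =>
    ((hc j).finset hn5 S fun C' hC' => (hS C' hC').2.2).mono fun i hi =>
      ⟨hi.1, (hNS i).finset S fun C' hC' => ⟨(hS C' hC').1, hi.2 C' hC'⟩⟩
  have hsolve : ∀ (H : Subgroup G) (j : ℕ), (∀ i, c i = j → H ≤ (f i).ker) →
      (∀ x ∈ C, (∀ i, f i x = 1) → x ∈ H) → SolvesAll H := fun H j h1 h2 =>
    core3H H (enoughH_of_p n hn hn5 f hf hfo C hCc hCn (fun i => c i = j) (hEC j) H h1 h2)
  let H : ℕ → Subgroup G := fun j => C ⊓ (MonoidHom.pi (fun i : {i // c i = j} => f i.1)).ker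
  have hH : ∀ j x, x ∈ H j ↔ x ∈ C ∧ ∀ i, c i = j → f i x = 1 := by
    intro j x
    constructor
    · rintro ⟨h1, h2⟩
      exact ⟨h1, fun i hi => congrFun h2 ⟨i, hi⟩⟩
    · rintro ⟨h1, h2⟩
      exact ⟨h1, funext fun i => h2 i.1 i.2⟩
  refine ⟨H, fun j => ⟨inferInstance, ?_, inf_le_left, ?_⟩, fun j k hjk => ⟨?_, ?_⟩⟩
  · have h1 : (H j : Set G) = (C : Set G) ∩ ⋂ i : {i // c i = j}, ((f i.1).ker : Set G) := by
      ext x
      rw [SetLike.mem_coe, hH, Set.mem_inter_iff, Set.mem_iInter]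
      exact ⟨fun h => ⟨h.1, fun i => h.2 i.1 i.2⟩, fun h => ⟨h.1, fun i hi => h.2 ⟨i, hi⟩⟩⟩
    rw [h1]
    exact hCc.inter (isClosed_iInter fun i => Subgroup.isClosed_of_isOpen _ (hfo i.1))
  · exact hsolve (H j) j (fun i hi x hx => ((hH j x).1 hx).2 i hi)
      (fun x hx h => (hH j x).2 ⟨hx, fun i _ => h i⟩)
  · -- the product
    intro g hg
    have hcomp : CompactSpace C := isCompact_iff_compactSpace.1 hCc.isCompact
    let f' : ∀ i : {i // ¬ C ≤ (f i).ker}, C →* alternatingGroup (Fin (n i)) := fun i =>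
      (f i.1).comp C.subtype
    have hf' : ∀ i, Function.Surjective (f' i) := by
      rintro ⟨i, hi⟩
      have hs := altSimple (n i) (hn5 i)
      have h1 : (C.map (f i)).Normal := hCn.map (f i) (hf i)
      rcases h1.eq_bot_or_eq_top with h2 | h2
      · exfalso
        apply hi
        intro x hx
        rw [MonoidHom.mem_ker]
        have h3 : f i x ∈ C.map (f i) := ⟨x, hx, rfl⟩
        rw [h2] at h3
        exact h3
      · intro s
        have h3 : s ∈ C.map (f i) := h2 ▸ Subgroup.mem_top s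
        obtain ⟨x, hx, hxs⟩ := h3
        exact ⟨⟨x, hx⟩, hxs⟩
    obtain ⟨x, hx⟩ := independent_all
      (fun i : {i // ¬ C ≤ (f i).ker} => alternatingGroup (Fin (n i))) f' hf'
      (fun i => by
        have := altSimple (n i) (hn5 i)
        exact NS.of_ker (altNoncomm (n i) (hn5 i)) (f' i) (hf' i))
      (fun i => (hfo i).preimage continuous_subtype_val)
      (fun i i' hii => by
        rcases lt_or_gt_of_ne (fun h => hii (Subtype.ext h) : i.1 ≠ i'.1) with h | h
        · exact ker_ne (hn5 i) (hn h) _ (hf' i) _ (hf' i')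
        · exact (ker_ne (hn5 i') (hn h) _ (hf' i') _ (hf' i)).symm)
      (fun i => if c i.1 = j then 1 else f i.1 g)
    have hx' : ∀ i, ¬ C ≤ (f i).ker → f i x = if c i = j then 1 else f i g := fun i hi =>
      hx ⟨i, hi⟩
    refine ⟨x, (hH j _).2 ⟨x.2, fun i hi => ?_⟩, (x : G)⁻¹ * g, (hH k _).2 ⟨?_, fun i hi => ?_⟩,
      by group⟩
    · by_cases h1 : C ≤ (f i).ker
      · exact h1 x.2
      · rw [hx' i h1, if_pos hi]
    · exact C.mul_mem (C.inv_mem x.2) hg
    · rw [map_mul, map_inv]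
      by_cases h1 : C ≤ (f i).ker
      · have h2 : f i x = 1 := h1 x.2
        have h3 : f i g = 1 := h1 hg
        rw [h2, h3, inv_one, one_mul]
      · rw [hx' i h1, if_neg (fun h => hjk (h.symm.trans hi)), inv_mul_cancel]
  · exact hsolve (H j ⊓ H k) j (fun i hi x hx => ((hH j x).1 hx.1).2 i hi)
      (fun x hx h => ⟨(hH j x).2 ⟨hx, fun i _ => h i⟩, (hH k x).2 ⟨hx, fun i _ => h i⟩⟩)

end grp3

/-- Transport. -/
theorem SolvesAll.map_sub {G G' : Type} [Group G] [TopologicalSpace G] [Group G']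
    [TopologicalSpace G'] (C : Subgroup G) (e : C ≃* G') (he : Continuous e)
    (he' : Continuous e.symm) (H : Subgroup G) (hH : H ≤ C) (h : SolvesAll H) :
    SolvesAll ((H.subgroupOf C).map e.toMonoidHom) := by
  let e' : H ≃* (H.subgroupOf C).map e.toMonoidHom :=
    (Subgroup.subgroupOfEquivOfLe hH).symm.trans (e.subgroupMap (H.subgroupOf C))
  have h1 : ∀ x : H, ((e' x : (H.subgroupOf C).map e.toMonoidHom) : G') = e ⟨x, hH x.2⟩ :=
    fun x => rfl
  refine SolvesAll.of_equiv e' ?_ ?_ h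
  · refine continuous_induced_rng.2 ?_
    exact he.comp (continuous_subtype_val.subtype_mk fun x => hH x.2)
  · refine continuous_induced_rng.2 ?_
    have h3 : (Subtype.val ∘ e'.symm) = fun y : (H.subgroupOf C).map e.toMonoidHom =>
        ((e.symm (y : G') : C) : G) := by
      funext y
      obtain ⟨x, rfl⟩ := e'.surjective y
      rw [Function.comp_apply, MulEquiv.symm_apply_apply, h1, MulEquiv.symm_apply_apply]
    rw [h3]
    exact continuous_subtype_val.comp (he'.comp continuous_subtype_val)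

end Pool.Agent.H418.FA
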